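import Pool.Agent.Run7.h200.PDefs

/-!
# Invariant vectors with two properties: definitions
-/

set_option autoImplicit false

open Equiv

namespace Run7.h200.Qr

open Run7.h200.Van

variable {G : Type} [Group G] {M : Type*} [AddCommGroup M] (τ : G → M → M) (P Q : M → Prop)

/-- The vectors with the property `P` which are invariant under `H` have the property `Q`. -/
def InvIn (H : Subgroup G) : Prop := ∀ z, P z → (∀ h ∈ H, τ h z = z) → Q z

/-- The representation `σ` occurs in the vectors with the property `P`, outside of those with the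
property `Q`. -/
def Occ {S : Type} [AddCommGroup S] [Module ℚ S] (σ : G →* Module.End ℚ S) : Prop :=
  ∃ f : S →+ M, (∀ s, P (f s)) ∧ (∀ g s, f (σ g s) = τ g (f s)) ∧ ∃ s, ¬ Q (f s)

/-- Every irreducible rational representation of `G` which occurs and has a nonzero vector fixed by
`H` has for some `j` a nonzero vector fixed by `E j`. -/
def Dom {ι : Type} (H : Subgroup G) (E : ι → Subgroup G) : Prop :=
  ∀ (S : Type) [AddCommGroup S] [Module ℚ S] (σ : G →* Module.End ℚ S), Irr σ →
    Occ τ P Q σ → (∃ v : S, v ≠ 0 ∧ ∀ h ∈ H, σ h v = v) →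
      ∃ j, ∃ v : S, v ≠ 0 ∧ ∀ d ∈ E j, σ d v = v

/-- Some nonzero irreducible rational representation of `G` occurs, and the elements of `G`
different from one fix only `0` in it. -/
def Fre : Prop :=
  ∃ (S : Type) (_ : AddCommGroup S) (_ : Module ℚ S) (σ : G →* Module.End ℚ S), Irr σ ∧
    Occ τ P Q σ ∧ (∃ v : S, v ≠ 0) ∧ ∀ g : G, g ≠ 1 → ∀ v : S, σ g v = v → v = 0

/-- The vectors with the property `P` which are alternating under `S_k` have the property `Q`. -/
def AltIn {n : ℕ} (e : Perm (Fin n) →* G) (k : ℕ) : Prop :=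
  ∀ z, P z → (∀ σ : Perm (Fin n), (∀ i : Fin n, k ≤ i.val → σ i = i) →
    τ (e σ) z = (Perm.sign σ : ℤ) • z) → Q z

end Run7.h200.Qr
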