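import Pool.Agent.Run7.h200.Van

/-!
# The abstract theorem on vanishing statements, for invariants
-/

set_option autoImplicit false

open Finset Equiv

namespace Run7.h200.Van

open Pool.Agent.X252.GA Pool.Agent.X310.Mu Run7.h200.HT Run7.h200.Col

/-- The group `S_k` of the permutations of the first `k` letters of `Fin n`. -/
def symSub (n k : ℕ) : Subgroup (Perm (Fin n)) where
  carrier := {σ | ∀ i : Fin n, k ≤ i.val → σ i = i}
  mul_mem' := by
    intro σ τ h2 h4 w hw
    change σ (τ w) = w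
    rw [h4 w hw, h2 w hw]
  one_mem' := fun _ _ => rfl
  inv_mem' := by
    intro σ h2 w hw
    rw [Perm.inv_eq_iff_eq, h2 w hw]

variable {G : Type} [Group G] {M : Type*} [AddCommGroup M] [Module ℚ M]
  (τ : G →* Module.End ℚ M) (U N : Submodule ℚ M)

/-- The elements of `U` which are invariant under `H` are in `N`. -/
def VInv (H : Subgroup G) : Prop := ∀ z ∈ U, (∀ h ∈ H, τ h z = z) → z ∈ N

variable {τ U N}

/-- averages -/
lemma exists_avg [Finite G] (hU : ∀ g, ∀ u ∈ U, τ g u ∈ U) (H : Subgroup G) {z : M} (hz : z ∈ U)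
    (hzH : ∀ h ∈ H, τ h z - z ∈ N) : ∃ x ∈ U, (∀ g ∈ H, τ g x = x) ∧ x - z ∈ N := by
  classical
  have : Fintype G := Fintype.ofFinite G
  refine ⟨(ord H)⁻¹ • ring τ (nA H) z, U.smul_mem _ (ring_mem τ hU _ hz), ?_, ?_⟩
  · intro g hg
    rw [map_smul, fixed_ring_nA τ H z hg]
  · have h1 : ring τ (nA H) z - ord H • z ∈ N := by
      rw [ring_nA]
      have h2 : ord H • z = ∑ g : G with g ∈ H, z := by
        rw [Finset.sum_const, ← Nat.cast_smul_eq_nsmul ℚ]
        unfold ord
        congr!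
      rw [h2, ← Finset.sum_sub_distrib]
      exact N.sum_mem fun g hg => hzH g (by simpa using hg)
    have h3 := N.smul_mem (ord H)⁻¹ h1
    rwa [smul_sub, smul_smul, inv_mul_cancel₀ (ord_pos H).ne', one_smul] at h3

lemma vinv_iff [Finite G] (hU : ∀ g, ∀ u ∈ U, τ g u ∈ U) (H : Subgroup G) :
    VInv τ U N H ↔ Vanish τ U N H := by
  constructor
  · intro h z hz hzH
    obtain ⟨x, hx, hxf, hxz⟩ := exists_avg hU H hz hzH
    have h1 := N.sub_mem (h x hx hxf) hxz
    rwa [sub_sub_cancel] at h1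
  · intro h z hz hzH
    exact h z hz fun g hg => by rw [hzH g hg, sub_self]; exact N.zero_mem

/-- alternating vectors -/
theorem alt_iff [Finite G] (hU : ∀ g, ∀ u ∈ U, τ g u ∈ U) (hN : ∀ g, ∀ u ∈ N, τ g u ∈ N) {n k : ℕ}
    (e : Perm (Fin n) →* G) (hk : 2 ≤ k) (hn : (k - 1) ^ 2 < n) :
    VInv τ U N ⊥ ↔ VInv τ U N ((symSub n k).map e) ∧
      ∀ z ∈ U, (∀ σ ∈ symSub n k, τ (e σ) z = ((Perm.sign σ : ℤ) : ℚ) • z) → z ∈ N := by
  have hbot : VInv τ U N ⊥ → ∀ z ∈ U, z ∈ N := by
    intro h z hz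
    refine h z hz fun g hg => ?_
    rw [Subgroup.mem_bot] at hg
    rw [hg, map_one]
    rfl
  constructor
  · intro h
    exact ⟨fun z hz _ => hbot h z hz, fun z hz _ => hbot h z hz⟩
  · rintro ⟨h1, h2⟩
    have h6 := (main (τ := τ) (U := U) (N := N) hU hN).2.2.2.2.2.1 n k
      (e.comp (alternatingGroup (Fin n)).subtype) hk hn
    rw [vinv_iff hU, h6, ← vinv_iff hU]
    intro z hz hzA
    have hA : ∀ σ ∈ symSub n k, Perm.sign σ = 1 → τ (e σ) z = z := by
      intro σ hσ hs
      refine hzA _ ⟨⟨σ, Perm.mem_alternatingGroup.mpr hs⟩, hσ, rfl⟩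
    have hn2 : 2 ≤ n := by
      have : 1 ≤ k - 1 := by omega
      nlinarith
    let t : Perm (Fin n) := swap ⟨0, by omega⟩ ⟨1, by omega⟩
    have ht : t ∈ symSub n k := by
      intro i hi
      refine swap_apply_of_ne_of_ne ?_ ?_
      · rintro rfl
        simp only at hi
        omega
      · rintro rfl
        simp only at hi
        omega
    have hts : Perm.sign t = -1 := Perm.sign_swap (by simp)
    have htt : t * t = 1 := swap_mul_self _ _
    have htt' : τ (e t) (τ (e t) z) = z := by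
      rw [← Module.End.mul_apply, ← map_mul, ← map_mul, htt, map_one, map_one]
      rfl
    have hodd : ∀ σ ∈ symSub n k, Perm.sign σ = -1 → τ (e σ) z = τ (e t) z := by
      intro σ hσ hs
      have h3 : σ = t * (t * σ) := by rw [← mul_assoc, htt, one_mul]
      have h4 : τ (e (t * σ)) z = z := hA _ ((symSub n k).mul_mem ht hσ) (by
        rw [map_mul, hts, hs]; decide)
      rw [h3, map_mul, map_mul, Module.End.mul_apply, h4]
    have htz : τ (e t) z ∈ U := hU _ _ hz
    have key : ∀ σ ∈ symSub n k, (Perm.sign σ = 1 → τ (e σ) (τ (e t) z) = τ (e t) z) ∧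
        (Perm.sign σ = -1 → τ (e σ) (τ (e t) z) = z) := by
      intro σ hσ
      constructor
      · intro hs
        rw [← Module.End.mul_apply, ← map_mul, ← map_mul]
        exact hodd _ ((symSub n k).mul_mem hσ ht) (by rw [map_mul, hts, hs]; decide)
      · intro hs
        rw [← Module.End.mul_apply, ← map_mul, ← map_mul]
        exact hA _ ((symSub n k).mul_mem hσ ht) (by rw [map_mul, hts, hs]; decide)
    have hp : z + τ (e t) z ∈ N := by
      refine h1 _ (U.add_mem hz htz) ?_
      rintro _ ⟨σ, hσ, rfl⟩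
      rw [map_add]
      rcases Int.units_eq_one_or (Perm.sign σ) with hs | hs
      · rw [hA σ hσ hs, (key σ hσ).1 hs]
      · rw [hodd σ hσ hs, (key σ hσ).2 hs, add_comm]
    have hm : z - τ (e t) z ∈ N := by
      refine h2 _ (U.sub_mem hz htz) ?_
      intro σ hσ
      rw [map_sub]
      rcases Int.units_eq_one_or (Perm.sign σ) with hs | hs
      · rw [hA σ hσ hs, (key σ hσ).1 hs, hs]
        simp
      · rw [hodd σ hσ hs, (key σ hσ).2 hs, hs]
        simp
    have h3 := N.smul_mem (2⁻¹ : ℚ) (N.add_mem hp hm)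
    have h4 : (2⁻¹ : ℚ) • (z + τ (e t) z + (z - τ (e t) z)) = z := by
      have h5 : z + τ (e t) z + (z - τ (e t) z) = (2 : ℚ) • z := by
        rw [two_smul]; abel
      rw [h5, smul_smul]
      norm_num
    rwa [h4] at h3

end Run7.h200.Van
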