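import Pool.Agent.Run7.h200.QDefs
import Pool.Agent.Run7.h200.VInv

/-!
# Invariant vectors with two properties
-/

set_option autoImplicit false

open Equiv

namespace Run7.h200.Qr

open Run7.h200.Van
open Run7.h200.Pr (Criteria Sieve Mono)

variable {G : Type} [Group G] {M : Type*} [AddCommGroup M] {τ : G → M → M} {P Q : M → Prop}

omit [AddCommGroup M] in
lemma mono : Mono (InvIn τ P Q) := fun _ _ h hH z hz hzK => hH z hz fun g hg => hzK g (h hg)

variable [Module ℚ M] {ρ : G →* Module.End ℚ M} {U N : Submodule ℚ M}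
  (hτ : ∀ g z, τ g z = ρ g z) (hP : ∀ z, P z ↔ z ∈ U) (hQ : ∀ z, Q z ↔ z ∈ N)

include hτ hP hQ in
lemma invIn_iff (H : Subgroup G) : InvIn τ P Q H ↔ VInv ρ U N H := by
  unfold InvIn VInv
  simp only [hP, hτ, hQ]

include hτ hP hQ in
lemma occ_iff {S : Type} [AddCommGroup S] [Module ℚ S]
    (σ : G →* Module.End ℚ S) : Occ τ P Q σ ↔ Occurs ρ U N σ := by
  unfold Occ Occurs
  simp only [hP, hτ, hQ]

include hτ hP hQ in
lemma dom_iff {ι : Type} (H : Subgroup G)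
    (E : ι → Subgroup G) : Dom τ P Q H E ↔ DomIn ρ U N H E := by
  unfold Dom DomIn
  simp only [occ_iff hτ hP hQ]

include hτ hP hQ in
lemma free_iff : Fre τ P Q ↔ FreeIn ρ U N := by
  unfold Fre FreeIn
  simp only [occ_iff hτ hP hQ]

include hτ hP hQ in
/-- **Group actions and vectors with two properties.** -/
theorem main [Finite G] (hU : ∀ g, ∀ u ∈ U, ρ g u ∈ U) (hN : ∀ g, ∀ u ∈ N, ρ g u ∈ N) :
    (∀ (H : Subgroup G) (ι : Type) (E : ι → Subgroup G), Dom τ P Q H E →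
      (∀ j, InvIn τ P Q (E j)) → InvIn τ P Q H) ∧
    Criteria (InvIn τ P Q) ∧ Sieve (InvIn τ P Q) ∧
    (∀ (n k : ℕ) (e : Perm (Fin n) →* G), 2 ≤ k → (k - 1) ^ 2 < n →
      (InvIn τ P Q ⊥ ↔ InvIn τ P Q ((symSub n k).map e) ∧ AltIn τ P Q e k)) ∧
    (¬ InvIn τ P Q ⊥ → (∀ D : Subgroup G, (Nat.card D).Prime → InvIn τ P Q D) →
      Fre τ P Q ∧ CyclicSubgroups G) := by
  have hE : ∀ H : Subgroup G, InvIn τ P Q H ↔ Vanish ρ U N H := fun H =>
    (invIn_iff hτ hP hQ H).trans (vinv_iff hU H)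
  have hmain := Van.main (τ := ρ) (U := U) (N := N) hU hN
  simp only [← hE, ← dom_iff hτ hP hQ, ← free_iff hτ hP hQ] at hmain
  obtain ⟨m1, m2, m3, m4, m5, m6, m7, m8⟩ := hmain
  refine ⟨m1, ⟨m2, m3, m4, m5, m6, m7⟩, ?_, ?_, m8⟩
  · intro K ι R hK hR
    constructor
    · intro h1 D _ _
      exact mono _ _ bot_le h1
    · intro h1
      rw [m2 K hK]
      intro D hD
      by_cases h2 : ∀ j, ¬ R j ≤ D
      · exact h1 D hD h2
      · push Not at h2
        obtain ⟨j, hj⟩ := h2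
        exact mono _ _ hj (hR j)
  · intro n k e hk hn
    rw [invIn_iff hτ hP hQ, invIn_iff hτ hP hQ, alt_iff hU hN e hk hn]
    unfold AltIn
    refine and_congr Iff.rfl (forall_congr' fun z => ?_)
    rw [hP, hQ]
    refine forall_congr' fun _ => ?_
    have e1 : (∀ σ ∈ symSub n k, ρ (e σ) z = ((Perm.sign σ : ℤ) : ℚ) • z) ↔
        ∀ σ : Perm (Fin n), (∀ i : Fin n, k ≤ i.val → σ i = i) →
          τ (e σ) z = (Perm.sign σ : ℤ) • z := by
      refine forall_congr' fun σ => ?_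
      rw [hτ, Int.cast_smul_eq_zsmul]
      exact Iff.rfl
    rw [e1]

end Run7.h200.Qr
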