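import Pool.Agent.Run7.h200.CHDefs

/-!
# Finite group actions and Chow groups
-/

set_option autoImplicit false

open CategoryTheory Equiv

universe u v

namespace Run7.h200.CH

open Pool.Agent.H914 Pool.Agent.H914.VarClass Pool.Agent.H914.VarClass.Obj Pool.Agent.R903
open Run7.h200.Van

variable {k : Type u} [Field k] {𝒱 : VarClass k} {C : ChowTheory.{u, v} 𝒱} {X : 𝒱.Obj}
  {G : Type} [Group G]

lemma rep_apply (a : G →* Aut X) (g : G) (z : C.CH X) : rep C a g z = C.pull (a g).inv z := rfl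

lemma rep_inv (a : G →* Aut X) (g : G) (z : C.CH X) : rep C a g⁻¹ z = C.pull (a g).hom z := by
  rw [rep_apply, map_inv]
  rfl

lemma rep_inv_rep (a : G →* Aut X) (g : G) (z : C.CH X) : rep C a g⁻¹ (rep C a g z) = z := by
  rw [← Module.End.mul_apply, ← map_mul, inv_mul_cancel, map_one]
  rfl

lemma rep_rep_inv (a : G →* Aut X) (g : G) (z : C.CH X) : rep C a g (rep C a g⁻¹ z) = z := by
  rw [← Module.End.mul_apply, ← map_mul, mul_inv_cancel, map_one]
  rfl

lemma inv_iff (a : G →* Aut X) (H : Subgroup G) (z : C.CH X) :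
    Inv C a H z ↔ ∀ g ∈ H, rep C a g z = z := by
  constructor
  · intro h g hg
    have h1 := h g⁻¹ (H.inv_mem hg)
    rw [← rep_inv, inv_inv] at h1
    exact h1
  · intro h g hg
    rw [← rep_inv]
    exact h _ (H.inv_mem hg)

lemma rep_gr (a : G →* Aut X) (i : ℕ) (g : G) : ∀ z ∈ C.gr X i, rep C a g z ∈ C.gr X i :=
  fun _ hz => (C.isPullPush (a g).inv).pull_mem hz

lemma occ_iff (a : G →* Aut X) (h : C.CH X) (i : ℕ) {S : Type} [AddCommGroup S] [Module ℚ S]
    (σ : G →* Module.End ℚ S) :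
    OccursCH C a h i σ ↔ Occurs (rep C a) (C.gr X i) (Submodule.span ℚ {h ^ i}) σ := by
  unfold OccursCH Occurs
  refine exists_congr fun f => and_congr Iff.rfl (and_congr Iff.rfl (exists_congr fun s => ?_))
  rw [Submodule.mem_span_singleton]
  constructor
  · rintro h1 ⟨q, hq⟩
    exact h1 q hq.symm
  · intro h1 q hq
    exact h1 ⟨q, hq.symm⟩

lemma dom_iff (a : G →* Aut X) (h : C.CH X) (i : ℕ) {ι : Type} (H : Subgroup G)
    (E : ι → Subgroup G) : DominatedCH C a h i H E ↔
      DomIn (rep C a) (C.gr X i) (Submodule.span ℚ {h ^ i}) H E := by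
  unfold DominatedCH DomIn
  simp only [occ_iff]

lemma free_iff (a : G →* Aut X) (h : C.CH X) (i : ℕ) : FreeCH C a h i ↔
      FreeIn (rep C a) (C.gr X i) (Submodule.span ℚ {h ^ i}) := by
  unfold FreeCH FreeIn
  simp only [occ_iff]

section hart

variable {a : G →* Aut X} {h : C.CH X} (hh : ∀ g, C.pull (a g).hom h = h)

include hh

lemma rep_h (g : G) (i : ℕ) : rep C a g (h ^ i) = h ^ i := by
  have h1 : rep C a g h = h := by
    have h2 := hh g⁻¹
    rw [← rep_inv, inv_inv] at h2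
    exact h2
  change C.pull (a g).inv (h ^ i) = h ^ i
  rw [map_pow]
  congr 1

lemma rep_span (g : G) (i : ℕ) :
    ∀ z ∈ Submodule.span ℚ {h ^ i}, rep C a g z ∈ Submodule.span ℚ {h ^ i} := by
  intro z hz
  obtain ⟨q, rfl⟩ := Submodule.mem_span_singleton.mp hz
  rw [map_smul, rep_h hh]
  exact Submodule.smul_mem _ _ (Submodule.mem_span_singleton_self _)

omit hh in
lemma hart_iff (i : ℕ) (H : Subgroup G) : QuotientHart C a h i H ↔
    VInv (rep C a) (C.gr X i) (Submodule.span ℚ {h ^ i}) H := by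
  constructor
  · intro h1 z hz hzH
    obtain ⟨q, rfl⟩ := h1 z hz ((inv_iff a H z).mpr hzH)
    exact Submodule.smul_mem _ _ (Submodule.mem_span_singleton_self _)
  · intro h1 z hz hzH
    obtain ⟨q, hq⟩ := Submodule.mem_span_singleton.mp (h1 z hz ((inv_iff a H z).mp hzH))
    exact ⟨q, hq.symm⟩

omit hh in
lemma hart_bot (i : ℕ) : QuotientHart C a h i ⊥ ↔
    ∀ z ∈ C.gr X i, ∃ q : ℚ, z = q • h ^ i := by
  constructor
  · intro h1 z hz
    refine h1 z hz fun g hg => ?_
    rw [Subgroup.mem_bot] at hg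
    rw [hg, map_one]
    change C.pull (𝟙 X) z = z
    rw [C.pullFunctorial.pull_id]
    rfl
  · intro h1 z hz _
    exact h1 z hz

omit hh in
lemma hart_mono {i : ℕ} {H H' : Subgroup G} (hle : H ≤ H') (h1 : QuotientHart C a h i H) :
    QuotientHart C a h i H' := fun z hz hzH => h1 z hz fun g hg => hzH g (hle hg)

omit hh in
/-- coverings of varieties without other cycles -/
lemma hart_cover [Finite G] {i : ℕ} {H : Subgroup G} {Y : 𝒱.Obj} {f : X ⟶ Y}
    (hf : IsQuotientMap C a H f) {l : C.CH Y} (hl : ∀ y ∈ C.gr Y i, ∃ q : ℚ, y = q • l ^ i)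
    (hlh : C.pull f l = h) : QuotientHart C a h i H := by
  classical
  have : Fintype H := Fintype.ofFinite H
  intro z hz hzH
  obtain ⟨hdim, hq⟩ := hf
  have h1 := hq z
  have h2 : ∑ᶠ g : H, C.pull (a g).hom z = (Fintype.card H : ℚ) • z := by
    rw [finsum_eq_sum_of_fintype, Finset.sum_congr rfl fun g _ => hzH g.1 g.2, Finset.sum_const,
      Finset.card_univ, Nat.cast_smul_eq_nsmul]
  obtain ⟨q, hq'⟩ := hl _ ((C.isPullPush f).push_mem hz (by rw [hdim]))
  rw [h2, hq', map_smul, map_pow, hlh] at h1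
  have h3 : (Fintype.card H : ℚ) ≠ 0 := by exact_mod_cast Fintype.card_ne_zero
  refine ⟨(Fintype.card H : ℚ)⁻¹ * q, ?_⟩
  rw [mul_smul, h1, smul_smul, inv_mul_cancel₀ h3, one_smul]

/-- **Group actions and the classes of codimension `i`.** -/
theorem mainCH [Finite G] (i : ℕ) :
    (∀ (H : Subgroup G) (ι : Type) (E : ι → Subgroup G), DominatedCH C a h i H E →
      (∀ j, QuotientHart C a h i (E j)) → QuotientHart C a h i H) ∧
    (∀ K : Subgroup G, (∀ x ∈ K, ∀ y ∈ K, x * y = y * x) →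
      (QuotientHart C a h i ⊥ ↔ ∀ D : Subgroup G, CyclicQuotient K D → QuotientHart C a h i D)) ∧
    (∀ (ι : Type) (E : ι → Subgroup G) (K : Subgroup G), Partitions K E →
      (QuotientHart C a h i ⊥ ↔ ∀ j, QuotientHart C a h i (E j))) ∧
    (∀ c : G, c * c = 1 → (QuotientHart C a h i ⊥ ↔
      QuotientHart C a h i (Subgroup.zpowers c) ∧ QuotientHart C a h i (commSub c))) ∧
    (∀ c : G, InSimple c → c ≠ 1 → c * c = 1 →
      (QuotientHart C a h i ⊥ ↔ QuotientHart C a h i (Subgroup.zpowers c))) ∧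
    (∀ (n k : ℕ) (e : alternatingGroup (Fin n) →* G), 2 ≤ k → (k - 1) ^ 2 < n →
      (QuotientHart C a h i ⊥ ↔ QuotientHart C a h i ((altSub n k).map e))) ∧
    (∀ (n k : ℕ) (e : alternatingGroup (Fin n) →* G), 2 ≤ k → k ≤ n →
      (QuotientHart C a h i ⊥ ↔ QuotientHart C a h i ((altSub n k).map e) ∧
        QuotientHart C a h i ((classSub n (k - 1)).map e))) ∧
    (∀ (n k : ℕ) (e : Perm (Fin n) →* G), 2 ≤ k → (k - 1) ^ 2 < n →
      (QuotientHart C a h i ⊥ ↔ QuotientHart C a h i ((symSub n k).map e) ∧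
        ∀ z ∈ C.gr X i, Alternating C a e k z → ∃ q : ℚ, z = q • h ^ i)) ∧
    (¬ QuotientHart C a h i ⊥ → (∀ P : Subgroup G, (Nat.card P).Prime →
      QuotientHart C a h i P) → FreeCH C a h i ∧ CyclicSubgroups G) := by
  have hU := rep_gr (C := C) a i
  have hN := rep_span hh (i := i)
  have hE : ∀ H : Subgroup G, QuotientHart C a h i H ↔
      Vanish (rep C a) (C.gr X i) (Submodule.span ℚ {h ^ i}) H := fun H =>
    (hart_iff i H).trans (vinv_iff (fun g u hu => hU g u hu) H)
  have hmain := Van.main (τ := rep C a) (U := C.gr X i) (N := Submodule.span ℚ {h ^ i})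
    (fun g u hu => hU g u hu) (fun g u hu => hN g u hu)
  simp only [← hE, ← dom_iff, ← free_iff] at hmain
  obtain ⟨m1, m2, m3, m4, m5, m6, m7, m8⟩ := hmain
  refine ⟨m1, m2, m3, m4, m5, m6, m7, ?_, m8⟩
  intro n k e hk hn
  rw [hart_iff, hart_iff, alt_iff (fun g u hu => hU g u hu) (fun g u hu => hN g u hu) e hk hn]
  refine and_congr Iff.rfl (forall_congr' fun z => imp_congr_right fun hz => ?_)
  constructor
  · intro h1 hz'
    have h2 := h1 (fun σ hσ => by
      have h3 := hz' σ⁻¹ ((symSub n k).inv_mem hσ)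
      rw [← rep_inv, ← map_inv, inv_inv, Perm.sign_inv] at h3
      exact h3)
    obtain ⟨q, hq⟩ := Submodule.mem_span_singleton.mp h2
    exact ⟨q, hq.symm⟩
  · intro h1 hz'
    obtain ⟨q, hq⟩ := h1 (fun σ hσ => by
      have h3 := hz' σ⁻¹ ((symSub n k).inv_mem hσ)
      rw [map_inv, rep_inv, Perm.sign_inv] at h3
      exact h3)
    rw [hq]
    exact Submodule.smul_mem _ _ (Submodule.mem_span_singleton_self _)

end hart

end Run7.h200.CH
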