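import Pool.Agent.R903.Chow

/-!
# The action on the Chow groups
-/

set_option autoImplicit false

open CategoryTheory

universe u v

namespace Run7.h200.Pr

open Pool.Agent.H914 Pool.Agent.H914.VarClass Pool.Agent.H914.VarClass.Obj Pool.Agent.R903

/-- The action of `G` on the Chow groups of `X`: `g` acts as the pull-back under `g⁻¹`. -/
def actCH {k : Type u} [Field k] {𝒱 : VarClass k} (C : ChowTheory.{u, v} 𝒱) {X : 𝒱.Obj}
    {G : Type} [Group G] (a : G →* Aut X) (g : G) (z : C.CH X) : C.CH X := C.pull (a g).inv z

end Run7.h200.Pr
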