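import Pool.Agent.Run7.h200.PDefs
import Pool.Agent.Run7.h200.VInv

/-!
# Invariant vectors with a property
-/

set_option autoImplicit false

open Equiv

namespace Run7.h200.Pr

open Run7.h200.Van

variable {G : Type} [Group G] {M : Type*} [AddCommGroup M] {τ : G → M → M} {P : M → Prop}

lemma mono : Mono (NoInv τ P) := fun _ _ h hH z hz hzK => hH z hz fun g hg => hzK g (h hg)

variable [Module ℚ M] {ρ : G →* Module.End ℚ M} {U : Submodule ℚ M} (hτ : ∀ g z, τ g z = ρ g z)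
  (hP : ∀ z, P z ↔ z ∈ U)

include hτ hP in
lemma noInv_iff (H : Subgroup G) : NoInv τ P H ↔ VInv ρ U ⊥ H := by
  unfold NoInv VInv
  simp only [hP, hτ, Submodule.mem_bot]

include hτ hP in
lemma occ_iff {S : Type} [AddCommGroup S] [Module ℚ S]
    (σ : G →* Module.End ℚ S) : Occ τ P σ ↔ Occurs ρ U ⊥ σ := by
  unfold Occ Occurs
  simp only [hP, hτ, Submodule.mem_bot, ne_eq]

include hτ hP in
lemma dom_iff {ι : Type} (H : Subgroup G)
    (E : ι → Subgroup G) : Dom τ P H E ↔ DomIn ρ U ⊥ H E := by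
  unfold Dom DomIn
  simp only [occ_iff hτ hP]

include hτ hP in
lemma free_iff : Fre τ P ↔ FreeIn ρ U ⊥ := by
  unfold Fre FreeIn
  simp only [occ_iff hτ hP]

include hτ hP in
/-- **Group actions and vectors with a property.** -/
theorem main [Finite G] (hU : ∀ g, ∀ u ∈ U, ρ g u ∈ U) :
    (∀ (H : Subgroup G) (ι : Type) (E : ι → Subgroup G), Dom τ P H E →
      (∀ j, NoInv τ P (E j)) → NoInv τ P H) ∧
    Criteria (NoInv τ P) ∧ Sieve (NoInv τ P) ∧
    (∀ (n k : ℕ) (e : Perm (Fin n) →* G), 2 ≤ k → (k - 1) ^ 2 < n →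
      (NoInv τ P ⊥ ↔ NoInv τ P ((symSub n k).map e) ∧ NoAlt τ P e k)) ∧
    (¬ NoInv τ P ⊥ → (∀ D : Subgroup G, (Nat.card D).Prime → NoInv τ P D) →
      Fre τ P ∧ CyclicSubgroups G) := by
  have hN : ∀ g, ∀ z ∈ (⊥ : Submodule ℚ M), ρ g z ∈ (⊥ : Submodule ℚ M) := by
    intro g z hz
    rw [Submodule.mem_bot] at hz ⊢
    rw [hz, map_zero]
  have hE : ∀ H : Subgroup G, NoInv τ P H ↔ Vanish ρ U ⊥ H := fun H =>
    (noInv_iff hτ hP H).trans (vinv_iff hU H)
  have hmain := Van.main (τ := ρ) (U := U) (N := ⊥) hU hN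
  simp only [← hE, ← dom_iff hτ hP, ← free_iff hτ hP] at hmain
  obtain ⟨m1, m2, m3, m4, m5, m6, m7, m8⟩ := hmain
  refine ⟨m1, ⟨m2, m3, m4, m5, m6, m7⟩, ?_, ?_, m8⟩
  · intro K ι R hK hR
    constructor
    · intro h1 D _ _
      exact mono _ _ bot_le h1
    · intro h1
      rw [m2 K hK]
      intro D hD
      by_cases h2 : ∀ j, ¬ R j ≤ D
      · exact h1 D hD h2
      · push Not at h2
        obtain ⟨j, hj⟩ := h2
        exact mono _ _ hj (hR j)
  · intro n k e hk hn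
    rw [noInv_iff hτ hP, noInv_iff hτ hP, alt_iff hU hN e hk hn]
    unfold NoAlt
    refine and_congr Iff.rfl (forall_congr' fun z => ?_)
    rw [hP, Submodule.mem_bot]
    refine forall_congr' fun _ => ?_
    have e1 : (∀ σ ∈ symSub n k, ρ (e σ) z = ((Perm.sign σ : ℤ) : ℚ) • z) ↔
        ∀ σ : Perm (Fin n), (∀ i : Fin n, k ≤ i.val → σ i = i) →
          τ (e σ) z = (Perm.sign σ : ℤ) • z := by
      refine forall_congr' fun σ => ?_
      rw [hτ, Int.cast_smul_eq_zsmul]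
      exact Iff.rfl
    rw [e1]

end Run7.h200.Pr
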