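import Pool.Agent.Run7.h192.AJ.Basic
import Pool.Agent.Run7.h200.CH
import Pool.Agent.Run7.h200.PMain
import Pool.Agent.Run7.h200.PAct

/-!
# Finite group actions and Abel–Jacobi maps
-/

set_option autoImplicit false

open CategoryTheory Equiv

universe u v w x

namespace Run7.h200.AJG

open Pool.Agent.H914 Pool.Agent.H914.VarClass Pool.Agent.H914.VarClass.Obj Pool.Agent.R903
open Run7.h200.Van Run7.h200.CH Pool.Agent.Run7.h192.AJ Run7.h200.Pr

variable {k : Type u} [Field k] {𝒱 : VarClass k} {C : ChowTheory.{u, v} 𝒱}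
  {W : WeilTheory.{u, v, w} C} {A : AJMap.{u, v, w, x} W} {X : 𝒱.Obj} {G : Type} [Group G]

/-- the kernel of the Abel–Jacobi map -/
def kerAJ (hA : A.Formal) (X : 𝒱.Obj) (i : ℕ) : Submodule ℚ (C.CH X) where
  carrier := {z | A.Ker i z}
  zero_mem' := by
    have h0 : HomTriv W i (0 : C.CH X) := ⟨(C.gr X i).zero_mem, map_zero _⟩
    have h1 := hA.weight X X i i 0 ⟨X.dim, rfl, (C.gr (X.prod X) X.dim).zero_mem⟩
      (fun l _ a _ => by
        rw [W.act_zero, LinearMap.zero_apply]) 0 h0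
    rwa [map_zero] at h1
  add_mem' := by
    rintro a b ⟨ha, ha'⟩ ⟨hb, hb'⟩
    refine ⟨⟨(C.gr X i).add_mem ha.1 hb.1, by rw [map_add, ha.2, hb.2, add_zero]⟩, ?_⟩
    rw [hA.add X i a b ha hb, ha', hb', add_zero]
  smul_mem' := by
    intro q z hz
    have h1 := hA.natural X X i i (q • C.diagC X)
      ⟨X.dim, rfl, (C.gr (X.prod X) X.dim).smul_mem q (C.diagC_mem X)⟩ z hz
    have h2 : C.act (q • C.diagC X) z = q • z := by
      rw [C.act_smul, LinearMap.smul_apply, C.act_diagC]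
    rwa [h2] at h1

lemma stableAJ (hA : A.Formal) (a : G →* Aut X) (i : ℕ) (g : G) :
    ∀ z ∈ kerAJ hA X i, rep C a g z ∈ kerAJ hA X i := by
  intro z hz
  rw [rep_apply]
  have h1 := hA.natural X X i i (C.cograph (a g).inv) ⟨X.dim, rfl, C.cograph_mem _⟩ z hz
  rwa [C.act_cograph] at h1

lemma inj_bot (a : G →* Aut X) (i : ℕ) : NoInv (actCH C a) (A.Ker i) ⊥ ↔ A.Injective X i := by
  constructor
  · intro h1 z hz
    refine h1 z hz fun g hg => ?_
    rw [Subgroup.mem_bot] at hg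
    have h2 : actCH C a g z = rep C a g z := rfl
    rw [h2, hg, map_one]
    rfl
  · intro h1 z hz _
    exact h1 z hz

end Run7.h200.AJG
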