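import Pool.Agent.Run7.h200.Van

/-!
# Two-sided ideals of the rational group ring: the abstract theorem
-/

set_option autoImplicit false

open Finset

namespace Run7.h200.Idl

open Pool.Agent.X252.GA Pool.Agent.X310.Mu Run7.h200.HT Run7.h200.Col Run7.h200.Van

variable {G : Type} [Group G]

/-- The element `x` of the group ring acts as zero on the representation. -/
def Kills {S : Type} [AddCommGroup S] [Module ℚ S] (σ : G →* Module.End ℚ S)
    (x : MonoidAlgebra ℚ G) : Prop := ring σ x = 0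

variable [Fintype G] (I : Ideal (MonoidAlgebra ℚ G)) (hI : ∀ x ∈ I, ∀ y, x * y ∈ I)

lemma nA_bot : nA (⊥ : Subgroup G) = 1 := by
  classical
  unfold nA
  have : (Finset.univ.filter fun g : G => g ∈ (⊥ : Subgroup G)) = {1} := by
    ext g
    simp [Subgroup.mem_bot]
  rw [this, Finset.sum_singleton, MonoidAlgebra.one_def]

lemma nA_up {H : Subgroup G} (h : nA (⊥ : Subgroup G) ∈ I) : nA H ∈ I := by
  rw [nA_bot] at h
  have h1 := I.mul_mem_left (nA H) h
  rwa [mul_one] at h1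

include hI in
/-- **Domination**, restricted to the representations which are killed by the ideal. -/
theorem dom {ι : Type} {H : Subgroup G} {E : ι → Subgroup G}
    (hdom : ∀ (S : Type) [AddCommGroup S] [Module ℚ S] (σ : G →* Module.End ℚ S), Irr σ →
      (∀ x ∈ I, Kills σ x) → (∃ v : S, v ≠ 0 ∧ ∀ h ∈ H, σ h v = v) →
        ∃ j, ∃ v : S, v ≠ 0 ∧ ∀ d ∈ E j, σ d v = v)
    (h : ∀ i, nA (E i) ∈ I) : nA H ∈ I := by
  refine mem_of_dominatedOn (H := H) (D := E) (fun S _ _ σ => ∀ x ∈ I, Kills σ x) ?_ I hI h ?_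
  · intro S _ _ σ hσ ho hv
    exact hdom S σ hσ ho hv
  · intro S _ x hx
    apply LinearMap.ext
    intro v
    have h1 : ∀ y : MonoidAlgebra ℚ G, ring (repOf (G := G) S) y v = y • v := by
      intro y
      induction y using MonoidAlgebra.induction_linear with
      | zero => rw [map_zero, zero_smul]; rfl
      | add f g hf hg => rw [map_add, add_smul, LinearMap.add_apply, hf, hg]
      | single g r =>
        rw [ring_single, LinearMap.smul_apply, repOf_apply]
        have h2 : (MonoidAlgebra.single g r : MonoidAlgebra ℚ G) =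
            r • MonoidAlgebra.single g (1 : ℚ) := by
          rw [MonoidAlgebra.smul_single, smul_eq_mul, mul_one]
        rw [h2, smul_assoc]
    rw [h1, LinearMap.zero_apply]
    apply Subtype.ext
    obtain ⟨b, hb⟩ := Submodule.Quotient.mk_surjective I v.1
    change x • v.1 = 0
    rw [← hb, ← Submodule.Quotient.mk_smul, smul_eq_mul, Submodule.Quotient.mk_eq_zero]
    exact hI _ hx b

include hI in
/-- **The abstract theorem for ideals.** -/
theorem main :
    (∀ (H : Subgroup G) (ι : Type) (E : ι → Subgroup G),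
      (∀ (S : Type) [AddCommGroup S] [Module ℚ S] (σ : G →* Module.End ℚ S), Irr σ →
        (∀ x ∈ I, Kills σ x) → (∃ v : S, v ≠ 0 ∧ ∀ h ∈ H, σ h v = v) →
          ∃ j, ∃ v : S, v ≠ 0 ∧ ∀ d ∈ E j, σ d v = v) →
      (∀ i, nA (E i) ∈ I) → nA H ∈ I) ∧
    (∀ K : Subgroup G, (∀ x ∈ K, ∀ y ∈ K, x * y = y * x) →
      (nA (⊥ : Subgroup G) ∈ I ↔ ∀ C : Subgroup G, CyclicQuotient K C → nA C ∈ I)) ∧
    (∀ (ι : Type) (E : ι → Subgroup G) (K : Subgroup G), Partitions K E →
      (nA (⊥ : Subgroup G) ∈ I ↔ ∀ i, nA (E i) ∈ I)) ∧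
    (∀ c : G, c * c = 1 → (nA (⊥ : Subgroup G) ∈ I ↔
      nA (Subgroup.zpowers c) ∈ I ∧ nA (commSub c) ∈ I)) ∧
    (∀ c : G, InSimple c → c ≠ 1 → c * c = 1 →
      (nA (⊥ : Subgroup G) ∈ I ↔ nA (Subgroup.zpowers c) ∈ I)) ∧
    (∀ (n k : ℕ) (e : alternatingGroup (Fin n) →* G), 2 ≤ k → (k - 1) ^ 2 < n →
      (nA (⊥ : Subgroup G) ∈ I ↔ nA ((altSub n k).map e) ∈ I)) ∧
    (∀ (n k : ℕ) (e : alternatingGroup (Fin n) →* G), 2 ≤ k → k ≤ n →
      (nA (⊥ : Subgroup G) ∈ I ↔ nA ((altSub n k).map e) ∈ I ∧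
        nA ((classSub n (k - 1)).map e) ∈ I)) ∧
    (nA (⊥ : Subgroup G) ∉ I → (∀ P : Subgroup G, (Nat.card P).Prime → nA P ∈ I) →
      (∃ (S : Type) (_ : AddCommGroup S) (_ : Module ℚ S) (σ : G →* Module.End ℚ S), Irr σ ∧
        (∀ x ∈ I, Kills σ x) ∧ (∃ v : S, v ≠ 0) ∧
        ∀ g : G, g ≠ 1 → ∀ v : S, σ g v = v → v = 0) ∧ CyclicSubgroups G) := by
  have hdown : ∀ (ι : Type) (E : ι → Subgroup G), Dominated (⊥ : Subgroup G) E →
      (∀ i, nA (E i) ∈ I) → nA (⊥ : Subgroup G) ∈ I :=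
    fun ι E hE h => mem_of_dominated hE I hI h
  refine ⟨?_, ?_, ?_, ?_, ?_, ?_, ?_, ?_⟩
  · intro H ι E hE h
    exact dom I hI hE h
  · intro K hK
    exact ⟨fun h C _ => nA_up I h,
      fun h => hdown _ _ (GB.dominated_abelian K hK ⊥) fun C => h C.1 C.2⟩
  · rintro ι E K ⟨hfin, hι, hle, hpart⟩
    exact ⟨fun h j => nA_up I h, hdown _ _ (dominated_partition E K hι hle hpart ⊥)⟩
  · intro c hc
    refine ⟨fun h => ⟨nA_up I h, nA_up I h⟩, fun h => hdown _ _ (dominated_two hc ⊥) ?_⟩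
    intro b
    cases b
    · exact h.2
    · exact h.1
  · rintro c ⟨S, hS1, hS, hcS⟩ hc1 hc
    exact ⟨nA_up I, fun h => hdown _ _ (dominated_comms hc (comms_of_simple S hS hcS hc1) ⊥)
      fun _ => h⟩
  · intro n k e hk hn
    exact ⟨nA_up I, fun h => hdown _ _ (dominated_alt hk hn e ⊥) fun _ => h⟩
  · intro n k e hk hkn
    refine ⟨fun h => ⟨nA_up I h, nA_up I h⟩,
      fun h => hdown _ _ (dominated_pair hk hkn e ⊥) ?_⟩
    intro b
    cases b
    · exact h.2
    · exact h.1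
  · intro h0 hP
    rw [nA_bot] at h0
    obtain ⟨-, -, k2, k3, k4⟩ := structure_of_ideal I hI h0 hP
    refine ⟨?_, k2, k3, k4⟩
    by_contra hcon
    apply h0
    rw [← nA_bot]
    refine dom I hI (E := fun P : {P : Subgroup G // (Nat.card P).Prime} => P.1) ?_
      fun P => hP P.1 P.2
    intro S _ _ σ hσ ho hv
    obtain ⟨v, hv0, -⟩ := hv
    by_contra hno
    push Not at hno
    apply hcon
    refine ⟨S, _, _, σ, hσ, ho, ⟨v, hv0⟩, fun g hg w hw => ?_⟩
    obtain ⟨P, hPp, hPg⟩ := Pool.Agent.X328.PB.card_zpowers_prime hg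
    by_contra hw0
    obtain ⟨d, hd, hd'⟩ := hno ⟨P, hPp⟩ w hw0
    exact hd' (fixed_zpow σ hw d (hPg hd))

end Run7.h200.Idl
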