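import Pool.Agent.Run7.h200.GBDefs

/-!
# Abelian subgroups: the subgroups with cyclic quotient dominate
-/

set_option autoImplicit false

open Finset

namespace Run7.h200.GB

open Pool.Agent.X252.GA

variable {G : Type} [Group G]

lemma exists_sub {K : Type} [CommGroup K] [Finite K] {V : Type} [AddCommGroup V] [Module ℚ V]
    (ρ : K →* Module.End ℚ V) {v : V} (hv : v ≠ 0) :
    ∃ H : Subgroup K, (∃ g : K, ∀ k : K, ∃ n : ℤ, g ^ n * k ∈ H) ∧
      ∃ u : V, u ≠ 0 ∧ ∀ h ∈ H, ρ h u = u := by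
  classical
  let A := MonoidAlgebra ℚ K
  have : Module.Finite ℚ A := inferInstance
  have hN : IsNoetherianRing A := IsNoetherianRing.of_finite ℚ A
  let φ : A →+* Module.End ℚ V := (MonoidAlgebra.lift ℚ (Module.End ℚ V) K ρ).toRingHom
  let _ : Module A V := Module.compHom V φ
  have hsm : ∀ (x : A) (w : V), x • w = φ x w := fun _ _ => rfl
  obtain ⟨P, hP, -⟩ := exists_le_isAssociatedPrime_of_isNoetherianRing (R := A) v hv
  have hPp : P.IsPrime := hP.isPrime
  obtain ⟨-, u, hu⟩ := isAssociatedPrime_iff.1 hP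
  have hφ : ∀ k : K, φ (MonoidAlgebra.of ℚ K k) = ρ k := by
    intro k
    change MonoidAlgebra.lift ℚ (Module.End ℚ V) K ρ (MonoidAlgebra.of ℚ K k) = ρ k
    rw [MonoidAlgebra.lift_of]
  have hmem : ∀ x : A, x ∈ P ↔ φ x u = 0 := by
    intro x
    rw [hu, Submodule.mem_colon_singleton, Submodule.mem_bot]
    rfl
  have hu0 : u ≠ 0 := by
    intro h0
    apply hPp.ne_top
    rw [Ideal.eq_top_iff_one, hmem, h0, map_zero]
  have : IsDomain (A ⧸ P) := Ideal.Quotient.isDomain P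
  let f : K →* (A ⧸ P)ˣ := ((Ideal.Quotient.mk P).toMonoidHom.comp (MonoidAlgebra.of ℚ K)).toHomUnits
  have : Finite f.range := Set.finite_range f
  have hcyc : IsCyclic f.range := isCyclic_subgroup_units f.range
  obtain ⟨⟨_, g, rfl⟩, hg⟩ := hcyc.exists_generator
  refine ⟨f.ker, ⟨g, fun k => ?_⟩, u, hu0, ?_⟩
  · obtain ⟨n, hn⟩ := hg ⟨f k, k, rfl⟩
    refine ⟨-n, ?_⟩
    rw [MonoidHom.mem_ker, map_mul, map_zpow, zpow_neg]
    have : (f g) ^ n = f k := congrArg Subtype.val hn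
    rw [this, inv_mul_cancel]
  · intro h hh
    rw [MonoidHom.mem_ker] at hh
    have h1 : Ideal.Quotient.mk P (MonoidAlgebra.of ℚ K h) = Ideal.Quotient.mk P 1 := by
      have := congrArg Units.val hh
      exact this.trans (map_one _).symm
    rw [Ideal.Quotient.eq, hmem, map_sub, map_one, LinearMap.sub_apply, hφ,
      Module.End.one_apply, sub_eq_zero] at h1
    exact h1

/-- A vector of a representation can be moved to one which is fixed by a subgroup of the
commutative subgroup `K` with cyclic quotient. -/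
lemma exists_cyclicQuotient [Finite G] {V : Type} [AddCommGroup V] [Module ℚ V]
    (ρ : G →* Module.End ℚ V) (K : Subgroup G) (hK : ∀ x ∈ K, ∀ y ∈ K, x * y = y * x) {v : V}
    (hv : v ≠ 0) : ∃ H : Subgroup G, CyclicQuotient K H ∧ ∃ u : V, u ≠ 0 ∧ ∀ h ∈ H, ρ h u = u := by
  let _ : CommGroup K := { (inferInstance : Group K) with
    mul_comm := fun x y => Subtype.ext (hK x.1 x.2 y.1 y.2) }
  obtain ⟨H, ⟨g, hg⟩, u, hu, hf⟩ := exists_sub (K := K) (ρ.comp K.subtype) hv
  refine ⟨H.map K.subtype, ⟨?_, g.1, g.2, ?_⟩, u, hu, ?_⟩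
  · rintro _ ⟨x, -, rfl⟩
    exact x.2
  · intro k hk
    obtain ⟨n, hn⟩ := hg ⟨k, hk⟩
    refine ⟨n, _, hn, ?_⟩
    rfl
  · rintro _ ⟨x, hx, rfl⟩
    exact hf x hx

/-- The subgroups `H` of a commutative subgroup `K` such that `K/H` is cyclic dominate. -/
lemma dominated_abelian [Finite G] (K : Subgroup G) (hK : ∀ x ∈ K, ∀ y ∈ K, x * y = y * x)
    (H : Subgroup G) :
    Dominated H (fun C : {C : Subgroup G // CyclicQuotient K C} => C.1) := by
  intro V _ _ ρ _ hv
  obtain ⟨v, hv0, -⟩ := hv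
  obtain ⟨C, hC, u, hu, hf⟩ := exists_cyclicQuotient ρ K hK hv0
  exact ⟨⟨C, hC⟩, u, hu, hf⟩

end Run7.h200.GB
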