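import Pool.Agent.Run7.h200.Col

/-!
# Vectors fixed by small alternating groups

Every nonzero rational representation of the symmetric group of a set with more than `(k - 1) ^ 2`
elements has a nonzero vector which is symmetric or antisymmetric in `k` letters.
-/

set_option autoImplicit false

open Finset Equiv

namespace Run7.h200.Col

section asym

variable {Ω : Type} [Fintype Ω] [DecidableEq Ω]
  {M : Type*} [AddCommGroup M] [Module ℚ M] (ρ : Perm Ω →* Module.End ℚ M)

/-- The permutations which fix the points outside `T`. -/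
def stab (T : Finset Ω) : Finset (Perm Ω) := univ.filter fun σ => ∀ w, w ∉ T → σ w = w

lemma mem_stab {T : Finset Ω} {σ : Perm Ω} : σ ∈ stab T ↔ ∀ w, w ∉ T → σ w = w := by
  simp [stab]

/-- The sign as a rational number. -/
def sg (σ : Perm Ω) : ℚ := ((Perm.sign σ : ℤˣ) : ℤ)

lemma sg_mul (σ τ : Perm Ω) : sg (σ * τ) = sg σ * sg τ := by
  simp [sg, Perm.sign_mul]

lemma sg_swap {a b : Ω} (h : a ≠ b) : sg (swap a b) = -1 := by
  simp [sg, Perm.sign_swap h]

lemma sg_one : sg (1 : Perm Ω) = 1 := by simp [sg]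

/-- Antisymmetrisation over the letters in `T`. -/
noncomputable def asym (T : Finset Ω) (x : M) : M := ∑ σ ∈ stab T, sg σ • ρ σ x

lemma asym_empty (x : M) : asym ρ ∅ x = x := by
  have h : stab (∅ : Finset Ω) = {1} := by
    ext σ
    rw [mem_stab, Finset.mem_singleton]
    constructor
    · intro h
      ext w
      rw [h w (Finset.notMem_empty w)]
      rfl
    · rintro rfl w _
      rfl
  rw [asym, h, Finset.sum_singleton, sg_one, map_one, one_smul]
  rfl

lemma asym_add (T : Finset Ω) (x y : M) : asym ρ T (x + y) = asym ρ T x + asym ρ T y := by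
  simp only [asym, map_add, smul_add, Finset.sum_add_distrib]

lemma asym_smul (T : Finset Ω) (r : ℚ) (x : M) : asym ρ T (r • x) = r • asym ρ T x := by
  simp only [asym, map_smul, Finset.smul_sum]
  exact Finset.sum_congr rfl fun σ _ => smul_comm _ _ _

lemma asym_sum (T : Finset Ω) {κ : Type*} (s : Finset κ) (f : κ → M) :
    asym ρ T (∑ i ∈ s, f i) = ∑ i ∈ s, asym ρ T (f i) := by
  simp only [asym, map_sum, Finset.smul_sum]
  rw [Finset.sum_comm]

lemma asym_swap {T : Finset Ω} {a b : Ω} (ha : a ∈ T) (hb : b ∈ T) (hab : a ≠ b) (x : M) :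
    ρ (swap a b) (asym ρ T x) = - asym ρ T x := by
  have h1 : asym ρ T x = ∑ σ ∈ stab T, sg (swap a b * σ) • ρ (swap a b * σ) x := by
    unfold asym
    refine Finset.sum_bij' (fun σ _ => swap a b * σ) (fun σ _ => swap a b * σ) ?_ ?_ ?_ ?_ ?_
    · intro σ hσ
      rw [mem_stab] at hσ ⊢
      intro w hw
      rw [Perm.mul_apply, hσ w hw, swap_apply_of_ne_of_ne]
      · rintro rfl; exact hw ha
      · rintro rfl; exact hw hb
    · intro σ hσ
      rw [mem_stab] at hσ ⊢
      intro w hw
      rw [Perm.mul_apply, hσ w hw, swap_apply_of_ne_of_ne]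
      · rintro rfl; exact hw ha
      · rintro rfl; exact hw hb
    · intro σ _
      rw [← mul_assoc, swap_mul_self, one_mul]
    · intro σ _
      rw [← mul_assoc, swap_mul_self, one_mul]
    · intro σ _
      rw [← mul_assoc, swap_mul_self, one_mul]
  have h2 : ρ (swap a b) (asym ρ T x) = ∑ σ ∈ stab T, sg σ • ρ (swap a b * σ) x := by
    rw [asym, map_sum]
    refine Finset.sum_congr rfl fun σ _ => ?_
    rw [map_smul, rmul]
  rw [h2, h1, eq_neg_iff_add_eq_zero, ← Finset.sum_add_distrib]
  refine Finset.sum_eq_zero fun σ _ => ?_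
  rw [sg_mul, sg_swap hab, neg_one_mul, neg_smul, add_neg_cancel]

lemma asym_insert {T : Finset Ω} {t : Ω} (ht : t ∉ T) (x : M) :
    asym ρ (insert t T) x = asym ρ T (x + (-1 : ℚ) • ∑ s ∈ T, ρ (swap t s) x) := by
  have h1 : asym ρ T (x + (-1 : ℚ) • ∑ s ∈ T, ρ (swap t s) x) =
      ∑ j ∈ insert t T, ∑ σ ∈ stab T, sg (σ * swap t j) • ρ (σ * swap t j) x := by
    rw [Finset.sum_insert ht, asym_add, asym_smul, asym_sum, swap_self]
    refine congrArg₂ (· + ·) ?_ ?_
    · unfold asym
      refine Finset.sum_congr rfl fun σ _ => ?_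
      rw [show (Equiv.refl Ω : Perm Ω) = 1 from rfl, mul_one]
    · rw [Finset.smul_sum]
      refine Finset.sum_congr rfl fun s hs => ?_
      have hts : t ≠ s := by
        rintro rfl
        exact ht hs
      unfold asym
      rw [Finset.smul_sum]
      refine Finset.sum_congr rfl fun σ _ => ?_
      rw [sg_mul, sg_swap hts, rmul, smul_smul]
      congr 1
      ring
  have hap : ∀ τ : Perm Ω, τ (τ⁻¹ t) = t := fun τ => τ.apply_symm_apply t
  rw [h1, ← Finset.sum_product']
  unfold asym
  refine Finset.sum_bij' (fun τ _ => (τ⁻¹ t, τ * swap t (τ⁻¹ t)))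
    (fun p _ => p.2 * swap t p.1) ?_ ?_ ?_ ?_ ?_
  · intro τ hτ
    rw [mem_stab] at hτ
    rw [Finset.mem_product]
    constructor
    · by_contra hcon
      have h2 := hτ _ hcon
      rw [hap] at h2
      apply hcon
      rw [← h2]
      exact Finset.mem_insert_self t T
    · rw [mem_stab]
      intro w hw
      rcases eq_or_ne w t with h | h
      · subst h
        rw [Perm.mul_apply, swap_apply_left, hap]
      · have hwi : w ∉ insert t T := by
          rw [Finset.mem_insert]
          tauto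
        have hwj : w ≠ τ⁻¹ t := by
          rintro rfl
          have h2 := hτ _ hwi
          rw [hap] at h2
          exact h h2.symm
        rw [Perm.mul_apply, swap_apply_of_ne_of_ne h hwj, hτ w hwi]
  · rintro ⟨j, σ⟩ hp
    rw [Finset.mem_product] at hp
    obtain ⟨hj, hσ⟩ := hp
    rw [mem_stab] at hσ ⊢
    intro w hw
    have hwt : w ≠ t := by
      rintro rfl
      exact hw (Finset.mem_insert_self _ _)
    have hwj : w ≠ j := by
      rintro rfl
      exact hw hj
    rw [Perm.mul_apply, swap_apply_of_ne_of_ne hwt hwj]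
    exact hσ w fun h => hw (Finset.mem_insert_of_mem h)
  · intro τ _
    rw [mul_assoc, swap_mul_self, mul_one]
  · rintro ⟨j, σ⟩ hp
    rw [Finset.mem_product] at hp
    obtain ⟨hj, hσ⟩ := hp
    rw [mem_stab] at hσ
    have h3 : σ t = t := hσ t ht
    have h4 : (σ * swap t j)⁻¹ t = j := by
      rw [Perm.inv_eq_iff_eq, Perm.mul_apply, swap_apply_right, h3]
    change ((σ * swap t j)⁻¹ t, σ * swap t j * swap t ((σ * swap t j)⁻¹ t)) = (j, σ)
    rw [h4, mul_assoc, swap_mul_self, mul_one]
  · intro τ _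
    rw [mul_assoc, swap_mul_self, mul_one]

/-- A chain of classes: one letter of each class. -/
theorem chain {I : Type*} [DecidableEq I] (A : I → Finset Ω) (J : Finset I)
    (hdis : ∀ i ∈ J, ∀ j ∈ J, i ≠ j → Disjoint (A i) (A j)) (hne : ∀ i ∈ J, (A i).Nonempty)
    {x : M} (hx : x ≠ 0)
    (hrel : ∀ i ∈ J, ∀ j ∈ J, i ≠ j → (A j).card ≤ (A i).card → ∀ s ∈ A j,
      ∑ t ∈ A i, ρ (swap t s) x = - x) :
    ∃ T : Finset Ω, T.card = J.card ∧ (∀ t ∈ T, ∃ i ∈ J, t ∈ A i) ∧ asym ρ T x ≠ 0 := by
  induction hn : J.card generalizing J with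
  | zero =>
    rw [Finset.card_eq_zero] at hn
    subst hn
    exact ⟨∅, rfl, by simp, by rwa [asym_empty]⟩
  | succ n ih =>
    have hJ : J.Nonempty := by
      rw [← Finset.card_pos]
      omega
    obtain ⟨i, hi, hmax⟩ := J.exists_max_image (fun i => (A i).card) hJ
    obtain ⟨T, hT, hTA, hTx⟩ := ih (J.erase i)
      (fun a ha b hb => hdis a (Finset.mem_of_mem_erase ha) b (Finset.mem_of_mem_erase hb))
      (fun a ha => hne a (Finset.mem_of_mem_erase ha))
      (fun a ha b hb => hrel a (Finset.mem_of_mem_erase ha) b (Finset.mem_of_mem_erase hb))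
      (by rw [Finset.card_erase_of_mem hi, hn]; rfl)
    have hTi : ∀ t ∈ A i, t ∉ T := by
      intro t ht htT
      obtain ⟨j, hj, htj⟩ := hTA t htT
      rw [Finset.mem_erase] at hj
      exact Finset.disjoint_left.1 (hdis i hi j hj.2 hj.1.symm) ht htj
    have h1 : ∑ t ∈ A i, asym ρ (insert t T) x = ((A i).card + T.card : ℚ) • asym ρ T x := by
      rw [Finset.sum_congr rfl fun t ht => asym_insert ρ (hTi t ht) x, ← asym_sum,
        Finset.sum_add_distrib, Finset.sum_const, ← Finset.smul_sum, Finset.sum_comm,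
        ← asym_smul]
      congr 1
      have h2 : ∀ s ∈ T, ∑ t ∈ A i, ρ (swap t s) x = -x := by
        intro s hs
        obtain ⟨j, hj, hsj⟩ := hTA s hs
        rw [Finset.mem_erase] at hj
        exact hrel i hi j hj.2 hj.1.symm (hmax j hj.2) s hsj
      rw [Finset.sum_congr rfl h2, Finset.sum_const, add_smul, ← Nat.cast_smul_eq_nsmul ℚ,
        ← Nat.cast_smul_eq_nsmul ℚ, smul_neg, smul_neg, neg_one_smul, neg_neg]
    have h2 : ((A i).card + T.card : ℚ) • asym ρ T x ≠ 0 := by
      have h3 : 0 < (A i).card := (hne i hi).card_pos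
      have h4 : (0 : ℚ) < (A i).card + T.card := by positivity
      exact smul_ne_zero h4.ne' hTx
    rw [← h1] at h2
    obtain ⟨t, ht, htx⟩ := Finset.exists_ne_zero_of_sum_ne_zero h2
    refine ⟨insert t T, ?_, ?_, htx⟩
    · rw [Finset.card_insert_of_notMem (hTi t ht), hT]
    · intro s hs
      rw [Finset.mem_insert] at hs
      rcases hs with rfl | hs
      · exact ⟨i, hi, ht⟩
      · obtain ⟨j, hj, hsj⟩ := hTA s hs
        exact ⟨j, Finset.mem_of_mem_erase hj, hsj⟩

end asym

section main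

variable {Ω : Type} [Fintype Ω] [DecidableEq Ω]
  {M : Type*} [AddCommGroup M] [Module ℚ M] (ρ : Perm Ω →* Module.End ℚ M)

/-- All colours are even. -/
abbrev one' : Ω → ℚ := fun _ => 1

lemma cnt_sq_lt {c : Ω → Ω} {i j : Ω} (hij : i ≠ j) (h : cnt c i ≤ cnt c j) {t : Ω}
    (ht : c t = i) : ∑ l, cnt c l ^ 2 < ∑ l, cnt (Function.update c t j) l ^ 2 := by
  rw [← Finset.add_sum_erase univ _ (Finset.mem_univ i),
    ← Finset.add_sum_erase univ (fun l => cnt (Function.update c t j) l ^ 2) (Finset.mem_univ i),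
    ← Finset.add_sum_erase (univ.erase i) _ (Finset.mem_erase.2 ⟨hij.symm, Finset.mem_univ j⟩),
    ← Finset.add_sum_erase (univ.erase i) (fun l => cnt (Function.update c t j) l ^ 2)
      (Finset.mem_erase.2 ⟨hij.symm, Finset.mem_univ j⟩)]
  have h1 : ∑ l ∈ (univ.erase i).erase j, cnt (Function.update c t j) l ^ 2 =
      ∑ l ∈ (univ.erase i).erase j, cnt c l ^ 2 := by
    refine Finset.sum_congr rfl fun l hl => ?_
    rw [Finset.mem_erase, Finset.mem_erase] at hl
    rw [cnt_update_third hl.2.1 hl.1 ht]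
  have h2 := cnt_update_same hij ht
  have h3 := cnt_update_other hij ht
  rw [h1, h3]
  set p := cnt (Function.update c t j) i
  rw [← h2]
  have h4 : p < cnt c j := by omega
  nlinarith [h4]

/-- A vector coloured by `c`, with as few and as large classes as possible. -/
theorem exists_extreme {x : M} (hx : x ≠ 0) : ∃ (c : Ω → Ω) (y : M), y ≠ 0 ∧
    Col ρ one' c y ∧ ∀ i j, i ≠ j → cnt c i ≤ cnt c j → ∀ s, c s = i →
      ∑ t ∈ univ.filter (fun t => c t = j), ρ (swap t s) y = - y := by
  classical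
  have hne : (univ.filter fun c : Ω → Ω => ∃ y : M, y ≠ 0 ∧ Col ρ one' c y).Nonempty := by
    refine ⟨id, ?_⟩
    simp only [mem_filter, mem_univ, true_and]
    exact ⟨x, hx, fun a b hab h => absurd h hab⟩
  obtain ⟨c, hc, hmax⟩ := Finset.exists_max_image _ (fun c : Ω → Ω => ∑ l, cnt c l ^ 2) hne
  simp only [mem_filter, mem_univ, true_and] at hc hmax
  obtain ⟨y, hy0, hy⟩ := hc
  refine ⟨c, y, hy0, hy, ?_⟩
  intro i j hij hle s hs
  have h1 := col_sym ρ (fun _ => one_mul (1 : ℚ)) hy hij rfl hs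
  by_contra hcon
  have h2 : sym ρ (one' i) (univ.filter fun t => c t = j) s y ≠ 0 := by
    intro h
    apply hcon
    rw [sym, one_smul] at h
    exact (neg_eq_of_add_eq_zero_right h).symm
  have h3 := hmax _ ⟨_, h2, h1⟩
  have h4 := cnt_sq_lt hij hle hs
  omega

/-- The even permutations of the letters in `T`. -/
def altOn (T : Finset Ω) : Subgroup (Perm Ω) where
  carrier := {σ | Perm.sign σ = 1 ∧ ∀ w, w ∉ T → σ w = w}
  mul_mem' := by
    rintro σ τ ⟨h1, h2⟩ ⟨h3, h4⟩
    refine ⟨by rw [Perm.sign_mul, h1, h3, one_mul], fun w hw => ?_⟩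
    rw [Perm.mul_apply, h4 w hw, h2 w hw]
  one_mem' := ⟨Perm.sign_one, fun _ _ => rfl⟩
  inv_mem' := by
    rintro σ ⟨h1, h2⟩
    refine ⟨by rw [Perm.sign_inv, h1], fun w hw => ?_⟩
    rw [Perm.inv_eq_iff_eq, h2 w hw]

/-- The permutations of the letters in `T`. -/
def symOn (T : Finset Ω) : Subgroup (Perm Ω) where
  carrier := {σ | ∀ w, w ∉ T → σ w = w}
  mul_mem' := by
    intro σ τ h2 h4 w hw
    rw [Perm.mul_apply, h4 w hw, h2 w hw]
  one_mem' := fun _ _ => rfl
  inv_mem' := by
    intro σ h2 w hw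
    rw [Perm.inv_eq_iff_eq, h2 w hw]

end main

end Run7.h200.Col
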