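import Mathlib

/-!
# Representations of finite groups: the notions used in the statements
-/

set_option autoImplicit false

open Equiv

namespace Run7.h200.Van

/-- The subspaces of the rational representation `ρ` which are stable under the group are `0` and
the whole space. -/
def Irr {G V : Type} [Group G] [AddCommGroup V] [Module ℚ V] (ρ : G →* Module.End ℚ V) : Prop :=
  ∀ U : Submodule ℚ V, (∀ g, ∀ u ∈ U, ρ g u ∈ U) → U = ⊥ ∨ U = ⊤

/-- The subgroup `[G, c]` generated by the commutators `g c g⁻¹ c⁻¹`. -/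
def commSub {G : Type} [Group G] (c : G) : Subgroup G :=
  Subgroup.closure {x | ∃ g : G, x = g * c * g⁻¹ * c⁻¹}

/-- `H ≤ K`, and the quotient `K/H` is cyclic. -/
def CyclicQuotient {G : Type} [Group G] (K H : Subgroup G) : Prop :=
  H ≤ K ∧ ∃ g ∈ K, ∀ k ∈ K, ∃ n : ℤ, g ^ n * k ∈ H

/-- `c` is contained in a nonabelian simple subgroup. -/
def InSimple {G : Type} [Group G] (c : G) : Prop :=
  ∃ S : Subgroup G, IsSimpleGroup S ∧ (∃ x y : S, x * y ≠ y * x) ∧ c ∈ S

/-- The subgroups `D j`, finitely many but at least two, are contained in `K` and every element of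
`K` different from one is contained in exactly one of them. -/
def Partitions {G ι : Type} [Group G] (K : Subgroup G) (D : ι → Subgroup G) : Prop :=
  Finite ι ∧ 2 ≤ Nat.card ι ∧ (∀ j, D j ≤ K) ∧ ∀ g ∈ K, g ≠ 1 → ∃! j, g ∈ D j

/-- The subgroups whose order is the product of two prime numbers and the commutative subgroups
are cyclic, and there is at most one element of order two. -/
def CyclicSubgroups (G : Type) [Group G] : Prop :=
  (∀ (K : Subgroup G) (p q : ℕ), p.Prime → q.Prime → Nat.card K = p * q → IsCyclic K) ∧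
    (∀ K : Subgroup G, (∀ x ∈ K, ∀ y ∈ K, x * y = y * x) → IsCyclic K) ∧
    ∀ σ τ : G, orderOf σ = 2 → orderOf τ = 2 → σ = τ

/-- The group `A_k` of the even permutations of the first `k` letters of `Fin n`, as a subgroup of
the alternating group: the other letters are fixed. -/
def altSub (n k : ℕ) : Subgroup (alternatingGroup (Fin n)) where
  carrier := {σ | ∀ i : Fin n, k ≤ i.val → σ.1 i = i}
  mul_mem' := by
    intro σ τ h2 h4 w hw
    change σ.1 (τ.1 w) = w
    rw [h4 w hw, h2 w hw]
  one_mem' := fun _ _ => rfl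
  inv_mem' := by
    intro σ h2 w hw
    change (σ.1)⁻¹ w = w
    rw [Perm.inv_eq_iff_eq, h2 w hw]

/-- The group of the even permutations of `Fin n` which preserve the residue classes modulo `m`
(these are `m` classes whose sizes differ by at most one). -/
def classSub (n m : ℕ) : Subgroup (alternatingGroup (Fin n)) where
  carrier := {σ | ∀ i : Fin n, (σ.1 i).val % m = i.val % m}
  mul_mem' := by
    intro σ τ h2 h4 w
    change (σ.1 (τ.1 w)).val % m = _
    rw [h2, h4]
  one_mem' := fun _ => rfl
  inv_mem' := by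
    intro σ h2 w
    change ((σ.1)⁻¹ w).val % m = _
    rw [← h2 ((σ.1)⁻¹ w)]
    congr 2
    exact (σ.1).apply_symm_apply w

section

variable {G : Type} [Group G] {M : Type*} [AddCommGroup M] [Module ℚ M]
  (τ : G →* Module.End ℚ M) (U N : Submodule ℚ M)

/-- The elements of `U` which are invariant under `H` modulo `N` are in `N`. -/
def Vanish (H : Subgroup G) : Prop := ∀ z ∈ U, (∀ h ∈ H, τ h z - z ∈ N) → z ∈ N

/-- The representation `σ` occurs in `U` modulo `N`. -/
def Occurs {S : Type} [AddCommGroup S] [Module ℚ S] (σ : G →* Module.End ℚ S) : Prop :=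
  ∃ f : S →+ M, (∀ s, f s ∈ U) ∧ (∀ g s, f (σ g s) = τ g (f s)) ∧ ∃ s, f s ∉ N

/-- Every irreducible rational representation of `G` which occurs in `U` modulo `N` and has a
nonzero vector fixed by `H` has for some `i` a nonzero vector fixed by `E i`. -/
def DomIn {ι : Type} (H : Subgroup G) (E : ι → Subgroup G) : Prop :=
  ∀ (S : Type) [AddCommGroup S] [Module ℚ S] (σ : G →* Module.End ℚ S), Irr σ →
    Occurs τ U N σ → (∃ v : S, v ≠ 0 ∧ ∀ h ∈ H, σ h v = v) →
      ∃ i, ∃ v : S, v ≠ 0 ∧ ∀ d ∈ E i, σ d v = v

/-- Some nonzero irreducible rational representation of `G` occurs in `U` modulo `N`, and the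
elements of `G` different from one fix only `0` in it. -/
def FreeIn : Prop :=
  ∃ (S : Type) (_ : AddCommGroup S) (_ : Module ℚ S) (σ : G →* Module.End ℚ S), Irr σ ∧
    Occurs τ U N σ ∧ (∃ v : S, v ≠ 0) ∧ ∀ g : G, g ≠ 1 → ∀ v : S, σ g v = v → v = 0

end

end Run7.h200.Van
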