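import Pool.Agent.Run7.h200.Alt
import Pool.Agent.Run7.h200.VanDefs

/-!
# Fixed vectors of subgroups of alternating groups
-/

set_option autoImplicit false

open Finset Equiv

namespace Run7.h200.Col

section fix

variable {Ω : Type} [Fintype Ω] [DecidableEq Ω]
  {M : Type*} [AddCommGroup M] [Module ℚ M] (ρ : Perm Ω →* Module.End ℚ M)

/-- From transpositions to permutations. -/
theorem perm_of_swap (χ : Perm Ω →* ℚ) (R : Ω → Ω → Prop) (hs : ∀ a b, R a b → R b a)
    (ht : ∀ a b c, R a b → R b c → R a c) {y : M}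
    (h : ∀ a b, a ≠ b → R a b → ρ (swap a b) y = χ (swap a b) • y) (σ : Perm Ω)
    (hσ : ∀ a, σ a ≠ a → R a (σ a)) : ρ σ y = χ σ • y := by
  induction hn : σ.support.card using Nat.strong_induction_on generalizing σ with
  | _ n ih =>
    by_cases h1 : ∀ a, σ a = a
    · have h2 : σ = 1 := Equiv.ext h1
      rw [h2, map_one, map_one, one_smul]
      rfl
    push Not at h1
    obtain ⟨a, ha⟩ := h1
    have h2 := Perm.card_support_swap_mul (f := σ) ha
    have haR := hσ a ha
    have h3 : ∀ b, (swap a (σ a) * σ) b ≠ b → R b ((swap a (σ a) * σ) b) := by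
      intro b hb
      rw [Perm.mul_apply] at hb ⊢
      rcases eq_or_ne (σ b) a with h | h
      · rw [h, swap_apply_left] at hb ⊢
        have hba : b ≠ a := by
          rintro rfl
          exact ha h
        have h4 : R b a := by
          have := hσ b (by rw [h]; exact hba.symm)
          rwa [h] at this
        exact ht _ _ _ h4 haR
      rcases eq_or_ne (σ b) (σ a) with h' | h'
      · have : b = a := σ.injective h'
        subst this
        rw [swap_apply_right] at hb
        exact absurd rfl hb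
      · rw [swap_apply_of_ne_of_ne h h'] at hb ⊢
        exact hσ b hb
    have h4 := ih _ (by rw [← hn]; exact h2) (swap a (σ a) * σ) h3 rfl
    have h5 : σ = swap a (σ a) * (swap a (σ a) * σ) := by
      rw [← mul_assoc, swap_mul_self, one_mul]
    calc ρ σ y = ρ (swap a (σ a)) (ρ (swap a (σ a) * σ) y) := by rw [← rmul, ← h5]
      _ = χ σ • y := by
        rw [h4, map_smul, h a (σ a) ha.symm haR, smul_smul, mul_comm, ← map_mul, ← h5]

/-- The sign as a homomorphism. -/
noncomputable def sgHom : Perm Ω →* ℚ where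
  toFun := sg
  map_one' := sg_one
  map_mul' := sg_mul

/-- The permutations preserving the classes of a colouring. -/
def young {I : Type*} (c : Ω → I) : Subgroup (Perm Ω) where
  carrier := {σ | ∀ i, c (σ i) = c i}
  mul_mem' := by
    intro σ τ h2 h4 w
    rw [Perm.mul_apply, h2, h4]
  one_mem' := fun _ => rfl
  inv_mem' := by
    intro σ h2 w
    rw [← h2 (σ⁻¹ w)]
    congr 1
    exact σ.apply_symm_apply w

lemma fixed_young {I : Type} [DecidableEq I] {c : Ω → I} {y : M}
    (h : Col ρ (fun _ => (1 : ℚ)) c y) {σ : Perm Ω} (hσ : σ ∈ young c) : ρ σ y = y := by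
  have h1 := perm_of_swap ρ (1 : Perm Ω →* ℚ) (fun a b => c a = c b) (fun _ _ => Eq.symm)
    (fun _ _ _ => Eq.trans) (y := y) (fun a b hab hc => h a b hab hc) σ
    (fun a _ => (hσ a).symm)
  rw [h1, MonoidHom.one_apply, one_smul]

lemma fixed_alt {T : Finset Ω} {y : M}
    (h : ∀ a ∈ T, ∀ b ∈ T, a ≠ b → ρ (swap a b) y = - y) {σ : Perm Ω}
    (hσ : σ ∈ symOn T) (hσ' : Perm.sign σ = 1) : ρ σ y = y := by
  have h1 := perm_of_swap ρ (sgHom : Perm Ω →* ℚ) (fun a b => a ∈ T ∧ b ∈ T)
    (fun _ _ => And.symm) (fun _ _ _ h h' => ⟨h.1, h'.2⟩) (y := y)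
    (fun a b hab hc => by
      rw [h a hc.1 b hc.2 hab]
      change -y = sg (swap a b) • y
      rw [sg_swap hab, neg_one_smul]) σ
    (fun a ha => by
      have h2 : ∀ w, w ∉ T → σ w = w := hσ
      have h3 : a ∈ T := by
        by_contra h3
        exact ha (h2 a h3)
      refine ⟨h3, ?_⟩
      by_contra h4
      exact ha (σ.injective (h2 _ h4)))
  rw [h1]
  change sg σ • y = y
  rw [sg, hσ']
  simp

end fix

section balanced

variable {Ω : Type} [Fintype Ω] [DecidableEq Ω]

/-- The sizes of the classes differ by at most one. -/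
def Bal {m : ℕ} (c : Ω → Fin m) : Prop := ∀ i j, cnt c i ≤ cnt c j + 1

lemma sum_cnt {m : ℕ} (c : Ω → Fin m) : ∑ i, cnt c i = Fintype.card Ω := by
  unfold cnt
  rw [← Finset.card_eq_sum_card_fiberwise (s := univ) (t := univ) (f := c)
    (fun _ _ => Finset.mem_coe.2 (Finset.mem_univ _))]
  rfl

lemma bal_range {m : ℕ} {c : Ω → Fin m} (hc : Bal c) (i : Fin m) :
    cnt c i = Fintype.card Ω / m ∨ cnt c i = Fintype.card Ω / m + 1 := by
  have hm : 0 < m := i.pos
  have h1 := sum_cnt c
  have h2 : ∑ j, (cnt c j + 1) = Fintype.card Ω + m := by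
    rw [Finset.sum_add_distrib, h1]
    simp
  have h3 : m * cnt c i ≤ ∑ j, (cnt c j + 1) := by
    calc m * cnt c i = ∑ _j : Fin m, cnt c i := by simp
      _ ≤ _ := Finset.sum_le_sum fun j _ => hc i j
  have h3' : m * cnt c i < ∑ j, (cnt c j + 1) := by
    refine lt_of_le_of_ne h3 ?_
    intro h
    have h4 : ∑ _j : Fin m, cnt c i < ∑ j, (cnt c j + 1) :=
      Finset.sum_lt_sum (fun j _ => hc i j) ⟨i, Finset.mem_univ i, Nat.lt_succ_self _⟩
    rw [← h] at h4
    simp at h4
  have h4 : ∑ j, cnt c j < m * (cnt c i + 1) := by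
    calc ∑ j, cnt c j < ∑ _j : Fin m, (cnt c i + 1) :=
          Finset.sum_lt_sum (fun j _ => hc j i) ⟨i, Finset.mem_univ i, Nat.lt_succ_self _⟩
      _ = _ := by simp
  rw [h1] at h4
  rw [h2] at h3'
  have h5 : Fintype.card Ω / m ≤ cnt c i := by
    by_contra hcon
    push Not at hcon
    have h6 : m * (cnt c i + 1) ≤ m * (Fintype.card Ω / m) := Nat.mul_le_mul_left m hcon
    have h7 := Nat.mul_div_le (Fintype.card Ω) m
    omega
  have h6 : cnt c i ≤ Fintype.card Ω / m + 1 := by
    by_contra hcon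
    push Not at hcon
    have h7 : m * (Fintype.card Ω / m + 2) ≤ m * cnt c i := Nat.mul_le_mul_left m hcon
    have h8 := Nat.lt_mul_div_succ (Fintype.card Ω) hm
    have h9 : m * (Fintype.card Ω / m + 2) = m * (Fintype.card Ω / m + 1) + m := by ring
    omega
  omega

lemma bal_card {m : ℕ} {c : Ω → Fin m} (hc : Bal c) :
    (univ.filter fun i => cnt c i = Fintype.card Ω / m + 1).card =
      Fintype.card Ω - m * (Fintype.card Ω / m) := by
  have h1 := sum_cnt c
  have h2 : ∑ i, cnt c i = ∑ i : Fin m, (Fintype.card Ω / m +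
      if cnt c i = Fintype.card Ω / m + 1 then 1 else 0) := by
    refine Finset.sum_congr rfl fun i _ => ?_
    rcases bal_range hc i with h | h
    · rw [if_neg (by omega), h, add_zero]
    · rw [if_pos h, h]
  rw [Finset.sum_add_distrib, Finset.sum_const, Finset.card_univ, Fintype.card_fin,
    smul_eq_mul, ← Finset.card_filter, h1] at h2
  omega

/-- Two balanced colourings are conjugate. -/
theorem bal_conj {m : ℕ} {c c' : Ω → Fin m} (hc : Bal c) (hc' : Bal c') :
    ∃ π : Perm Ω, ∀ a b, c' a = c' b → c (π a) = c (π b) := by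
  classical
  set q := Fintype.card Ω / m
  have e0 : Fintype.card {i // cnt c' i = q + 1} = Fintype.card {i // cnt c i = q + 1} := by
    rw [Fintype.card_subtype, Fintype.card_subtype, bal_card hc, bal_card hc']
  let e := Fintype.equivOfCardEq e0
  let τ : Perm (Fin m) := e.extendSubtype
  have hτ : ∀ i, cnt c' i = cnt c (τ i) := by
    intro i
    by_cases h : cnt c' i = q + 1
    · have h1 := e.extendSubtype_mem i h
      rw [h]
      exact h1.symm
    · have h1 := e.extendSubtype_not_mem i h
      have h2 : cnt c' i = q := by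
        rcases bal_range hc' i with h3 | h3
        · exact h3
        · exact absurd h3 h
      have h3 : cnt c (τ i) = q := by
        rcases bal_range hc (τ i) with h3 | h3
        · exact h3
        · exact absurd h3 h1
      rw [h2, h3]
  have e1 : ∀ i, Fintype.card {a // c' a = i} = Fintype.card {a // c a = τ i} := by
    intro i
    rw [Fintype.card_subtype, Fintype.card_subtype]
    exact hτ i
  let f : (Σ i, {a // c' a = i}) ≃ Σ j, {a // c a = j} :=
    Equiv.sigmaCongr τ fun i => Fintype.equivOfCardEq (e1 i)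
  let π : Perm Ω := (Equiv.sigmaFiberEquiv c').symm.trans (f.trans (Equiv.sigmaFiberEquiv c))
  have hπ : ∀ a, c (π a) = τ (c' a) := fun a => (f ⟨c' a, a, rfl⟩).2.2
  exact ⟨π, fun a b h => by rw [hπ, hπ, h]⟩

end balanced

section dich

variable {Ω : Type} [Fintype Ω] [DecidableEq Ω]
  {M : Type*} [AddCommGroup M] [Module ℚ M] (ρ : Perm Ω →* Module.End ℚ M)

/-- **Dichotomy.** Every nonzero representation has a nonzero vector which is antisymmetric in some
`m + 1` letters or symmetric for a balanced colouring with `m` colours. -/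
theorem dichotomy {x : M} (hx : x ≠ 0) {m : ℕ} (hm : 0 < m) :
    (∃ T : Finset Ω, T.card = m + 1 ∧ ∃ y : M, y ≠ 0 ∧
      ∀ a ∈ T, ∀ b ∈ T, a ≠ b → ρ (swap a b) y = - y) ∨
    ∃ c : Ω → Fin m, Bal c ∧ ∃ y : M, y ≠ 0 ∧ Col ρ (fun _ => (1 : ℚ)) c y := by
  classical
  obtain ⟨c, y, hy0, hy, hrel⟩ := exists_extreme ρ hx
  by_cases hk : m + 1 ≤ (univ.image c).card
  · left
    obtain ⟨J, hJ, hJc⟩ := Finset.exists_subset_card_eq hk
    have hA : ∀ i ∈ J, (univ.filter fun t => c t = i).Nonempty := by
      intro i hi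
      obtain ⟨a, -, ha⟩ := Finset.mem_image.1 (hJ hi)
      exact ⟨a, by simp [ha]⟩
    obtain ⟨T, hT, -, hTx⟩ := chain ρ (fun i => univ.filter fun t => c t = i) J
      (fun i _ j _ hij => by
        rw [Finset.disjoint_left]
        intro a ha ha'
        simp only [mem_filter, mem_univ, true_and] at ha ha'
        exact hij (ha.symm.trans ha')) hA hy0
      (fun i _ j _ hij hle s hs => by
        simp only [mem_filter, mem_univ, true_and] at hs
        exact hrel j i hij.symm hle s hs)
    exact ⟨T, by rw [hT, hJc], _, hTx, fun a ha b hb hab => asym_swap ρ ha hb hab y⟩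
  · right
    push Not at hk
    have hne : Nonempty (Fin m) := ⟨⟨0, hm⟩⟩
    have h1 : Fintype.card (univ.image c) ≤ Fintype.card (Fin m) := by
      rw [Fintype.card_coe, Fintype.card_fin]
      omega
    obtain ⟨f⟩ := Function.Embedding.nonempty_of_card_le h1
    let d : Ω → Fin m := fun a => f ⟨c a, Finset.mem_image_of_mem c (Finset.mem_univ a)⟩
    have hd : Col ρ (fun _ => (1 : ℚ)) d y := by
      intro a b hab hab'
      have h2 := f.injective hab'
      rw [Subtype.mk.injEq] at h2
      exact hy a b hab h2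
    obtain ⟨c', hc', z, hz0, hz⟩ := balance ρ (fun _ => one_mul (1 : ℚ)) hy0 hd
    exact ⟨c', fun i j => hc' i j rfl, z, hz0, hz⟩

/-- Antisymmetric or symmetric in `k` given letters, if there are more than `(k - 1) ^ 2` letters. -/
theorem dichotomy_sq {x : M} (hx : x ≠ 0) {T : Finset Ω} {m : ℕ} (hT : T.card = m + 1)
    (hm0 : 0 < m) (hm : m ^ 2 < Fintype.card Ω) :
    ∃ y : M, y ≠ 0 ∧ ∀ σ ∈ symOn T, Perm.sign σ = 1 → ρ σ y = y := by
  classical
  have hconj : ∀ T' : Finset Ω, T'.card = m + 1 →
      (∃ y : M, y ≠ 0 ∧ ∀ σ ∈ symOn T', Perm.sign σ = 1 → ρ σ y = y) →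
      ∃ y : M, y ≠ 0 ∧ ∀ σ ∈ symOn T, Perm.sign σ = 1 → ρ σ y = y := by
    rintro T' hT' ⟨y, hy0, hy⟩
    have e0 : Fintype.card {a // a ∈ T'} = Fintype.card {a // a ∈ T} := by
      rw [Fintype.card_coe, Fintype.card_coe, hT, hT']
    let π : Perm Ω := (Fintype.equivOfCardEq e0).extendSubtype
    have hπ1 : ∀ a, a ∉ T' → π a ∉ T := fun a ha =>
      (Fintype.equivOfCardEq e0).extendSubtype_not_mem a ha
    refine ⟨ρ π y, ?_, ?_⟩
    · intro h
      apply hy0
      have h1 : ρ π⁻¹ (ρ π y) = y := by
        rw [← rmul, inv_mul_cancel, map_one]; rfl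
      rw [← h1, h, map_zero]
    · intro σ hσ hs
      have h1 : ρ (π⁻¹ * σ * π) y = y := by
        apply hy
        · intro w hw
          have h2 : ∀ w, w ∉ T → σ w = w := hσ
          change π⁻¹ (σ (π w)) = w
          rw [h2 _ (hπ1 w hw)]
          exact π.symm_apply_apply w
        · rw [Perm.sign_mul, Perm.sign_mul, hs, Perm.sign_inv, mul_one]
          exact Int.units_mul_self _
      calc ρ σ (ρ π y) = ρ π (ρ (π⁻¹ * σ * π) y) := by
            rw [← rmul, ← rmul]
            congr 2
            group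
        _ = ρ π y := by rw [h1]
  rcases dichotomy ρ hx hm0 with ⟨T', hT', y, hy0, hy⟩ | ⟨c, hc, y, hy0, hy⟩
  · exact hconj T' hT' ⟨y, hy0, fun σ hσ hs => fixed_alt ρ hy hσ hs⟩
  · have h1 : ∃ i, m + 1 ≤ cnt c i := by
      by_contra hcon
      push Not at hcon
      have h2 : ∑ i, cnt c i ≤ ∑ _i : Fin m, m :=
        Finset.sum_le_sum fun i _ => Nat.lt_succ_iff.1 (hcon i)
      rw [sum_cnt] at h2
      simp only [Finset.sum_const, Finset.card_univ, Fintype.card_fin, smul_eq_mul] at h2
      nlinarith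
    obtain ⟨i, hi⟩ := h1
    obtain ⟨T', hT', hT'c⟩ := Finset.exists_subset_card_eq hi
    refine hconj T' hT'c ⟨y, hy0, fun σ hσ _ => fixed_young ρ hy ?_⟩
    have h2 : ∀ w, w ∉ T' → σ w = w := hσ
    have hmem : ∀ w ∈ T', c w = i := fun w hw => by
      have := hT' hw
      simpa using this
    intro w
    by_cases hw : w ∈ T'
    · have hw' : σ w ∈ T' := by
        by_contra h3
        have h4 := σ.injective (h2 _ h3)
        rw [h4] at h3
        exact h3 hw
      rw [hmem _ hw', hmem _ hw]
    · rw [h2 w hw]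

/-- Antisymmetric or symmetric in given letters, or symmetric for a given balanced colouring. -/
theorem dichotomy_two {x : M} (hx : x ≠ 0) {T : Finset Ω} {m : ℕ} (hT : T.card = m + 1)
    (hm0 : 0 < m) {c0 : Ω → Fin m} (hc0 : Bal c0) :
    (∃ y : M, y ≠ 0 ∧ ∀ σ ∈ symOn T, Perm.sign σ = 1 → ρ σ y = y) ∨
    ∃ y : M, y ≠ 0 ∧ ∀ σ ∈ young c0, ρ σ y = y := by
  classical
  rcases dichotomy ρ hx hm0 with ⟨T', hT', y, hy0, hy⟩ | ⟨c, hc, y, hy0, hy⟩
  · left
    have e0 : Fintype.card {a // a ∈ T'} = Fintype.card {a // a ∈ T} := by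
      rw [Fintype.card_coe, Fintype.card_coe, hT, hT']
    let π : Perm Ω := (Fintype.equivOfCardEq e0).extendSubtype
    have hπ1 : ∀ a, a ∉ T' → π a ∉ T := fun a ha =>
      (Fintype.equivOfCardEq e0).extendSubtype_not_mem a ha
    refine ⟨ρ π y, ?_, ?_⟩
    · intro h
      apply hy0
      have h1 : ρ π⁻¹ (ρ π y) = y := by
        rw [← rmul, inv_mul_cancel, map_one]; rfl
      rw [← h1, h, map_zero]
    · intro σ hσ hs
      have h1 : ρ (π⁻¹ * σ * π) y = y := by
        apply fixed_alt ρ hy
        · intro w hw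
          have h2 : ∀ w, w ∉ T → σ w = w := hσ
          change π⁻¹ (σ (π w)) = w
          rw [h2 _ (hπ1 w hw)]
          exact π.symm_apply_apply w
        · rw [Perm.sign_mul, Perm.sign_mul, hs, Perm.sign_inv, mul_one]
          exact Int.units_mul_self _
      calc ρ σ (ρ π y) = ρ π (ρ (π⁻¹ * σ * π) y) := by
            rw [← rmul, ← rmul]
            congr 2
            group
        _ = ρ π y := by rw [h1]
  · right
    obtain ⟨π, hπ⟩ := bal_conj hc hc0
    refine ⟨ρ π⁻¹ y, ?_, ?_⟩
    · intro h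
      apply hy0
      have h1 : ρ π (ρ π⁻¹ y) = y := by
        rw [← rmul, mul_inv_cancel, map_one]; rfl
      rw [← h1, h, map_zero]
    · intro σ hσ
      have h1 : ρ (π * σ * π⁻¹) y = y := by
        apply fixed_young ρ hy
        intro w
        have h2 : ∀ w, c0 (σ w) = c0 w := hσ
        change c (π (σ (π⁻¹ w))) = c w
        rw [hπ _ _ (h2 _)]
        congr 1
        exact π.apply_symm_apply w
      calc ρ σ (ρ π⁻¹ y) = ρ π⁻¹ (ρ (π * σ * π⁻¹) y) := by
            rw [← rmul, ← rmul]
            congr 2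
            group
        _ = ρ π⁻¹ y := by rw [h1]

end dich

section altgrp

variable {n : ℕ} {V : Type} [AddCommGroup V] [Module ℚ V]
  (ρ : alternatingGroup (Fin n) →* Module.End ℚ V)

/-- The representation of the symmetric group induced by a representation of the alternating
group: functions `f` with `f (a g) = a (f g)` for all even `a`. -/
def ind : Submodule ℚ (Perm (Fin n) → V) where
  carrier := {f | ∀ (a : alternatingGroup (Fin n)) (g : Perm (Fin n)), f (a.1 * g) = ρ a (f g)}
  add_mem' := by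
    intro f f' hf hf' a g
    change f (a.1 * g) + f' (a.1 * g) = ρ a (f g + f' g)
    rw [hf, hf', map_add]
  zero_mem' := by
    intro a g
    change (0 : V) = ρ a 0
    rw [map_zero]
  smul_mem' := by
    intro r f hf a g
    change r • f (a.1 * g) = ρ a (r • f g)
    rw [hf, map_smul]

/-- The action of the symmetric group. -/
def indRep : Perm (Fin n) →* Module.End ℚ (ind ρ) where
  toFun σ :=
    { toFun := fun f => ⟨fun g => f.1 (g * σ), fun a g => by
        beta_reduce
        rw [mul_assoc]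
        exact f.2 a (g * σ)⟩
      map_add' := fun _ _ => rfl
      map_smul' := fun _ _ => rfl }
  map_one' := by
    ext f g
    change f.1 (g * 1) = f.1 g
    rw [mul_one]
  map_mul' σ τ := by
    ext f g
    change f.1 (g * (σ * τ)) = f.1 (g * σ * τ)
    rw [mul_assoc]

lemma rmul' (g h : alternatingGroup (Fin n)) (v : V) : ρ (g * h) v = ρ g (ρ h v) := by
  rw [map_mul]; rfl

/-- The function supported on the even permutations. -/
noncomputable def indOf (v : V) : ind ρ := by
  classical
  refine ⟨fun g => if h : g ∈ alternatingGroup (Fin n) then ρ ⟨g, h⟩ v else 0, ?_⟩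
  intro a g
  beta_reduce
  by_cases h : g ∈ alternatingGroup (Fin n)
  · have h' : a.1 * g ∈ alternatingGroup (Fin n) := mul_mem a.2 h
    rw [dif_pos h, dif_pos h', ← rmul']
    rfl
  · have h' : a.1 * g ∉ alternatingGroup (Fin n) := by
      intro h'
      apply h
      have h2 := mul_mem (inv_mem a.2) h'
      rwa [inv_mul_cancel_left] at h2
    rw [dif_neg h, dif_neg h', map_zero]

lemma indOf_ne {v : V} (hv : v ≠ 0) : indOf ρ v ≠ 0 := by
  classical
  intro h
  apply hv
  have h1 : (indOf ρ v).1 1 = 0 := by rw [h]; rfl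
  have h2 : (indOf ρ v).1 1 = ρ 1 v := by
    unfold indOf
    dsimp only
    rw [dif_pos (one_mem _)]
    rfl
  rw [h2, map_one] at h1
  exact h1

/-- From the induced representation back: if `D` is normalised by an odd permutation. -/
theorem of_ind (D : Perm (Fin n) → Prop) (hD : ∀ σ, D σ → σ ∈ alternatingGroup (Fin n))
    {τ : Perm (Fin n)} (hτ : τ ∉ alternatingGroup (Fin n)) (hττ : τ * τ = 1)
    (hDτ : ∀ σ, D σ → D (τ * σ * τ)) {f : ind ρ} (hf0 : f ≠ 0)
    (hf : ∀ σ, D σ → indRep ρ σ f = f) :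
    ∃ v : V, v ≠ 0 ∧ ∀ σ : alternatingGroup (Fin n), D σ.1 → ρ σ v = v := by
  have hval : ∀ σ, D σ → ∀ g, f.1 (g * σ) = f.1 g := fun σ hσ g => by
    have h1 := hf σ hσ
    have h2 : (indRep ρ σ f).1 g = f.1 g := by rw [h1]
    exact h2
  by_cases h1 : f.1 1 = 0
  · refine ⟨f.1 τ, ?_, fun σ hσ => ?_⟩
    · intro h2
      apply hf0
      apply Subtype.ext
      funext g
      change f.1 g = 0
      by_cases hg : g ∈ alternatingGroup (Fin n)
      · have h3 := f.2 ⟨g, hg⟩ 1
        dsimp only at h3
        rw [mul_one, h1, map_zero] at h3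
        exact h3
      · have hg' : g * τ ∈ alternatingGroup (Fin n) := by
          rw [Perm.mem_alternatingGroup] at hg hτ ⊢
          rw [Perm.sign_mul]
          rcases Int.units_eq_one_or (Perm.sign g) with h | h
          · exact absurd h hg
          rcases Int.units_eq_one_or (Perm.sign τ) with h' | h'
          · exact absurd h' hτ
          rw [h, h']
          rfl
        have h3 := f.2 ⟨g * τ, hg'⟩ τ
        dsimp only at h3
        rw [mul_assoc, hττ, mul_one, h2, map_zero] at h3
        exact h3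
    · rw [← f.2 σ τ]
      have h3 := hval _ (hDτ σ.1 hσ) τ
      rw [← h3, ← mul_assoc, ← mul_assoc, hττ, one_mul]
  · refine ⟨f.1 1, h1, fun σ hσ => ?_⟩
    rw [← f.2 σ 1, mul_one]
    have := hval _ hσ 1
    rwa [one_mul] at this

/-- The first `k` letters. -/
def firstLetters (n k : ℕ) : Finset (Fin n) := univ.filter fun i => i.val < k

lemma card_firstLetters {n k : ℕ} (h : k ≤ n) : (firstLetters n k).card = k := by
  unfold firstLetters
  rw [Fin.card_filter_val_lt]
  omega

/-- The residue classes modulo `m`. -/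
def resCol (n m : ℕ) (hm : 0 < m) : Fin n → Fin m := fun i => ⟨i.val % m, Nat.mod_lt _ hm⟩

lemma cnt_resCol {n m : ℕ} (hm : 0 < m) (j : Fin m) :
    cnt (resCol n m hm) j = n.count (fun i => i % m = j.val) := by
  unfold cnt
  rw [Nat.count_eq_card_filter_range]
  refine Finset.card_bij (fun i _ => i.val) ?_ ?_ ?_
  · intro i hi
    simp only [mem_filter, mem_univ, true_and, resCol, Fin.ext_iff] at hi
    simp [hi]
  · intro i _ i' _ h
    exact Fin.ext h
  · intro a ha
    simp only [mem_filter, Finset.mem_range] at ha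
    exact ⟨⟨a, ha.1⟩, by simp [resCol, ha.2], rfl⟩

lemma bal_resCol {n m : ℕ} (hm : 0 < m) : Bal (resCol n m hm) := by
  have h : ∀ j : Fin m, cnt (resCol n m hm) j = n / m + if j.val % m < n % m then 1 else 0 := by
    intro j
    rw [cnt_resCol, ← Nat.count_modEq_card n hm j.val]
    congr 1
    funext i
    rw [Nat.ModEq, Nat.mod_eq_of_lt j.isLt]
  intro i j
  rw [h, h]
  split_ifs <;> omega

end altgrp

end Run7.h200.Col
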