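import Pool.Agent.Run7.h200.AltDom

/-!
# Domination by small alternating groups
-/

set_option autoImplicit false

open Finset Equiv

namespace Run7.h200.Col

open Pool.Agent.X252.GA Run7.h200.Van

section

variable {n : ℕ} {V : Type} [AddCommGroup V] [Module ℚ V]
  (ρ : alternatingGroup (Fin n) →* Module.End ℚ V)

lemma swap_notMem {n : ℕ} {a b : Fin n} (h : a ≠ b) : swap a b ∉ alternatingGroup (Fin n) := by
  rw [Perm.mem_alternatingGroup, Perm.sign_swap h]
  decide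

lemma symOn_conj {n : ℕ} {T : Finset (Fin n)} {a b : Fin n} (ha : a ∈ T) (hb : b ∈ T)
    (hab : a ≠ b) {σ : Perm (Fin n)} (h : σ ∈ symOn T ∧ Perm.sign σ = 1) :
    swap a b * σ * swap a b ∈ symOn T ∧ Perm.sign (swap a b * σ * swap a b) = 1 := by
  have hs : swap a b ∈ symOn T := by
    intro w hw
    refine swap_apply_of_ne_of_ne ?_ ?_
    · rintro rfl; exact hw ha
    · rintro rfl; exact hw hb
  refine ⟨mul_mem (mul_mem hs h.1) hs, ?_⟩
  rw [Perm.sign_mul, Perm.sign_mul, h.2, Perm.sign_swap hab]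
  decide

lemma young_conj {n m : ℕ} {c : Fin n → Fin m} {a b : Fin n} (hc : c a = c b)
    (hab : a ≠ b) {σ : Perm (Fin n)} (h : σ ∈ young c ∧ Perm.sign σ = 1) :
    swap a b * σ * swap a b ∈ young c ∧ Perm.sign (swap a b * σ * swap a b) = 1 := by
  have hs : swap a b ∈ young c := by
    intro w
    rcases eq_or_ne w a with h' | h'
    · subst h'
      rw [swap_apply_left, hc]
    rcases eq_or_ne w b with h' | h'
    · subst h'
      rw [swap_apply_right, hc]
    rw [swap_apply_of_ne_of_ne ‹_› h']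
  refine ⟨mul_mem (mul_mem hs h.1) hs, ?_⟩
  rw [Perm.sign_mul, Perm.sign_mul, h.2, Perm.sign_swap hab]
  decide

/-- Every nonzero representation of `A_n` has a nonzero vector fixed by `A_k`, if
`(k - 1) ^ 2 < n`. -/
theorem fixed_altSub {k : ℕ} (hk : 2 ≤ k) (hn : (k - 1) ^ 2 < n) {v : V} (hv : v ≠ 0) :
    ∃ w : V, w ≠ 0 ∧ ∀ σ ∈ altSub n k, ρ σ w = w := by
  obtain ⟨m, rfl⟩ : ∃ m, k = m + 1 := ⟨k - 1, by omega⟩
  rw [Nat.add_sub_cancel] at hn
  have hm : 0 < m := by omega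
  have hkn : m + 1 ≤ n := by nlinarith
  have h0 : (⟨0, by omega⟩ : Fin n) ∈ firstLetters n (m + 1) := by simp [firstLetters]
  have h1 : (⟨1, by omega⟩ : Fin n) ∈ firstLetters n (m + 1) := by
    simp only [firstLetters, mem_filter, mem_univ, true_and]
    omega
  have h01 : (⟨0, by omega⟩ : Fin n) ≠ ⟨1, by omega⟩ := by
    intro h
    rw [Fin.mk.injEq] at h
    omega
  obtain ⟨y, hy0, hy⟩ := dichotomy_sq (indRep ρ) (indOf_ne ρ hv)
    (card_firstLetters hkn) hm (by rwa [Fintype.card_fin])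
  obtain ⟨w, hw0, hw⟩ := of_ind ρ (fun σ => σ ∈ symOn (firstLetters n (m + 1)) ∧ Perm.sign σ = 1)
    (fun σ h => Perm.mem_alternatingGroup.2 h.2) (swap_notMem h01) (swap_mul_self _ _)
    (fun σ h => symOn_conj h0 h1 h01 h) hy0 (fun σ h => hy σ h.1 h.2)
  refine ⟨w, hw0, fun σ hσ => hw σ ⟨?_, Perm.mem_alternatingGroup.1 σ.2⟩⟩
  intro i hi
  apply hσ
  simpa [firstLetters] using hi

/-- Every nonzero representation of `A_n` has a nonzero vector fixed by `A_k` or by the even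
permutations preserving the residue classes modulo `k - 1`. -/
theorem fixed_two {k : ℕ} (hk : 2 ≤ k) (hkn : k ≤ n) {v : V} (hv : v ≠ 0) :
    (∃ w : V, w ≠ 0 ∧ ∀ σ ∈ altSub n k, ρ σ w = w) ∨
    ∃ w : V, w ≠ 0 ∧ ∀ σ ∈ classSub n (k - 1), ρ σ w = w := by
  obtain ⟨m, rfl⟩ : ∃ m, k = m + 1 := ⟨k - 1, by omega⟩
  rw [Nat.add_sub_cancel]
  have hm : 0 < m := by omega
  have h0 : (⟨0, by omega⟩ : Fin n) ∈ firstLetters n (m + 1) := by simp [firstLetters]
  have h1 : (⟨1, by omega⟩ : Fin n) ∈ firstLetters n (m + 1) := by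
    simp only [firstLetters, mem_filter, mem_univ, true_and]
    omega
  have h01 : (⟨0, by omega⟩ : Fin n) ≠ ⟨1, by omega⟩ := by
    intro h
    rw [Fin.mk.injEq] at h
    omega
  rcases dichotomy_two (indRep ρ) (indOf_ne ρ hv)
    (card_firstLetters hkn) hm (bal_resCol (n := n) hm) with ⟨y, hy0, hy⟩ | ⟨y, hy0, hy⟩
  · left
    obtain ⟨w, hw0, hw⟩ := of_ind ρ
      (fun σ => σ ∈ symOn (firstLetters n (m + 1)) ∧ Perm.sign σ = 1)
      (fun σ h => Perm.mem_alternatingGroup.2 h.2) (swap_notMem h01) (swap_mul_self _ _)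
      (fun σ h => symOn_conj h0 h1 h01 h) hy0 (fun σ h => hy σ h.1 h.2)
    refine ⟨w, hw0, fun σ hσ => hw σ ⟨?_, Perm.mem_alternatingGroup.1 σ.2⟩⟩
    intro i hi
    apply hσ
    simpa [firstLetters] using hi
  · right
    have h0m : (⟨0, by omega⟩ : Fin n) ≠ ⟨m, by omega⟩ := by
      intro h
      rw [Fin.mk.injEq] at h
      omega
    have hcm : resCol n m hm ⟨0, by omega⟩ = resCol n m hm ⟨m, by omega⟩ := by
      simp [resCol]
    obtain ⟨w, hw0, hw⟩ := of_ind ρ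
      (fun σ => σ ∈ young (resCol n m hm) ∧ Perm.sign σ = 1)
      (fun σ h => Perm.mem_alternatingGroup.2 h.2) (swap_notMem h0m) (swap_mul_self _ _)
      (fun σ h => young_conj hcm h0m h) hy0 (fun σ h => hy σ h.1)
    refine ⟨w, hw0, fun σ hσ => hw σ ⟨?_, Perm.mem_alternatingGroup.1 σ.2⟩⟩
    intro i
    exact Fin.ext (hσ i)

end

variable {G : Type} [Group G]

/-- **Domination by `A_k`.** -/
theorem dominated_alt {n k : ℕ} (hk : 2 ≤ k) (hn : (k - 1) ^ 2 < n)
    (e : alternatingGroup (Fin n) →* G) (H : Subgroup G) :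
    Dominated H (fun _ : Unit => (altSub n k).map e) := by
  intro V _ _ ρ _ ⟨v, hv, _⟩
  obtain ⟨w, hw0, hw⟩ := fixed_altSub (ρ.comp e) hk hn hv
  refine ⟨(), w, hw0, ?_⟩
  rintro _ ⟨σ, hσ, rfl⟩
  exact hw σ hσ

/-- The two subgroups. -/
def pairSub {n : ℕ} (k : ℕ) (e : alternatingGroup (Fin n) →* G) : Bool → Subgroup G
  | true => (altSub n k).map e
  | false => (classSub n (k - 1)).map e

/-- **Domination by `A_k` and the group of the residue classes modulo `k - 1`.** -/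
theorem dominated_pair {n k : ℕ} (hk : 2 ≤ k) (hkn : k ≤ n)
    (e : alternatingGroup (Fin n) →* G) (H : Subgroup G) :
    Dominated H (pairSub k e) := by
  intro V _ _ ρ _ ⟨v, hv, _⟩
  rcases fixed_two (ρ.comp e) hk hkn hv with ⟨w, hw0, hw⟩ | ⟨w, hw0, hw⟩
  · refine ⟨true, w, hw0, ?_⟩
    rintro _ ⟨σ, hσ, rfl⟩
    exact hw σ hσ
  · refine ⟨false, w, hw0, ?_⟩
    rintro _ ⟨σ, hσ, rfl⟩
    exact hw σ hσ

end Run7.h200.Col
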