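import Pool.Agent.H914R2.Var
import Pool.Agent.Run7.h200.VanDefs

/-!
# Zero-cycles, rational equivalence and the kernel of the Albanese map
-/

set_option autoImplicit false

open CategoryTheory CategoryTheory.Limits AlgebraicGeometry

universe u

namespace Run7.h200.BL

open Pool.Agent.H914 Run7.h200.Van
open scoped TensorProduct

variable {k : Type u} [Field k]

/-- The rational points of `X`, the sections of the structure morphism (the closed points, if `k`
is algebraically closed). -/
def Pt (X : SmVar k) : Type u := {p : Spec (.of k) ⟶ X.X // p ≫ X.str = 𝟙 _}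

/-- The image of a point under a morphism. -/
noncomputable def Pt.map {X Y : SmVar k} (f : X ⟶ Y) (p : Pt X) : Pt Y :=
  ⟨p.1 ≫ f.hom, by rw [Category.assoc, f.w, p.2]⟩

/-- The point `(p, q)` of `X × Y`. -/
noncomputable def Pt.pair {X Y : SmVar k} (p : Pt X) (q : Pt Y) : Pt (X.prod Y) :=
  ⟨pullback.lift p.1 q.1 (by rw [p.2, q.2]), by
    change pullback.lift _ _ _ ≫ pullback.fst X.str Y.str ≫ X.str = _
    rw [pullback.lift_fst_assoc, p.2]⟩

/-- The underlying point of the scheme. -/
noncomputable def Pt.pt {X : SmVar k} (p : Pt X) : X.X := p.1 (IsLocalRing.closedPoint k)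

/-- The zero-cycles with rational coefficients. -/
abbrev Zero (X : SmVar k) : Type u := Pt X →₀ ℚ

/-- The direct image of zero-cycles. -/
noncomputable def push {X Y : SmVar k} (f : X ⟶ Y) : Zero X →ₗ[ℚ] Zero Y :=
  Finsupp.lmapDomain ℚ ℚ (Pt.map f)

/-- The zero-cycle `D` on the smooth proper curve `C` is the divisor of a nonzero rational
function. -/
def IsDivisor (C : SmVar k) (D : Zero C) : Prop :=
  ∃ (_ : IsIntegral C.X) (_ : IsLocallyNoetherian C.X) (φ : C.X.functionField), φ ≠ 0 ∧
    ∀ p : Pt C, D p = (Scheme.ord φ p.pt : ℚ)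

/-- The zero-cycles on `X` which are rationally equivalent to zero: the linear combinations of the
direct images `f_* div(φ)` for morphisms `f : C ⟶ X` from smooth proper curves. -/
noncomputable def RatZero (X : SmVar k) : Submodule ℚ (Zero X) :=
  Submodule.span ℚ {z | ∃ C : SmVar k, C.dim = 1 ∧ ∃ (f : C ⟶ X) (D : Zero C),
    IsDivisor C D ∧ z = push f D}

/-- An abelian variety: a smooth proper variety with a group structure on its points which is
given by morphisms. -/
structure AbVar (k : Type u) [Field k] where
  /-- the variety -/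
  A : SmVar k
  /-- the group of points -/
  grp : AddCommGroup (Pt A)
  add_alg : ∃ m : A.prod A ⟶ A, ∀ p q : Pt A, (p.pair q).map m = p + q
  neg_alg : ∃ i : A ⟶ A, ∀ p : Pt A, p.map i = -p

attribute [instance] AbVar.grp

/-- The sum of the images of the points of a zero-cycle in an abelian variety, up to torsion. -/
noncomputable def albMap {X : SmVar k} (B : AbVar k) (h : X ⟶ B.A) :
    Zero X →ₗ[ℚ] ℚ ⊗[ℤ] Pt B.A :=
  Finsupp.linearCombination ℚ fun p => (1 : ℚ) ⊗ₜ[ℤ] (p.map h)

/-- The zero-cycles of degree zero in the kernel of the Albanese map (up to torsion): their images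
under all the morphisms to abelian varieties have sum zero. -/
noncomputable def Kernel (X : SmVar k) : Submodule ℚ (Zero X) :=
  LinearMap.ker (Finsupp.linearCombination ℚ fun _ : Pt X => (1 : ℚ)) ⊓
    ⨅ (B : AbVar k) (h : X ⟶ B.A), LinearMap.ker (albMap B h)

/-- The action of a group of automorphisms on zero-cycles. -/
noncomputable def act {X : SmVar k} {G : Type} [Group G] (a : G →* Aut X) :
    G →* Module.End ℚ (Zero X) where
  toFun g := push (a g).hom
  map_one' := by
    rw [map_one]
    apply Finsupp.lhom_ext
    intro p r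
    change Finsupp.mapDomain _ _ = _
    rw [Finsupp.mapDomain_single]
    have h : Pt.map (𝟙 X : X ⟶ X) p = p := Subtype.ext (Category.comp_id p.1)
    exact congrArg (fun q => Finsupp.single q r) h
  map_mul' g h := by
    rw [map_mul]
    apply Finsupp.lhom_ext
    intro p r
    change Finsupp.mapDomain _ _ = Finsupp.mapDomain _ (Finsupp.mapDomain _ _)
    rw [Finsupp.mapDomain_single, Finsupp.mapDomain_single, Finsupp.mapDomain_single]
    exact congrArg (fun q => Finsupp.single q r) (Subtype.ext (Category.assoc p.1 _ _).symm)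

/-- The kernel of the Albanese map of the quotient `X/H` is zero: the zero-cycles in the kernel of
the Albanese map of `X` whose classes are invariant under `H` are rationally equivalent to zero. -/
def QuotientBloch {X : SmVar k} {G : Type} [Group G] (a : G →* Aut X) (H : Subgroup G) : Prop :=
  ∀ z ∈ Kernel X, (∀ h ∈ H, push (a h).hom z - z ∈ RatZero X) → z ∈ RatZero X

/-- The representation `σ` occurs in the kernel of the Albanese map modulo rational equivalence. -/
def OccursZero {X : SmVar k} {G : Type} [Group G] (a : G →* Aut X) {S : Type} [AddCommGroup S]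
    [Module ℚ S] (σ : G →* Module.End ℚ S) : Prop :=
  ∃ f : S →+ Zero X, (∀ s, f s ∈ Kernel X) ∧ (∀ g s, f (σ g s) = push (a g).hom (f s)) ∧
    ∃ s, f s ∉ RatZero X

/-- Every irreducible rational representation of `G` which occurs in the kernel of the Albanese map
and has a nonzero vector fixed by `H` has for some `i` a nonzero vector fixed by `E i`. -/
def DominatedZero {X : SmVar k} {G : Type} [Group G] (a : G →* Aut X) {ι : Type}
    (H : Subgroup G) (E : ι → Subgroup G) : Prop :=
  ∀ (S : Type) [AddCommGroup S] [Module ℚ S] (σ : G →* Module.End ℚ S), Irr σ →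
    OccursZero a σ → (∃ v : S, v ≠ 0 ∧ ∀ h ∈ H, σ h v = v) →
      ∃ i, ∃ v : S, v ≠ 0 ∧ ∀ d ∈ E i, σ d v = v

/-- Some nonzero irreducible rational representation of `G` occurs in the kernel of the Albanese
map, and the elements of `G` different from one fix only `0` in it. -/
def FreeZero {X : SmVar k} {G : Type} [Group G] (a : G →* Aut X) : Prop :=
  ∃ (S : Type) (_ : AddCommGroup S) (_ : Module ℚ S) (σ : G →* Module.End ℚ S), Irr σ ∧
    OccursZero a σ ∧ (∃ v : S, v ≠ 0) ∧ ∀ g : G, g ≠ 1 → ∀ v : S, σ g v = v → v = 0

end Run7.h200.BL
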