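import Pool.Agent.Run7.h200.Van
import Pool.Agent.Run7.h200.BLDefs

/-!
# Group actions and zero-cycles
-/

set_option autoImplicit false

open CategoryTheory CategoryTheory.Limits AlgebraicGeometry

universe u

namespace Run7.h200.BL

open Pool.Agent.H914 Run7.h200.Van
open scoped TensorProduct

variable {k : Type u} [Field k]

lemma push_single {X Y : SmVar k} (f : X ⟶ Y) (p : Pt X) (r : ℚ) :
    push f (Finsupp.single p r) = Finsupp.single (p.map f) r :=
  Finsupp.mapDomain_single

lemma push_comp {X Y Z : SmVar k} (f : X ⟶ Y) (g : Y ⟶ Z) (z : Zero X) :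
    push (f ≫ g) z = push g (push f z) := by
  have h : push (f ≫ g) = push g ∘ₗ push f := by
    apply Finsupp.lhom_ext
    intro p r
    rw [LinearMap.comp_apply, push_single, push_single, push_single]
    exact congrArg (fun q => Finsupp.single q r) (Subtype.ext (Category.assoc p.1 _ _).symm)
  rw [h]; rfl

lemma push_rat {X Y : SmVar k} (f : X ⟶ Y) {z : Zero X} (hz : z ∈ RatZero X) :
    push f z ∈ RatZero Y := by
  have h : RatZero X ≤ (RatZero Y).comap (push f) := by
    refine Submodule.span_le.2 ?_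
    rintro _ ⟨C, hC, g, D, hD, rfl⟩
    exact Submodule.subset_span ⟨C, hC, g ≫ f, D, hD, (push_comp g f D).symm⟩
  exact h hz

lemma albMap_push {X Y : SmVar k} (f : X ⟶ Y) (B : AbVar k) (h : Y ⟶ B.A) (z : Zero X) :
    albMap B h (push f z) = albMap B (f ≫ h) z := by
  have h1 : albMap B h ∘ₗ push f = albMap B (f ≫ h) := by
    apply Finsupp.lhom_ext
    intro p r
    rw [LinearMap.comp_apply, push_single]
    simp only [albMap, Finsupp.linearCombination_single]
    have h2 : (p.map f).map h = p.map (f ≫ h) := Subtype.ext (Category.assoc p.1 _ _)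
    rw [h2]
  rw [← h1]; rfl

lemma deg_push {X Y : SmVar k} (f : X ⟶ Y) (z : Zero X) :
    Finsupp.linearCombination ℚ (fun _ : Pt Y => (1 : ℚ)) (push f z) =
      Finsupp.linearCombination ℚ (fun _ : Pt X => (1 : ℚ)) z := by
  have h1 : Finsupp.linearCombination ℚ (fun _ : Pt Y => (1 : ℚ)) ∘ₗ push f =
      Finsupp.linearCombination ℚ (fun _ : Pt X => (1 : ℚ)) := by
    apply Finsupp.lhom_ext
    intro p r
    rw [LinearMap.comp_apply, push_single]
    simp only [Finsupp.linearCombination_single]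
  rw [← h1]; rfl

lemma push_kernel {X Y : SmVar k} (f : X ⟶ Y) {z : Zero X} (hz : z ∈ Kernel X) :
    push f z ∈ Kernel Y := by
  simp only [Kernel, Submodule.mem_inf, LinearMap.mem_ker, Submodule.mem_iInf] at hz ⊢
  refine ⟨by rw [deg_push]; exact hz.1, fun B h => ?_⟩
  rw [albMap_push]
  exact hz.2 B (f ≫ h)

lemma quotientBloch_bot {X : SmVar k} {G : Type} [Group G] (a : G →* Aut X) :
    QuotientBloch a ⊥ ↔ ∀ z ∈ Kernel X, z ∈ RatZero X := by
  constructor
  · intro h z hz
    exact vanish_up_bot h z hz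
  · intro h z hz _
    exact h z hz
where
  vanish_up_bot {X : SmVar k} {G : Type} [Group G] {a : G →* Aut X}
      (h : QuotientBloch a ⊥) (z : Zero X) (hz : z ∈ Kernel X) : z ∈ RatZero X := by
    refine h z hz fun g hg => ?_
    rw [Subgroup.mem_bot] at hg
    subst hg
    have h1 : push (a 1).hom z = z := by
      have h2 := (act a).map_one
      have h3 : (act a) 1 z = z := by rw [h2]; rfl
      exact h3
    rw [h1, sub_self]
    exact (RatZero X).zero_mem

/-- **Group actions and zero-cycles.** -/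
theorem mainBL {X : SmVar k} {G : Type} [Group G] [Finite G] (a : G →* Aut X) :
    (∀ (H : Subgroup G) (ι : Type) (E : ι → Subgroup G), DominatedZero a H E →
      (∀ i, QuotientBloch a (E i)) → QuotientBloch a H) ∧
    (∀ K : Subgroup G, (∀ x ∈ K, ∀ y ∈ K, x * y = y * x) →
      (QuotientBloch a ⊥ ↔ ∀ C : Subgroup G, CyclicQuotient K C → QuotientBloch a C)) ∧
    (∀ (ι : Type) (E : ι → Subgroup G) (K : Subgroup G), Partitions K E →
      (QuotientBloch a ⊥ ↔ ∀ i, QuotientBloch a (E i))) ∧
    (∀ c : G, c * c = 1 → (QuotientBloch a ⊥ ↔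
      QuotientBloch a (Subgroup.zpowers c) ∧ QuotientBloch a (commSub c))) ∧
    (∀ c : G, InSimple c → c ≠ 1 → c * c = 1 →
      (QuotientBloch a ⊥ ↔ QuotientBloch a (Subgroup.zpowers c))) ∧
    (∀ (n k : ℕ) (e : alternatingGroup (Fin n) →* G), 2 ≤ k → (k - 1) ^ 2 < n →
      (QuotientBloch a ⊥ ↔ QuotientBloch a ((altSub n k).map e))) ∧
    (∀ (n k : ℕ) (e : alternatingGroup (Fin n) →* G), 2 ≤ k → k ≤ n →
      (QuotientBloch a ⊥ ↔ QuotientBloch a ((altSub n k).map e) ∧
        QuotientBloch a ((classSub n (k - 1)).map e))) ∧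
    (¬ QuotientBloch a ⊥ → (∀ P : Subgroup G, (Nat.card P).Prime → QuotientBloch a P) →
      FreeZero a ∧ CyclicSubgroups G) :=
  Van.main (τ := act a) (U := Kernel X) (N := RatZero X)
    (fun g _ hu => push_kernel (a g).hom hu) (fun g _ hu => push_rat (a g).hom hu)

end Run7.h200.BL
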