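import Pool.Agent.R903.Chow
import Pool.Agent.Run7.h200.VInv

/-!
# Finite group actions and Chow groups: definitions
-/

set_option autoImplicit false

open CategoryTheory Equiv

universe u v

namespace Run7.h200.CH

open Pool.Agent.H914 Pool.Agent.H914.VarClass Pool.Agent.H914.VarClass.Obj Pool.Agent.R903
open Run7.h200.Van

variable {k : Type u} [Field k] {𝒱 : VarClass k} (C : ChowTheory.{u, v} 𝒱) {X : 𝒱.Obj}
  {G : Type} [Group G]

/-- The action of `G` on the Chow groups of `X`: `g` acts as the pull-back under `g⁻¹`. -/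
noncomputable def rep (a : G →* Aut X) : G →* Module.End ℚ (C.CH X) where
  toFun g := (C.pull (a g).inv).toLinearMap
  map_one' := by
    rw [map_one]
    change (C.pull (𝟙 X)).toLinearMap = 1
    rw [C.pullFunctorial.pull_id]
    rfl
  map_mul' g h := by
    rw [map_mul]
    change (C.pull ((a g).inv ≫ (a h).inv)).toLinearMap = _
    rw [C.pullFunctorial.pull_comp]
    rfl

/-- The class `z` is invariant under the subgroup `H`. -/
def Inv (a : G →* Aut X) (H : Subgroup G) (z : C.CH X) : Prop :=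
  ∀ g ∈ H, C.pull (a g).hom z = z

/-- `CH^i(X/H) = ℚ h^i`: the classes of codimension `i` on `X` which are invariant under `H` are the
rational multiples of `h^i`. -/
def QuotientHart (a : G →* Aut X) (h : C.CH X) (i : ℕ) (H : Subgroup G) : Prop :=
  ∀ z ∈ C.gr X i, Inv C a H z → ∃ q : ℚ, z = q • h ^ i

/-- The representation `σ` occurs in `CH^i(X)/ℚ h^i`. -/
def OccursCH (a : G →* Aut X) (h : C.CH X) (i : ℕ) {S : Type} [AddCommGroup S] [Module ℚ S]
    (σ : G →* Module.End ℚ S) : Prop :=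
  ∃ f : S →+ C.CH X, (∀ s, f s ∈ C.gr X i) ∧ (∀ g s, f (σ g s) = C.pull (a g).inv (f s)) ∧
    ∃ s, ∀ q : ℚ, f s ≠ q • h ^ i

/-- Every irreducible rational representation of `G` which occurs in `CH^i(X)/ℚ h^i` and has a
nonzero vector fixed by `H` has for some `j` a nonzero vector fixed by `E j`. -/
def DominatedCH (a : G →* Aut X) (h : C.CH X) (i : ℕ) {ι : Type} (H : Subgroup G)
    (E : ι → Subgroup G) : Prop :=
  ∀ (S : Type) [AddCommGroup S] [Module ℚ S] (σ : G →* Module.End ℚ S), Irr σ →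
    OccursCH C a h i σ → (∃ v : S, v ≠ 0 ∧ ∀ h ∈ H, σ h v = v) →
      ∃ j, ∃ v : S, v ≠ 0 ∧ ∀ d ∈ E j, σ d v = v

/-- Some nonzero irreducible rational representation of `G` occurs in `CH^i(X)/ℚ h^i`, and the
elements of `G` different from one fix only `0` in it. -/
def FreeCH (a : G →* Aut X) (h : C.CH X) (i : ℕ) : Prop :=
  ∃ (S : Type) (_ : AddCommGroup S) (_ : Module ℚ S) (σ : G →* Module.End ℚ S), Irr σ ∧
    OccursCH C a h i σ ∧ (∃ v : S, v ≠ 0) ∧ ∀ g : G, g ≠ 1 → ∀ v : S, σ g v = v → v = 0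

/-- `f : X ⟶ Y` is the quotient morphism for `H` so far as the Chow groups are concerned: `f^* f_* z`
is the sum of the translates of `z` under `H`. -/
def IsQuotientMap (a : G →* Aut X) (H : Subgroup G) {Y : 𝒱.Obj} (f : X ⟶ Y) : Prop :=
  X.dim = Y.dim ∧ ∀ z : C.CH X, C.pull f (C.push f z) = ∑ᶠ g : H, C.pull (a g).hom z

/-- The class `z` is alternating under `S_k`: odd permutations change the sign. -/
def Alternating {n : ℕ} (a : G →* Aut X) (e : Perm (Fin n) →* G) (k : ℕ) (z : C.CH X) : Prop :=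
  ∀ σ ∈ symSub n k, C.pull (a (e σ)).hom z = ((Perm.sign σ : ℤ) : ℚ) • z

end Run7.h200.CH
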