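import Pool.Agent.Run7.h200.HTAlg

/-!
# Coloured vectors in representations of symmetric groups

Let `c` be a colouring of the finite set `Ω`, and let each colour be even or odd. A vector `x` of a
rational representation of the group of permutations of `Ω` is coloured by `c` if the exchange of
two points with the same even (odd) colour fixes `x` (changes the sign of `x`). If there is a nonzero
vector coloured by `c`, then there is one for a colouring with the same numbers of points of even and
of odd colour, in which the numbers of points of the even colours differ by at most one, and also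
those of the odd colours.
-/

set_option autoImplicit false

open Finset Equiv

namespace Run7.h200.Col

variable {Ω : Type} [Fintype Ω] [DecidableEq Ω] {I : Type} [DecidableEq I]
  {M : Type*} [AddCommGroup M] [Module ℚ M] (ρ : Perm Ω →* Module.End ℚ M)

/-- The vector `x` is coloured by `c`; `e i = 1` if the colour `i` is even, `e i = -1` if it is
odd. -/
def Col (e : I → ℚ) (c : Ω → I) (x : M) : Prop :=
  ∀ a b, a ≠ b → c a = c b → ρ (swap a b) x = e (c a) • x

lemma rmul (g h : Perm Ω) (v : M) : ρ (g * h) v = ρ g (ρ h v) := by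
  rw [map_mul]; rfl

/-- Symmetrisation (or antisymmetrisation) with one more point. -/
noncomputable def sym (ε : ℚ) (A : Finset Ω) (s : Ω) (x : M) : M :=
  x + ε • ∑ a ∈ A, ρ (swap a s) x

lemma sym_swap {ε : ℚ} (hε : ε * ε = 1) {A : Finset Ω} {s : Ω} (hs : s ∉ A) {x : M}
    (hx : ∀ a ∈ A, ∀ b ∈ A, a ≠ b → ρ (swap a b) x = ε • x) {t : Ω} (ht : t ∈ A) :
    ρ (swap t s) (sym ρ ε A s x) = ε • sym ρ ε A s x := by
  have hts : t ≠ s := fun h => hs (h ▸ ht)
  have h1 : ∀ a ∈ A.erase t, ρ (swap t s) (ρ (swap a s) x) = ε • ρ (swap a s) x := by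
    intro a ha
    rw [Finset.mem_erase] at ha
    have has : a ≠ s := fun h => hs (h ▸ ha.2)
    have h2 : swap t s * swap a s = swap a s * swap t a := by
      have h3 := mul_swap_eq_swap_mul (swap a s) t a
      rw [swap_apply_of_ne_of_ne (Ne.symm ha.1) hts, swap_apply_left] at h3
      exact h3.symm
    rw [← rmul, h2, rmul, hx t ht a ha.2 (Ne.symm ha.1), map_smul]
  have h2 : ρ (swap t s) (ρ (swap t s) x) = x := by
    rw [← rmul, swap_mul_self, map_one]; rfl
  rw [sym, map_add, map_smul, map_sum, ← Finset.add_sum_erase A _ ht, h2,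
    Finset.sum_congr rfl h1, ← Finset.add_sum_erase A (fun a => ρ (swap a s) x) ht,
    ← Finset.smul_sum]
  simp only [smul_add, smul_smul, hε, one_smul]
  abel

/-- Recolouring one point. -/
lemma col_sym {e : I → ℚ} (he : ∀ i, e i * e i = 1) {c : Ω → I} {x : M} (hx : Col ρ e c x)
    {i j : I} (hij : i ≠ j) (heij : e i = e j) {t : Ω} (ht : c t = i) :
    Col ρ e (Function.update c t j) (sym ρ (e i) (univ.filter fun s => c s = j) t x) := by
  classical
  have htB : t ∉ univ.filter fun s => c s = j := by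
    simp only [mem_filter, mem_univ, true_and]
    rw [ht]
    exact hij
  have hB : ∀ a ∈ univ.filter (fun s => c s = j), ∀ b ∈ univ.filter (fun s => c s = j), a ≠ b →
      ρ (swap a b) x = e i • x := by
    intro a ha b hb hab
    simp only [mem_filter, mem_univ, true_and] at ha hb
    rw [hx a b hab (by rw [ha, hb]), ha, heij]
  intro a b hab hc
  by_cases hat : a = t
  · subst hat
    rw [Function.update_self, Function.update_of_ne hab.symm] at hc
    rw [Function.update_self, swap_comm, ← heij]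
    exact sym_swap ρ (he i) htB hB (by simp [hc.symm])
  by_cases hbt : b = t
  · subst hbt
    rw [Function.update_self, Function.update_of_ne hab] at hc
    rw [Function.update_of_ne hab, hc, ← heij]
    exact sym_swap ρ (he i) htB hB (by simp [hc])
  rw [Function.update_of_ne hat, Function.update_of_ne hbt] at hc
  rw [Function.update_of_ne hat]
  have h1 := hx a b hab hc
  have h2 : swap a b t = t := swap_apply_of_ne_of_ne (Ne.symm hat) (Ne.symm hbt)
  have h3 : ∀ s, ρ (swap a b) (ρ (swap s t) x) = e (c a) • ρ (swap (swap a b s) t) x := by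
    intro s
    rw [← rmul, mul_swap_eq_swap_mul, h2, rmul, h1, map_smul]
  rw [sym, map_add, map_smul, map_sum, h1, smul_add]
  congr 1
  rw [smul_comm (e (c a))]
  congr 1
  rw [Finset.smul_sum, Finset.sum_congr rfl fun s _ => h3 s]
  refine Finset.sum_bij (fun s _ => swap a b s) ?_ ?_ ?_ ?_
  · intro s hs
    simp only [mem_filter, mem_univ, true_and] at hs ⊢
    rcases eq_or_ne s a with h | h
    · subst h
      rw [swap_apply_left, ← hc, hs]
    rcases eq_or_ne s b with h' | h'
    · subst h'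
      rw [swap_apply_right, hc, hs]
    rw [swap_apply_of_ne_of_ne h h', hs]
  · intro s _ s' _ h
    exact (swap a b).injective h
  · intro s hs
    refine ⟨swap a b s, ?_, by rw [← Perm.mul_apply, swap_mul_self, Perm.one_apply]⟩
    simp only [mem_filter, mem_univ, true_and] at hs ⊢
    rcases eq_or_ne s a with h | h
    · subst h
      rw [swap_apply_left, ← hc, hs]
    rcases eq_or_ne s b with h' | h'
    · subst h'
      rw [swap_apply_right, hc, hs]
    rw [swap_apply_of_ne_of_ne h h', hs]
  · intro s _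
    rfl

/-- An invariant positive semidefinite form. -/
noncomputable def B (φ : M →ₗ[ℚ] ℚ) (u v : M) : ℚ := ∑ g : Perm Ω, φ (ρ g u) * φ (ρ g v)

lemma B_add (φ : M →ₗ[ℚ] ℚ) (u u' v : M) : B ρ φ (u + u') v = B ρ φ u v + B ρ φ u' v := by
  simp only [B, map_add, add_mul, Finset.sum_add_distrib]

lemma B_smul (φ : M →ₗ[ℚ] ℚ) (r : ℚ) (u v : M) : B ρ φ (r • u) v = r * B ρ φ u v := by
  simp only [B, map_smul, smul_eq_mul, Finset.mul_sum, mul_assoc]

lemma B_sum (φ : M →ₗ[ℚ] ℚ) {κ : Type*} (s : Finset κ) (f : κ → M) (v : M) :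
    B ρ φ (∑ i ∈ s, f i) v = ∑ i ∈ s, B ρ φ (f i) v := by
  simp only [B, map_sum, Finset.sum_mul]
  rw [Finset.sum_comm]

lemma B_comm (φ : M →ₗ[ℚ] ℚ) (u v : M) : B ρ φ u v = B ρ φ v u := by
  simp only [B, mul_comm]

lemma B_inv (φ : M →ₗ[ℚ] ℚ) (g : Perm Ω) (u v : M) : B ρ φ (ρ g u) (ρ g v) = B ρ φ u v := by
  unfold B
  refine Fintype.sum_equiv (Equiv.mulRight g) _ _ fun h => ?_
  rw [Equiv.coe_mulRight, rmul, rmul]

lemma B_swap (φ : M →ₗ[ℚ] ℚ) (a b : Ω) (u v : M) :
    B ρ φ (ρ (swap a b) u) v = B ρ φ u (ρ (swap a b) v) := by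
  rw [← B_inv ρ φ (swap a b) u, ← rmul ρ (swap a b) (swap a b) v, swap_mul_self, map_one]
  rfl

lemma B_self (φ : M →ₗ[ℚ] ℚ) (u : M) : 0 ≤ B ρ φ u u :=
  Finset.sum_nonneg fun _ _ => mul_self_nonneg _

lemma B_pos {φ : M →ₗ[ℚ] ℚ} {u : M} (hu : φ u ≠ 0) : 0 < B ρ φ u u := by
  refine Finset.sum_pos' (fun _ _ => mul_self_nonneg _) ⟨1, Finset.mem_univ _, ?_⟩
  rw [map_one]
  exact mul_self_pos.2 hu

lemma sym_B (φ : M →ₗ[ℚ] ℚ) {ε : ℚ} (hε : ε * ε = 1) {A : Finset Ω} {s : Ω} (hs : s ∉ A) {x : M}
    (hx : ∀ a ∈ A, ∀ b ∈ A, a ≠ b → ρ (swap a b) x = ε • x) :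
    0 ≤ B ρ φ (sym ρ ε A s x) x := by
  have h1 : B ρ φ (sym ρ ε A s x) (sym ρ ε A s x) =
      (A.card + 1) * B ρ φ (sym ρ ε A s x) x := by
    have h2 : ∀ a ∈ A, B ρ φ (ρ (swap a s) x) (sym ρ ε A s x) =
        ε * B ρ φ (sym ρ ε A s x) x := by
      intro a ha
      rw [B_swap, sym_swap ρ hε hs hx ha, B_comm, B_smul]
    have h3 : B ρ φ (sym ρ ε A s x) (sym ρ ε A s x) =
        B ρ φ (x + ε • ∑ a ∈ A, ρ (swap a s) x) (sym ρ ε A s x) := rfl
    rw [h3, B_add, B_smul, B_sum, Finset.sum_congr rfl h2, Finset.sum_const, nsmul_eq_mul,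
      B_comm ρ φ x]
    calc B ρ φ (sym ρ ε A s x) x + ε * (A.card * (ε * B ρ φ (sym ρ ε A s x) x))
        = (A.card * (ε * ε) + 1) * B ρ φ (sym ρ ε A s x) x := by ring
      _ = _ := by rw [hε, mul_one]
  have h2 := B_self ρ φ (sym ρ ε A s x)
  rw [h1] at h2
  exact nonneg_of_mul_nonneg_right h2 (by positivity)

/-- **Recolouring**: from a colour with more points to a colour with fewer points. -/
theorem move {e : I → ℚ} (he : ∀ i, e i * e i = 1) {c : Ω → I} {x : M} (hx0 : x ≠ 0)
    (hx : Col ρ e c x) {i j : I} (hij : i ≠ j) (heij : e i = e j)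
    (hlt : (univ.filter fun s => c s = j).card < (univ.filter fun s => c s = i).card) :
    ∃ t, c t = i ∧ ∃ y : M, y ≠ 0 ∧ Col ρ e (Function.update c t j) y := by
  classical
  by_contra hcon
  push Not at hcon
  have h0 : ∀ t, c t = i → sym ρ (e i) (univ.filter fun s => c s = j) t x = 0 := by
    intro t ht
    by_contra hne
    exact hcon t ht _ hne (col_sym ρ he hx hij heij ht)
  obtain ⟨φ, hφ⟩ : ∃ φ : M →ₗ[ℚ] ℚ, φ x ≠ 0 := by
    by_contra hcon
    push Not at hcon
    exact hx0 ((Module.forall_dual_apply_eq_zero_iff ℚ x).1 hcon)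
  set A := univ.filter fun s => c s = i with hA
  set C := univ.filter fun s => c s = j with hC
  have hmA : ∀ s, s ∈ A ↔ c s = i := fun s => by simp [hA]
  have hmC : ∀ s, s ∈ C ↔ c s = j := fun s => by simp [hC]
  have hxA : ∀ a ∈ A, ∀ b ∈ A, a ≠ b → ρ (swap a b) x = e i • x := by
    intro a ha b hb hab
    rw [hmA] at ha hb
    rw [hx a b hab (by rw [ha, hb]), ha]
  have h1 : ∀ s ∈ C, 0 ≤ B ρ φ x x + e i * ∑ t ∈ A, B ρ φ (ρ (swap t s) x) x := by
    intro s hs
    rw [hmC] at hs
    have h2 := sym_B ρ φ (he i) (s := s) (by rw [hmA, hs]; exact hij.symm) hxA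
    rwa [sym, B_add, B_smul, B_sum] at h2
  have h2 : ∀ t ∈ A, 0 = B ρ φ x x + e i * ∑ s ∈ C, B ρ φ (ρ (swap s t) x) x := by
    intro t ht
    rw [hmA] at ht
    have h3 := h0 t ht
    have h4 : B ρ φ (sym ρ (e i) C t x) x = 0 := by
      rw [h3, ← zero_smul ℚ (0 : M), B_smul, zero_mul]
    rw [← h4, sym, B_add, B_smul, B_sum]
  have h3 : 0 ≤ ∑ s ∈ C, (B ρ φ x x + e i * ∑ t ∈ A, B ρ φ (ρ (swap t s) x) x) :=
    Finset.sum_nonneg h1
  have h4 : 0 = ∑ t ∈ A, (B ρ φ x x + e i * ∑ s ∈ C, B ρ φ (ρ (swap s t) x) x) := by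
    rw [← Finset.sum_congr rfl h2, Finset.sum_const_zero]
  rw [Finset.sum_add_distrib, Finset.sum_const, ← Finset.mul_sum, nsmul_eq_mul] at h3 h4
  have h5 : ∑ t ∈ A, ∑ s ∈ C, B ρ φ (ρ (swap s t) x) x =
      ∑ s ∈ C, ∑ t ∈ A, B ρ φ (ρ (swap t s) x) x := by
    rw [Finset.sum_comm]
    exact Finset.sum_congr rfl fun s _ => Finset.sum_congr rfl fun t _ => by rw [swap_comm]
  rw [h5] at h4
  have h6 := B_pos ρ hφ
  have h7 : (C.card : ℚ) < A.card := by exact_mod_cast hlt
  nlinarith [h3, h4, h6, h7]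

/-- The number of points of the colour `i`. -/
def cnt (c : Ω → I) (i : I) : ℕ := (univ.filter fun s => c s = i).card

/-- The numbers of points of colours of the same parity differ by at most one. -/
def Balanced (e : I → ℚ) (c : Ω → I) : Prop := ∀ i j, e i = e j → cnt c i ≤ cnt c j + 1

lemma cnt_update_same {c : Ω → I} {i j : I} (hij : i ≠ j) {t : Ω} (ht : c t = i) :
    cnt (Function.update c t j) i + 1 = cnt c i := by
  classical
  unfold cnt
  have h1 : (univ.filter fun s => Function.update c t j s = i) =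
      (univ.filter fun s => c s = i).erase t := by
    ext s
    simp only [mem_filter, mem_univ, true_and, mem_erase]
    rcases eq_or_ne s t with h | h
    · subst h
      rw [Function.update_self]
      simp [hij.symm]
    · rw [Function.update_of_ne h]
      simp [h]
  rw [h1, Finset.card_erase_add_one]
  simp [ht]

lemma cnt_update_other {c : Ω → I} {i j : I} (hij : i ≠ j) {t : Ω} (ht : c t = i) :
    cnt (Function.update c t j) j = cnt c j + 1 := by
  classical
  unfold cnt
  have h1 : (univ.filter fun s => Function.update c t j s = j) =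
      insert t (univ.filter fun s => c s = j) := by
    ext s
    simp only [mem_filter, mem_univ, true_and, mem_insert]
    rcases eq_or_ne s t with h | h
    · subst h
      simp
    · rw [Function.update_of_ne h]
      simp [h]
  rw [h1, Finset.card_insert_of_notMem]
  simp only [mem_filter, mem_univ, true_and]
  rw [ht]
  exact hij

lemma cnt_update_third {c : Ω → I} {i j l : I} (hli : l ≠ i) (hlj : l ≠ j) {t : Ω}
    (ht : c t = i) : cnt (Function.update c t j) l = cnt c l := by
  classical
  unfold cnt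
  congr 1
  ext s
  simp only [mem_filter, mem_univ, true_and]
  rcases eq_or_ne s t with h | h
  · subst h
    rw [Function.update_self, ht]
    exact ⟨fun h => absurd h.symm hlj, fun h => absurd h.symm hli⟩
  · rw [Function.update_of_ne h]

variable [Fintype I]

/-- **Balancing.** -/
theorem balance {e : I → ℚ} (he : ∀ i, e i * e i = 1) {c : Ω → I} {x : M} (hx0 : x ≠ 0)
    (hx : Col ρ e c x) : ∃ c' : Ω → I, Balanced e c' ∧ ∃ y : M, y ≠ 0 ∧ Col ρ e c' y := by
  classical
  induction hm : ∑ i, cnt c i ^ 2 using Nat.strong_induction_on generalizing c x with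
  | _ m ih =>
    by_cases hb : Balanced e c
    · exact ⟨c, hb, x, hx0, hx⟩
    unfold Balanced at hb
    push Not at hb
    obtain ⟨i, j, heij, hlt⟩ := hb
    have hij : i ≠ j := by
      rintro rfl
      omega
    obtain ⟨t, ht, y, hy0, hy⟩ := move ρ he hx0 hx hij heij (show cnt c j < cnt c i by omega)
    refine ih (∑ l, cnt (Function.update c t j) l ^ 2) ?_ hy0 hy rfl
    rw [← hm, ← Finset.add_sum_erase univ _ (Finset.mem_univ i),
      ← Finset.add_sum_erase univ (fun l => cnt c l ^ 2) (Finset.mem_univ i),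
      ← Finset.add_sum_erase (univ.erase i) _ (Finset.mem_erase.2 ⟨hij.symm, Finset.mem_univ j⟩),
      ← Finset.add_sum_erase (univ.erase i) (fun l => cnt c l ^ 2)
        (Finset.mem_erase.2 ⟨hij.symm, Finset.mem_univ j⟩)]
    have h1 : ∑ l ∈ (univ.erase i).erase j, cnt (Function.update c t j) l ^ 2 =
        ∑ l ∈ (univ.erase i).erase j, cnt c l ^ 2 := by
      refine Finset.sum_congr rfl fun l hl => ?_
      rw [Finset.mem_erase, Finset.mem_erase] at hl
      rw [cnt_update_third hl.2.1 hl.1 ht]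
    have h2 := cnt_update_same hij ht
    have h3 := cnt_update_other hij ht
    rw [h1, h3]
    set p := cnt (Function.update c t j) i
    set r := cnt c j
    rw [← h2]
    have h4 : r < p := by omega
    nlinarith [h4]

end Run7.h200.Col
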