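import Pool.Agent.X252.SCT
import Pool.Agent.H914R2.KLef

/-!
# Group actions and the Lefschetz standard conjecture: definitions
-/

set_option autoImplicit false

open CategoryTheory AlgebraicGeometry Finset

universe u v

namespace Run7.h200.GB

open Pool.Agent.H914 VarClass Obj WeilCohomology Pool.Agent.X252.GA Pool.Agent.X310.Mu
  Pool.Agent.X252.SCK Pool.Agent.X252.SCT

variable {k : Type u} [Field k] {𝒱 : VarClass k} {ops : CycleOps 𝒱}

/-- The map `ξ ^ (n - i)`, where `ξ` is the class of the divisor `D` and `n = dim X`. -/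
noncomputable def lef (W : WeilCohomology.{u, v} ops) {X : 𝒱.Obj} (D : X.Cycles) (i : ℕ)
    (x : W.H X) : W.H X :=
  W.cl X D ^ (X.dim - i) * x

/-- The inverse of the Lefschetz isomorphism `ξ ^ (n - i) : H^i(X) → H^(2n - i)(X)` is given by an
algebraic cycle of codimension `i` on `X × X`. -/
def InverseAlg (W : WeilCohomology.{u, v} ops) (X : 𝒱.Obj) (D : X.Cycles) (i : ℕ) : Prop :=
  ∃ z, (X.prod X).IsCyc i z ∧ ∀ x ∈ W.gr X i, cyAct W z (lef W D i x) = x

/-- The same for the quotient `X/H`: some cycle of codimension `i` on `X × X` sends `ξ ^ (n - i) x`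
to the sum of the translates of `x` by the elements of `H`, for all `x` in `H^i(X)`. -/
def QuotientInverse (W : WeilCohomology.{u, v} ops) {X : 𝒱.Obj} {G : Type} [Group G]
    (a : G →* Aut X) (D : X.Cycles) (H : Subgroup G) (i : ℕ) : Prop :=
  ∃ z, (X.prod X).IsCyc i z ∧ ∀ x ∈ W.gr X i,
    cyAct W z (lef W D i x) = ∑ᶠ h : H, gPull W a h.1 x

/-- The class of the divisor is invariant under the group. -/
def InvariantClass (W : WeilCohomology.{u, v} ops) {X : 𝒱.Obj} {G : Type} [Group G]
    (a : G →* Aut X) (D : X.Cycles) : Prop :=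
  ∀ g, gPull W a g (W.cl X D) = W.cl X D

/-- Every irreducible rational representation of `G` which occurs in `H^i(X)` and has a nonzero
vector fixed by `H` has for some `j` a nonzero vector fixed by `D j`. -/
def DominatedIn (W : WeilCohomology.{u, v} ops) {X : 𝒱.Obj} {G : Type} [Group G]
    (a : G →* Aut X) (i : ℕ) {ι : Type} (H : Subgroup G) (D : ι → Subgroup G) : Prop :=
  ∀ (V : Type) [AddCommGroup V] [Module ℚ V] (ρ : G →* Module.End ℚ V), Irred ρ →
    OccursIn W a {i} ρ →
    (∃ v : V, v ≠ 0 ∧ ∀ h ∈ H, ρ h v = v) → ∃ j, ∃ v : V, v ≠ 0 ∧ ∀ d ∈ D j, ρ d v = v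

/-- Some nonzero irreducible rational representation of `G` occurs in `H^i(X)`, and the elements of
`G` different from one fix only `0` in it. -/
def FreeIn (W : WeilCohomology.{u, v} ops) {X : 𝒱.Obj} {G : Type} [Group G]
    (a : G →* Aut X) (i : ℕ) : Prop :=
  ∃ (V : Type) (_ : AddCommGroup V) (_ : Module ℚ V) (ρ : G →* Module.End ℚ V), Irred ρ ∧
    OccursIn W a {i} ρ ∧ (∃ v : V, v ≠ 0) ∧
    ∀ g : G, g ≠ 1 → ∀ v : V, ρ g v = v → v = 0

/-- The Lefschetz standard conjecture for the quotient `X/H`: the inverses of all Lefschetz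
isomorphisms of the cohomology `H^*(X/H)`, the invariants of `H` in `H^*(X)`, are algebraic. -/
def QuotientB (W : WeilCohomology.{u, v} ops) {X : 𝒱.Obj} {G : Type} [Group G]
    (a : G →* Aut X) (D : X.Cycles) (H : Subgroup G) : Prop :=
  ∀ i ≤ X.dim, QuotientInverse W a D H i

/-- `H ≤ K`, and the quotient `K/H` is cyclic. -/
def CyclicQuotient {G : Type} [Group G] (K H : Subgroup G) : Prop :=
  H ≤ K ∧ ∃ g ∈ K, ∀ k ∈ K, ∃ n : ℤ, g ^ n * k ∈ H

end Run7.h200.GB
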