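import Pool.Agent.X252.GB

/-!
# Positivity of invariant forms and fixed vectors
-/

set_option autoImplicit false

open Finset

namespace Run7.h200.HT

open Pool.Agent.X252.GA

/-! ### Real forms -/

lemma eq_zero_of_quad {F : Type*} [Field F] [LinearOrder F] [IsStrictOrderedRing F] {a c : F}
    (hc : 0 ≤ c) (h : ∀ t : F, 0 ≤ 2 * t * a + t ^ 2 * c) : a = 0 := by
  by_contra ha
  have h1 := h (-a / (c + 1))
  have h2 : (0 : F) < c + 1 := by linarith
  have h3 : 2 * (-a / (c + 1)) * a + (-a / (c + 1)) ^ 2 * c =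
      -(a ^ 2 * (c + 2)) / (c + 1) ^ 2 := by
    field_simp
    ring
  rw [h3] at h1
  have h4 : 0 < a ^ 2 * (c + 2) := by positivity
  have h5 : -(a ^ 2 * (c + 2)) / (c + 1) ^ 2 < 0 := div_neg_of_neg_of_pos (by linarith) (by positivity)
  linarith

/-- The smallest eigenvalue of a symmetric form relative to a positive definite one. -/
theorem exists_min {E : Type*} [AddCommGroup E] [Module ℝ E] [FiniteDimensional ℝ E]
    [Nontrivial E] (b q : E →ₗ[ℝ] E →ₗ[ℝ] ℝ) (hb : ∀ x y, b x y = b y x)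
    (hq : ∀ x y, q x y = q y x) (hpos : ∀ x, x ≠ 0 → 0 < b x x) :
    ∃ l : ℝ, (∀ w, l * b w w ≤ q w w) ∧ ∃ v, v ≠ 0 ∧ ∀ w, q v w = l * b v w := by
  let e := Module.finBasis ℝ E
  let φ : (Fin (Module.finrank ℝ E) → ℝ) ≃ₗ[ℝ] E := e.equivFun.symm
  have hcont : ∀ p : E →ₗ[ℝ] E →ₗ[ℝ] ℝ,
      Continuous fun x : Fin (Module.finrank ℝ E) → ℝ => p (φ x) (φ x) := by
    intro p
    have h1 : ∀ x, p (φ x) (φ x) = ∑ i, x i * (p (e i) ∘ₗ φ.toLinearMap) x := by
      intro x
      have h2 : p (φ x) = ∑ i, x i • p (e i) := by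
        rw [show φ x = ∑ i, x i • e i from e.equivFun_symm_apply x, map_sum]
        exact Finset.sum_congr rfl fun i _ => map_smul _ _ _
      rw [h2, LinearMap.sum_apply]
      rfl
    simp_rw [h1]
    exact continuous_finsetSum _ fun i _ =>
      (continuous_apply i).mul (LinearMap.continuous_of_finiteDimensional _)
  have hnt : Nontrivial (Fin (Module.finrank ℝ E) → ℝ) := φ.toEquiv.nontrivial
  have hpos' : ∀ x, x ≠ 0 → 0 < b (φ x) (φ x) := fun x hx => hpos _ (by
    rwa [Ne, LinearEquiv.map_eq_zero_iff])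
  obtain ⟨x0, hx0, hmin⟩ := (isCompact_sphere (0 : Fin (Module.finrank ℝ E) → ℝ) 1).exists_isMinOn
    (NormedSpace.sphere_nonempty.2 zero_le_one)
    (f := fun x => q (φ x) (φ x) / b (φ x) (φ x))
    ((hcont q).continuousOn.div (hcont b).continuousOn fun x hx => (hpos' x (by
      rintro rfl
      simp at hx)).ne')
  have hx00 : x0 ≠ 0 := by
    rintro rfl
    simp at hx0
  set l := q (φ x0) (φ x0) / b (φ x0) (φ x0) with hl
  have hle : ∀ w, l * b w w ≤ q w w := by
    intro w
    by_cases hw : w = 0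
    · rw [hw]; simp
    · set x := φ.symm w with hx
      have hwx : w = φ x := by rw [hx, LinearEquiv.apply_symm_apply]
      have hx1 : x ≠ 0 := by
        rw [hx, Ne, LinearEquiv.map_eq_zero_iff]
        exact hw
      have hn : 0 < ‖x‖ := norm_pos_iff.2 hx1
      have h1 := hmin (a := ‖x‖⁻¹ • x) (by
        rw [mem_sphere_zero_iff_norm, norm_smul, norm_inv, norm_norm, inv_mul_cancel₀ hn.ne'])
      simp only [Set.mem_ofPred_eq, map_smul, LinearMap.smul_apply, smul_eq_mul, ← hwx] at h1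
      have hbw := hpos w hw
      have h2 : ‖x‖⁻¹ * (‖x‖⁻¹ * q w w) / (‖x‖⁻¹ * (‖x‖⁻¹ * b w w)) = q w w / b w w := by
        field_simp
      rw [h2, ← hl, le_div_iff₀ hbw] at h1
      exact h1
  refine ⟨l, hle, φ x0, by rwa [Ne, LinearEquiv.map_eq_zero_iff], fun w => ?_⟩
  have h0 : q (φ x0) (φ x0) - l * b (φ x0) (φ x0) = 0 := by
    rw [hl, div_mul_cancel₀ _ (hpos' x0 hx00).ne', sub_self]
  have h1 : q (φ x0) w - l * b (φ x0) w = 0 := by
    refine eq_zero_of_quad (c := q w w - l * b w w) (by linarith [hle w]) fun t => ?_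
    have h2 := hle (φ x0 + t • w)
    simp only [map_add, map_smul, LinearMap.add_apply, LinearMap.smul_apply, smul_eq_mul] at h2
    rw [hq w, hb w] at h2
    nlinarith [h2, h0]
  linarith

/-- A rational form which is nonnegative on rational vectors is nonnegative on real vectors. -/
lemma psd_real {G : Type} [Fintype G] (M : G → G → ℚ)
    (h : ∀ y : G → ℚ, 0 ≤ ∑ k, ∑ l, y k * y l * M k l) (y : G → ℝ) :
    0 ≤ ∑ k, ∑ l, y k * y l * (M k l : ℝ) := by
  have hd : DenseRange (fun (z : G → ℚ) (k : G) => (z k : ℝ)) :=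
    DenseRange.piMap fun _ => Rat.denseRange_cast
  refine hd.induction_on (p := fun y : G → ℝ => 0 ≤ ∑ k, ∑ l, y k * y l * (M k l : ℝ)) y
    (isClosed_le continuous_const (by fun_prop)) ?_
  intro z
  beta_reduce
  exact_mod_cast h z

/-! ### The domination principle -/

variable {G : Type} [Group G]

/-- The representation `σ` occurs in the representation `ρ` modulo the subspace `P`. -/
def Occ {S : Type} [AddCommGroup S] [Module ℚ S] (σ : G →* Module.End ℚ S) {V : Type*}
    [AddCommGroup V] [Module ℚ V] (ρ : G →* Module.End ℚ V) (P : Submodule ℚ V) : Prop :=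
  ∃ f : S →+ V, (∀ g s, f (σ g s) = ρ g (f s)) ∧ ∃ s, f s ∉ P

/-- The group ring acts on a representation. -/
noncomputable def ring {V : Type*} [AddCommGroup V] [Module ℚ V] (ρ : G →* Module.End ℚ V) :
    MonoidAlgebra ℚ G →+* Module.End ℚ V :=
  (MonoidAlgebra.lift ℚ (Module.End ℚ V) G ρ).toRingHom

section
variable {V : Type*} [AddCommGroup V] [Module ℚ V] (ρ : G →* Module.End ℚ V)

lemma ring_single (g : G) (r : ℚ) : ring ρ (MonoidAlgebra.single g r) = r • ρ g := by
  change MonoidAlgebra.lift ℚ (Module.End ℚ V) G ρ (MonoidAlgebra.single g r) = r • ρ g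
  rw [MonoidAlgebra.lift_single]

lemma rmul (g h : G) (v : V) : ρ (g * h) v = ρ g (ρ h v) := by
  rw [map_mul]; rfl

lemma ring_mem {U : Submodule ℚ V} (hU : ∀ g, ∀ u ∈ U, ρ g u ∈ U) (x : MonoidAlgebra ℚ G) {u : V}
    (hu : u ∈ U) : ring ρ x u ∈ U := by
  induction x using MonoidAlgebra.induction_linear with
  | zero => rw [map_zero]; exact U.zero_mem
  | add f g hf hg => rw [map_add]; exact U.add_mem hf hg
  | single g r =>
    rw [ring_single]
    exact U.smul_mem r (hU g u hu)

variable [Fintype G]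

lemma ring_nA (H : Subgroup G) [DecidablePred (· ∈ H)] (v : V) :
    ring ρ (nA H) v = ∑ g : G with g ∈ H, ρ g v := by
  classical
  unfold nA
  rw [map_sum, LinearMap.sum_apply]
  refine Finset.sum_congr (by ext; simp) fun g _ => ?_
  rw [ring_single, one_smul]

/-- The order of a subgroup, as a rational number. -/
noncomputable def ord (H : Subgroup G) : ℚ := by
  classical
  exact ((Finset.univ.filter fun g : G => g ∈ H).card : ℚ)

lemma ord_pos (H : Subgroup G) : 0 < ord H := by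
  classical
  unfold ord
  have : (Finset.univ.filter fun g : G => g ∈ H).Nonempty := ⟨1, by simp [H.one_mem]⟩
  exact_mod_cast Finset.card_pos.2 this

lemma ring_nA_fixed (H : Subgroup G) {v : V} (hv : ∀ h ∈ H, ρ h v = v) :
    ring ρ (nA H) v = ord H • v := by
  classical
  rw [ring_nA, Finset.sum_congr rfl (g := fun _ => v) (fun d hd => hv d (by simpa using hd)),
    Finset.sum_const, ← Nat.cast_smul_eq_nsmul ℚ]
  unfold ord
  congr!

lemma fixed_ring_nA (H : Subgroup G) (v : V) {d : G} (hd : d ∈ H) :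
    ρ d (ring ρ (nA H) v) = ring ρ (nA H) v := by
  have h1 : ρ d (ring ρ (nA H) v) =
      ring ρ (MonoidAlgebra.single d (1 : ℚ) * nA H) v := by
    rw [map_mul, ring_single, one_smul]; rfl
  rw [h1, single_mul_nA hd]

end

/-- **The domination principle.** -/
theorem dom_principle [Fintype G] {V M : Type*} [AddCommGroup V] [Module ℚ V] [AddCommGroup M]
    [Module ℚ M] (ρ : G →* Module.End ℚ V) (τ : G →* Module.End ℚ M) {P : Submodule ℚ V}
    {U N : Submodule ℚ M} (hP : ∀ g, ∀ u ∈ P, ρ g u ∈ P)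
    (hU : ∀ g, ∀ u ∈ U, τ g u ∈ U) (hN : ∀ g, ∀ u ∈ N, τ g u ∈ N)
    (hann : ∀ a, (∀ v, ring ρ a v ∈ P) → ∀ u ∈ U, ring τ a u ∈ N) {H : Subgroup G} {ι : Type}
    {E : ι → Subgroup G}
    (hdom : ∀ (S : Type) [AddCommGroup S] [Module ℚ S] (σ : G →* Module.End ℚ S), Irred σ →
      Occ σ ρ P → (∃ v : S, v ≠ 0 ∧ ∀ h ∈ H, σ h v = v) →
        ∃ j, ∃ v : S, v ≠ 0 ∧ ∀ d ∈ E j, σ d v = v)
    {x : M} (hxU : x ∈ U) (hx : ∀ h ∈ H, τ h x = x) (hxN : x ∉ N) :
    ∃ j, ∃ u ∈ U, (∀ d ∈ E j, τ d u = u) ∧ u ∉ N := by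
  classical
  by_contra hcon
  push Not at hcon
  let I : Ideal (MonoidAlgebra ℚ G) :=
    { carrier := {a | ∀ u ∈ U, ring τ a u ∈ N}
      add_mem' := fun {a b} ha hb u hu => by
        rw [map_add]
        exact N.add_mem (ha u hu) (hb u hu)
      zero_mem' := fun u hu => by
        rw [map_zero]
        exact N.zero_mem
      smul_mem' := fun c a ha u hu => by
        rw [smul_eq_mul, map_mul]
        exact ring_mem τ hN c (ha u hu) }
  have hmem : ∀ a, a ∈ I ↔ ∀ u ∈ U, ring τ a u ∈ N := fun a => Iff.rfl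
  have hI : ∀ a ∈ I, ∀ c, a * c ∈ I := by
    intro a ha c
    rw [hmem] at ha ⊢
    intro u hu
    rw [map_mul]
    exact ha _ (ring_mem τ hU c hu)
  have hH : nA H ∉ I := by
    intro h
    have h1 := (hmem _).1 h x hxU
    rw [ring_nA_fixed τ H hx] at h1
    apply hxN
    have h2 := N.smul_mem (ord H)⁻¹ h1
    rwa [smul_smul, inv_mul_cancel₀ (ord_pos H).ne', one_smul] at h2
  apply hH
  let _ : Module (MonoidAlgebra ℚ G) V := Module.compHom V (ring ρ)
  have hsm : ∀ (a : MonoidAlgebra ℚ G) (v : V), a • v = ring ρ a v := fun _ _ => rfl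
  have : NeZero (Nat.card G : ℚ) := ⟨by exact_mod_cast Nat.card_pos.ne'⟩
  have hss : IsSemisimpleRing (MonoidAlgebra ℚ G) := inferInstance
  let P' : Submodule (MonoidAlgebra ℚ G) V :=
    { carrier := P
      add_mem' := fun ha hb => P.add_mem ha hb
      zero_mem' := P.zero_mem
      smul_mem' := fun a v hv => ring_mem ρ hP a hv }
  refine mem_of_dominatedOn (H := H) (D := E) (fun S _ _ σ => Occ σ ρ P) ?_ I hI ?_ ?_
  · intro S _ _ σ hσ ho hv
    exact hdom S σ hσ ho hv
  · intro j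
    rw [hmem]
    intro u hu
    exact hcon j _ (ring_mem τ hU _ hu) fun d hd => fixed_ring_nA τ (E j) u hd
  · intro S hS
    obtain ⟨n, -, f, hf, s, hs⟩ := exists_hom I hI S (Set.univ : Set (V ⧸ P')) (fun a ha => by
      rw [hmem]
      refine hann a fun v => ?_
      have h1 := ha (Submodule.Quotient.mk v) trivial
      rw [← Submodule.Quotient.mk_smul, Submodule.Quotient.mk_eq_zero] at h1
      exact h1)
    obtain ⟨f', hf'⟩ := IsSemisimpleModule.lifting_property P'.mkQ P'.mkQ_surjective f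
    refine ⟨f'.toAddMonoidHom, ?_, s, ?_⟩
    · intro g v
      change f' (repOf S g v) = ρ g (f' v)
      rw [repOf_apply, map_smul, hsm, ring_single, one_smul]
    · intro h
      apply hs
      rw [← hf']
      change Submodule.Quotient.mk (f' s) = 0
      rw [Submodule.Quotient.mk_eq_zero]
      exact h

end Run7.h200.HT
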