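import Pool.Agent.X252.SCT
import Pool.Agent.H914R2.HodgeDefs

/-!
# Group actions and the conjecture of Hodge type: definitions
-/

set_option autoImplicit false

open CategoryTheory AlgebraicGeometry Finset

universe u v

namespace Run7.h200.HG

open Pool.Agent.H914 VarClass Obj WeilCohomology Pool.Agent.X252.GA Pool.Agent.X252.SCT

variable {k : Type u} [Field k] {𝒱 : VarClass k} {ops : CycleOps 𝒱}

/-- The cycle `z` of codimension `j` is numerically equivalent to zero. -/
def NumZero (ops : CycleOps 𝒱) (X : 𝒱.Obj) (j : ℕ) (z : X.Cycles) : Prop :=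
  ∀ i w, i + j = X.dim → X.IsCyc i w → X.V.degCycle (ops.mul z w) = 0

/-- The cycle `z` is homologically equivalent to zero. -/
def HomZero (W : WeilCohomology.{u, v} ops) (X : 𝒱.Obj) (_ : ℕ) (z : X.Cycles) : Prop :=
  W.cl X z = 0

/-- The cycles `z` of codimension `j` with `R j z` are those equivalent to zero for an equivalence
relation between homological and numerical equivalence which is stable under the group. -/
structure Between (W : WeilCohomology.{u, v} ops) {X : 𝒱.Obj} {G : Type} [Group G]
    (a : G →* Aut X) (R : ℕ → X.Cycles → Prop) : Prop where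
  hom : ∀ j z, X.IsCyc j z → W.cl X z = 0 → R j z
  add : ∀ j z w, X.IsCyc j z → X.IsCyc j w → R j z → R j w → R j (z + w)
  smul : ∀ j (r : ℚ) z, X.IsCyc j z → R j z → R j (r • z)
  pull : ∀ j g z, X.IsCyc j z → R j z → R j (ops.pull (a g).hom z)
  num : ∀ j z, X.IsCyc j z → R j z → NumZero ops X j z

/-- The number `(-1) ^ j (z · z · D ^ (n - 2 j))`, where `n = dim X`. -/
noncomputable def hodgeSq (ops : CycleOps 𝒱) {X : 𝒱.Obj} (D : X.Cycles) (j : ℕ)
    (z : X.Cycles) : ℚ :=
  (-1 : ℚ) ^ j * X.V.degCycle (ops.mul z (divPow ops D (X.dim - 2 * j) z))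

/-- The cycle `z` of codimension `j` is primitive: `D ^ (n - 2 j + 1) z` is equivalent to zero. -/
def Prim (ops : CycleOps 𝒱) {X : 𝒱.Obj} (D : X.Cycles) (R : ℕ → X.Cycles → Prop) (j : ℕ)
    (z : X.Cycles) : Prop :=
  X.IsCyc j z ∧ R (X.dim - j + 1) (divPow ops D (X.dim - 2 * j + 1) z)

/-- The conjecture of Hodge type in codimension `j` for the quotient `X/H`: for all primitive cycles
`z` of codimension `j` which are not equivalent to zero, but equivalent to their translates by the
elements of `H`, the sign of `z · z · D ^ (n - 2 j)` is `(-1) ^ j`. -/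
def HodgeIn (ops : CycleOps 𝒱) {X : 𝒱.Obj} {G : Type} [Group G] (a : G →* Aut X) (D : X.Cycles)
    (R : ℕ → X.Cycles → Prop) (H : Subgroup G) (j : ℕ) : Prop :=
  ∀ z, Prim ops D R j z → ¬ R j z → (∀ h ∈ H, R j (ops.pull (a h).hom z - z)) →
    0 < hodgeSq ops D j z

/-- The conjecture of Hodge type for the quotient `X/H`, in all codimensions `j` with
`2 j ≤ n`. -/
def QuotientHodge (ops : CycleOps 𝒱) {X : 𝒱.Obj} {G : Type} [Group G] (a : G →* Aut X)
    (D : X.Cycles) (R : ℕ → X.Cycles → Prop) (H : Subgroup G) : Prop :=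
  ∀ j, 2 * j ≤ X.dim → HodgeIn ops a D R H j

/-- The class of the divisor is invariant under the group. -/
def InvClass (W : WeilCohomology.{u, v} ops) {X : 𝒱.Obj} {G : Type} [Group G]
    (a : G →* Aut X) (D : X.Cycles) : Prop :=
  ∀ g, gPull W a g (W.cl X D) = W.cl X D

/-- The representation `σ` occurs in the equivalence classes of primitive cycles of codimension `j`:
there is an equivariant homomorphism to the cohomology of `X` whose values are classes of primitive
cycles, not all of them equivalent to zero; `g` acts as the pull-back by `g⁻¹`. -/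
def OccursPrim (W : WeilCohomology.{u, v} ops) {X : 𝒱.Obj} {G : Type} [Group G]
    (a : G →* Aut X) (D : X.Cycles) (R : ℕ → X.Cycles → Prop) (j : ℕ) {S : Type} [AddCommGroup S]
    [Module ℚ S] (σ : G →* Module.End ℚ S) : Prop :=
  ∃ f : S →+ W.H X, (∀ s, ∃ z, Prim ops D R j z ∧ W.cl X z = f s) ∧
    (∀ g s, f (σ g s) = gPull W a g⁻¹ (f s)) ∧ ∃ s z, X.IsCyc j z ∧ W.cl X z = f s ∧ ¬ R j z

/-- Every irreducible rational representation of `G` which occurs in the primitive cycles of
codimension `j` and has a nonzero vector fixed by `H` has for some `i` a nonzero vector fixed by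
`E i`. -/
def DominatedPrim (W : WeilCohomology.{u, v} ops) {X : 𝒱.Obj} {G : Type} [Group G]
    (a : G →* Aut X) (D : X.Cycles) (R : ℕ → X.Cycles → Prop) (j : ℕ) {ι : Type} (H : Subgroup G)
    (E : ι → Subgroup G) : Prop :=
  ∀ (S : Type) [AddCommGroup S] [Module ℚ S] (σ : G →* Module.End ℚ S), Irred σ →
    OccursPrim W a D R j σ → (∃ v : S, v ≠ 0 ∧ ∀ h ∈ H, σ h v = v) →
      ∃ i, ∃ v : S, v ≠ 0 ∧ ∀ d ∈ E i, σ d v = v

/-- Some nonzero irreducible rational representation of `G` occurs in the primitive cycles of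
codimension `j`, and the elements of `G` different from one fix only `0` in it. -/
def FreePrim (W : WeilCohomology.{u, v} ops) {X : 𝒱.Obj} {G : Type} [Group G]
    (a : G →* Aut X) (D : X.Cycles) (R : ℕ → X.Cycles → Prop) (j : ℕ) : Prop :=
  ∃ (S : Type) (_ : AddCommGroup S) (_ : Module ℚ S) (σ : G →* Module.End ℚ S), Irred σ ∧
    OccursPrim W a D R j σ ∧ (∃ v : S, v ≠ 0) ∧ ∀ g : G, g ≠ 1 → ∀ v : S, σ g v = v → v = 0

end Run7.h200.HG
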