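import Pool.Agent.Run7.h200.HTPos
import Pool.Agent.Run7.h200.HTDefs
import Pool.Agent.Run7.h200.AbDom

/-!
# Group actions and the conjecture of Hodge type
-/

set_option autoImplicit false

open CategoryTheory AlgebraicGeometry Finset

universe u v

namespace Run7.h200.HG

open Pool.Agent.H914 VarClass Obj WeilCohomology Pool.Agent.X252.GA Pool.Agent.X252.SCT
  Run7.h200.HT Pool.Agent.X328.PB

variable {k : Type u} [Field k] {𝒱 : VarClass k} {ops : CycleOps 𝒱}

section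
variable {W : WeilCohomology.{u, v} ops} {X : 𝒱.Obj}

lemma cl_dp (D : X.Cycles) (i : ℕ) (z : X.Cycles) :
    W.cl X (divPow ops D i z) = W.cl X D ^ i * W.cl X z := by
  induction i with
  | zero => rw [pow_zero, one_mul]; rfl
  | succ i ih =>
    rw [divPow, Function.iterate_succ_apply', W.cl_mul, pow_succ', mul_assoc, ← ih]
    rfl

lemma dp_mem {D : X.Cycles} (hD : X.IsCyc 1 D) (i : ℕ) {j : ℕ} {z : X.Cycles}
    (hz : X.IsCyc j z) : X.IsCyc (j + i) (divPow ops D i z) := by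
  induction i with
  | zero => exact hz
  | succ i ih =>
    rw [divPow, Function.iterate_succ_apply', show j + (i + 1) = 1 + (j + i) by omega]
    exact ops.mul_mem hD ih

lemma xi_pow_mem {D : X.Cycles} (hD : X.IsCyc 1 D) (i : ℕ) :
    W.cl X D ^ i ∈ W.gr X (2 * i) := by
  induction i with
  | zero => rw [pow_zero]; exact W.one_mem X
  | succ i ih =>
    rw [pow_succ, show 2 * (i + 1) = 2 * i + 2 * 1 by ring]
    exact W.mul_mem ih (W.cl_mem hD)

lemma tr_xi {D : X.Cycles} (hD : X.IsCyc 1 D) (hHL : HardLefschetz W X D)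
    (h1 : (1 : W.H X) ≠ 0) : W.tr X (W.cl X D ^ X.dim) ≠ 0 := by
  intro h0
  have h2 : W.cl X D ^ X.dim = 0 := by
    apply W.nondeg
    intro b
    refine gr_induction (W.isInternal X)
      (p := fun b => W.tr X (W.cl X D ^ X.dim * b) = 0) ?_ ?_ b
    · intro i b hb
      by_cases hi : i = 0
      · subst hi
        rw [W.gr_zero] at hb
        obtain ⟨c, rfl⟩ := Submodule.mem_span_singleton.1 hb
        rw [mul_smul_comm, mul_one, map_smul, h0, smul_zero]
      · exact W.tr_eq_zero (W.mul_mem (xi_pow_mem hD _) hb) (by omega)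
    · intro b b' hb hb'
      rw [mul_add, map_add, hb, hb', add_zero]
  apply h1
  refine (hHL 0 (Nat.zero_le _)).1 1 (W.one_mem X) ?_
  rw [Nat.sub_zero, LinearMap.pow_mulLeft, LinearMap.mulLeft_apply, h2, zero_mul]

/-- Automorphisms which preserve the class of a divisor with hard Lefschetz preserve the
orientation. -/
lemma tr_aut {D : X.Cycles} (hD : X.IsCyc 1 D) (hHL : HardLefschetz W X D) (g : X ⟶ X)
    (hg : W.map g (W.cl X D) = W.cl X D) (x : W.H X) : W.tr X (W.map g x) = W.tr X x := by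
  by_cases h1 : (1 : W.H X) = 0
  · have h2 : x = 0 := by rw [← one_mul x, h1, zero_mul]
    rw [h2, map_zero]
  have h2 := W.push_mem g (W.one_mem X)
  have h3 : ((0 : ℕ) : ℤ) + 2 * ((X.dim : ℤ) - X.dim) = ((0 : ℕ) : ℤ) := by push_cast; ring
  rw [h3, grZ_natCast, W.gr_zero] at h2
  obtain ⟨c, hc⟩ := Submodule.mem_span_singleton.1 h2
  have h4 : ∀ b, W.tr X (W.map g b) = c * W.tr X b := by
    intro b
    have h5 := W.tr_push g 1 b
    rw [one_mul, ← hc, smul_mul_assoc, one_mul, map_smul, smul_eq_mul] at h5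
    exact h5.symm
  have h6 := h4 (W.cl X D ^ X.dim)
  rw [map_pow, hg] at h6
  have h7 : c = 1 := by
    have h8 := tr_xi (W := W) hD hHL h1
    have h9 : (c - 1) * W.tr X (W.cl X D ^ X.dim) = 0 := by rw [sub_mul, ← h6]; ring
    rcases mul_eq_zero.1 h9 with h | h
    · exact sub_eq_zero.1 h
    · exact absurd h h8
  rw [h4, h7, one_mul]

/-- The cohomology as a rational vector space. -/
@[reducible] noncomputable def ratMod (W : WeilCohomology.{u, v} ops) (X : 𝒱.Obj) :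
    Module ℚ (W.H X) :=
  Module.compHom (W.H X) (algebraMap ℚ W.K)

attribute [local instance] ratMod

lemma rat_smul (r : ℚ) (x : W.H X) : r • x = (r : W.K) • x := rfl

variable {G : Type} [Group G] {a : G →* Aut X} {D : X.Cycles} {R : ℕ → X.Cycles → Prop}

lemma Between.congr (hR : Between W a R) {j : ℕ} {z w : X.Cycles} (hz : X.IsCyc j z)
    (hw : X.IsCyc j w) (h : W.cl X z = W.cl X w) (hRz : R j z) : R j w := by
  have h1 : X.IsCyc j (w - z) := by
    rw [sub_eq_add_neg, ← neg_one_smul ℚ z]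
    exact hw.add (hz.smul (-1))
  have h2 := hR.add j z (w - z) hz h1 hRz (hR.hom j _ h1 (by rw [map_sub, h, sub_self]))
  rwa [add_sub_cancel] at h2

lemma isCyc_sub {j : ℕ} {z w : X.Cycles} (hz : X.IsCyc j z) (hw : X.IsCyc j w) :
    X.IsCyc j (z - w) := by
  rw [sub_eq_add_neg, ← neg_one_smul ℚ w]
  exact hz.add (hw.smul (-1))

/-- The classes of primitive cycles. -/
noncomputable def VV (hD : X.IsCyc 1 D) (hR : Between W a R) (j : ℕ) (hj : 2 * j ≤ X.dim) :
    Submodule ℚ (W.H X) where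
  carrier := {c | ∃ z, Prim ops D R j z ∧ W.cl X z = c}
  add_mem' := by
    rintro _ _ ⟨z, ⟨hz, hz'⟩, rfl⟩ ⟨w, ⟨hw, hw'⟩, rfl⟩
    have e : j + (X.dim - 2 * j + 1) = X.dim - j + 1 := by omega
    have h1 := dp_mem (ops := ops) hD (X.dim - 2 * j + 1) hz
    have h2 := dp_mem (ops := ops) hD (X.dim - 2 * j + 1) hw
    have h3 := dp_mem (ops := ops) hD (X.dim - 2 * j + 1) (hz.add hw)
    rw [e] at h1 h2 h3
    exact ⟨z + w, ⟨hz.add hw, hR.congr (h1.add h2) h3 (by
      rw [map_add, cl_dp, cl_dp, cl_dp, map_add, mul_add]) (hR.add _ _ _ h1 h2 hz' hw')⟩,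
      map_add _ _ _⟩
  zero_mem' := by
    have e : j + (X.dim - 2 * j + 1) = X.dim - j + 1 := by omega
    have h3 := dp_mem (ops := ops) hD (X.dim - 2 * j + 1) (SmVar.IsCyc.zero X.V j)
    rw [e] at h3
    exact ⟨0, ⟨SmVar.IsCyc.zero _ _, hR.hom _ _ h3 (by rw [cl_dp, map_zero, mul_zero])⟩, map_zero _⟩
  smul_mem' := by
    rintro r _ ⟨z, ⟨hz, hz'⟩, rfl⟩
    have e : j + (X.dim - 2 * j + 1) = X.dim - j + 1 := by omega
    have h1 := dp_mem (ops := ops) hD (X.dim - 2 * j + 1) hz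
    have h3 := dp_mem (ops := ops) hD (X.dim - 2 * j + 1) (hz.smul r)
    rw [e] at h1 h3
    exact ⟨r • z, ⟨hz.smul r, hR.congr (h1.smul r) h3 (by
      rw [cl_smul, cl_dp, cl_dp, cl_smul, mul_smul_comm]) (hR.smul _ r _ h1 hz')⟩, cl_smul _ _ _⟩

/-- The classes of primitive cycles which are equivalent to zero. -/
noncomputable def NN (hD : X.IsCyc 1 D) (hR : Between W a R) (j : ℕ) (hj : 2 * j ≤ X.dim) :
    Submodule ℚ (VV hD hR j hj) where
  carrier := {c | ∃ z, X.IsCyc j z ∧ R j z ∧ W.cl X z = c.1}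
  add_mem' := by
    rintro c d ⟨z, hz, hz', h⟩ ⟨w, hw, hw', h'⟩
    exact ⟨z + w, hz.add hw, hR.add _ _ _ hz hw hz' hw', by rw [map_add, h, h']; rfl⟩
  zero_mem' := ⟨0, SmVar.IsCyc.zero _ _, hR.hom _ _ (SmVar.IsCyc.zero _ _) (map_zero _),
    map_zero _⟩
  smul_mem' := by
    rintro r c ⟨z, hz, hz', h⟩
    exact ⟨r • z, hz.smul r, hR.smul _ r _ hz hz', by rw [cl_smul, h]; rfl⟩

lemma not_R_of {hD : X.IsCyc 1 D} {hR : Between W a R} {j : ℕ} {hj : 2 * j ≤ X.dim}
    {c : VV hD hR j hj} (hc : c ∉ NN hD hR j hj) {z : X.Cycles} (hz : X.IsCyc j z)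
    (h : W.cl X z = c.1) : ¬ R j z := fun h' => hc ⟨z, hz, h', h⟩

lemma R_of {hD : X.IsCyc 1 D} {hR : Between W a R} {j : ℕ} {hj : 2 * j ≤ X.dim}
    {c : VV hD hR j hj} (hc : c ∈ NN hD hR j hj) {z : X.Cycles} (hz : X.IsCyc j z)
    (h : W.cl X z = c.1) : R j z := by
  obtain ⟨w, hw, hw', h'⟩ := hc
  exact hR.congr hw hz (by rw [h, h']) hw'

variable (W a) in
/-- The action on the cohomology. -/
noncomputable def rep : G →* Module.End ℚ (W.H X) where
  toFun g :=
    { toFun := fun x => gPull W a g⁻¹ x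
      map_add' := fun x y => map_add (W.map (a g⁻¹).hom) x y
      map_smul' := fun r x => map_smul (W.map (a g⁻¹).hom) (r : W.K) x }
  map_one' := by
    ext x
    change W.map (a 1⁻¹).hom x = x
    rw [inv_one, map_one]
    exact W.map_id X x
  map_mul' g h := by
    ext x
    change W.map (a (g * h)⁻¹).hom x = W.map (a g⁻¹).hom (W.map (a h⁻¹).hom x)
    rw [mul_inv_rev, map_mul]
    exact W.map_comp (a g⁻¹).hom (a h⁻¹).hom x

lemma rep_apply (g : G) (x : W.H X) : rep W a g x = W.map (a g⁻¹).hom x := rfl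

lemma rep_VV (hD : X.IsCyc 1 D) (hR : Between W a R) (hinv : InvClass W a D) (j : ℕ)
    (hj : 2 * j ≤ X.dim) (g : G) (x : W.H X) (hx : x ∈ VV hD hR j hj) :
    rep W a g x ∈ VV hD hR j hj := by
  obtain ⟨z, ⟨hz, hz'⟩, rfl⟩ := hx
  have e : j + (X.dim - 2 * j + 1) = X.dim - j + 1 := by omega
  have h1 := dp_mem (ops := ops) hD (X.dim - 2 * j + 1) hz
  have h3 := dp_mem (ops := ops) hD (X.dim - 2 * j + 1) (ops.pull_mem (a g⁻¹).hom hz)
  rw [e] at h1 h3
  refine ⟨ops.pull (a g⁻¹).hom z, ⟨ops.pull_mem _ hz, ?_⟩, ?_⟩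
  · refine hR.congr (ops.pull_mem (a g⁻¹).hom h1) h3 ?_ (hR.pull _ g⁻¹ _ h1 hz')
    have h4 := hinv g⁻¹
    rw [gPull] at h4
    rw [W.cl_pull, cl_dp, cl_dp, map_mul, map_pow, h4, W.cl_pull]
  · rw [W.cl_pull, rep_apply]

/-- The action on the classes of primitive cycles. -/
noncomputable def repV (hD : X.IsCyc 1 D) (hR : Between W a R) (hinv : InvClass W a D) (j : ℕ)
    (hj : 2 * j ≤ X.dim) : G →* Module.End ℚ (VV hD hR j hj) where
  toFun g := (rep W a g).restrict (rep_VV hD hR hinv j hj g)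
  map_one' := by
    ext x
    change rep W a 1 x.1 = x.1
    rw [map_one]; rfl
  map_mul' g h := by
    ext x
    change rep W a (g * h) x.1 = rep W a g (rep W a h x.1)
    rw [map_mul]; rfl

lemma repV_coe (hD : X.IsCyc 1 D) (hR : Between W a R) (hinv : InvClass W a D) (j : ℕ)
    (hj : 2 * j ≤ X.dim) (g : G) (x : VV hD hR j hj) :
    (repV hD hR hinv j hj g x).1 = W.map (a g⁻¹).hom x.1 := rfl

lemma rep_NN (hD : X.IsCyc 1 D) (hR : Between W a R) (hinv : InvClass W a D) (j : ℕ)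
    (hj : 2 * j ≤ X.dim) (g : G) (x : VV hD hR j hj) (hx : x ∈ NN hD hR j hj) :
    repV hD hR hinv j hj g x ∈ NN hD hR j hj := by
  obtain ⟨z, hz, hz', h⟩ := hx
  exact ⟨ops.pull (a g⁻¹).hom z, ops.pull_mem _ hz, hR.pull _ g⁻¹ _ hz hz', by
    rw [W.cl_pull, h, repV_coe]⟩

/-- The form with values in the coefficient field. -/
noncomputable def val (W : WeilCohomology.{u, v} ops) {X : 𝒱.Obj} (D : X.Cycles) (j : ℕ)
    (x y : W.H X) : W.K :=
  (-1) ^ j * W.tr X (x * (W.cl X D ^ (X.dim - 2 * j) * y))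

lemma val_cl (hD : X.IsCyc 1 D) {j : ℕ} (hj : 2 * j ≤ X.dim) {z w : X.Cycles}
    (hz : X.IsCyc j z) (hw : X.IsCyc j w) :
    (((-1 : ℚ) ^ j * X.V.degCycle (ops.mul z (divPow ops D (X.dim - 2 * j) w)) : ℚ) : W.K) =
      val W D j (W.cl X z) (W.cl X w) := by
  rw [val, ← cl_dp, ← W.cl_mul, W.tr_cl]
  · push_cast
    rfl
  · have h := ops.mul_mem hz (dp_mem (ops := ops) hD (X.dim - 2 * j) hw)
    rwa [show j + (j + (X.dim - 2 * j)) = X.dim by omega] at h

/-- The form on the classes of primitive cycles. -/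
noncomputable def form (hD : X.IsCyc 1 D) (hR : Between W a R) (j : ℕ) (hj : 2 * j ≤ X.dim) :
    VV hD hR j hj →ₗ[ℚ] VV hD hR j hj →ₗ[ℚ] ℚ :=
  have key : ∀ x y : VV hD hR j hj,
      (((-1 : ℚ) ^ j * X.V.degCycle (ops.mul x.2.choose
        (divPow ops D (X.dim - 2 * j) y.2.choose)) : ℚ) : W.K) = val W D j x.1 y.1 := by
    intro x y
    have h := val_cl (W := W) (ops := ops) hD hj x.2.choose_spec.1.1 y.2.choose_spec.1.1
    rw [x.2.choose_spec.2, y.2.choose_spec.2] at h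
    exact h
  LinearMap.mk₂ ℚ (fun x y => (-1 : ℚ) ^ j * X.V.degCycle (ops.mul x.2.choose
    (divPow ops D (X.dim - 2 * j) y.2.choose)))
    (fun x x' y => by
      apply Rat.cast_injective (α := W.K)
      rw [Rat.cast_add, key, key, key, val, val, val, Submodule.coe_add, add_mul, map_add, mul_add])
    (fun c x y => by
      apply Rat.cast_injective (α := W.K)
      rw [smul_eq_mul, key, Rat.cast_mul c, key, val, val, Submodule.coe_smul, rat_smul,
        smul_mul_assoc, map_smul, smul_eq_mul]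
      ring)
    (fun x y y' => by
      apply Rat.cast_injective (α := W.K)
      rw [Rat.cast_add, key, key, key, val, val, val, Submodule.coe_add, mul_add, mul_add, map_add,
        mul_add])
    (fun c x y => by
      apply Rat.cast_injective (α := W.K)
      rw [smul_eq_mul, key, Rat.cast_mul c, key, val, val, Submodule.coe_smul, rat_smul,
        mul_smul_comm, mul_smul_comm, map_smul, smul_eq_mul]
      ring)

lemma form_cast (hD : X.IsCyc 1 D) (hR : Between W a R) (j : ℕ) (hj : 2 * j ≤ X.dim)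
    (x y : VV hD hR j hj) : ((form hD hR j hj x y : ℚ) : W.K) = val W D j x.1 y.1 := by
  have h := val_cl (W := W) (ops := ops) hD hj x.2.choose_spec.1.1 y.2.choose_spec.1.1
  rw [x.2.choose_spec.2, y.2.choose_spec.2] at h
  exact h

lemma form_eq (hD : X.IsCyc 1 D) (hR : Between W a R) (j : ℕ) (hj : 2 * j ≤ X.dim)
    (x y : VV hD hR j hj) {z w : X.Cycles} (hz : X.IsCyc j z) (hw : X.IsCyc j w)
    (hzx : W.cl X z = x.1) (hwy : W.cl X w = y.1) :
    form hD hR j hj x y =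
      (-1 : ℚ) ^ j * X.V.degCycle (ops.mul z (divPow ops D (X.dim - 2 * j) w)) := by
  apply Rat.cast_injective (α := W.K)
  rw [form_cast, val_cl (W := W) hD hj hz hw, hzx, hwy]

lemma form_symm (hD : X.IsCyc 1 D) (hR : Between W a R) (j : ℕ) (hj : 2 * j ≤ X.dim)
    (x y : VV hD hR j hj) : form hD hR j hj x y = form hD hR j hj y x := by
  apply Rat.cast_injective (α := W.K)
  rw [form_cast, form_cast, val, val]
  congr 2
  obtain ⟨z, hz, hzx⟩ := x.2
  obtain ⟨w, hw, hwy⟩ := y.2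
  have h1 := W.cl_mem hz.1
  have h2 := W.cl_mem hw.1
  rw [hzx] at h1
  rw [hwy] at h2
  rw [W.even_comm h1, mul_assoc, W.even_comm h2 x.1, ← mul_assoc, W.even_comm h2, mul_assoc,
    ← mul_assoc, mul_assoc]

lemma form_inv (hD : X.IsCyc 1 D) (hHL : HardLefschetz W X D) (hR : Between W a R)
    (hinv : InvClass W a D) (j : ℕ) (hj : 2 * j ≤ X.dim) (g : G) (x y : VV hD hR j hj) :
    form hD hR j hj (repV hD hR hinv j hj g x) (repV hD hR hinv j hj g y) =
      form hD hR j hj x y := by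
  apply Rat.cast_injective (α := W.K)
  rw [form_cast, form_cast, val, val, repV_coe, repV_coe]
  have h4 := hinv g⁻¹
  rw [gPull] at h4
  have h5 : W.map (a g⁻¹).hom x.1 * (W.cl X D ^ (X.dim - 2 * j) * W.map (a g⁻¹).hom y.1) =
      W.map (a g⁻¹).hom (x.1 * (W.cl X D ^ (X.dim - 2 * j) * y.1)) := by
    rw [map_mul, map_mul, map_pow, h4]
  rw [h5, tr_aut hD hHL _ h4]

lemma form_NN (hD : X.IsCyc 1 D) (hR : Between W a R) (j : ℕ) (hj : 2 * j ≤ X.dim)
    (x : VV hD hR j hj) (hx : x ∈ NN hD hR j hj) (y : VV hD hR j hj) :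
    form hD hR j hj x y = 0 := by
  obtain ⟨z, hz, hz', h⟩ := hx
  obtain ⟨w, hw, hwy⟩ := y.2
  rw [form_eq hD hR j hj x y hz hw.1 h hwy, hR.num j z hz hz' (X.dim - j) _ (by omega), mul_zero]
  have h1 := dp_mem (ops := ops) hD (X.dim - 2 * j) hw.1
  rwa [show j + (X.dim - 2 * j) = X.dim - j by omega] at h1

end

variable {W : WeilCohomology.{u, v} ops} {X : 𝒱.Obj} {G : Type} [Group G] [Fintype G]
  {a : G →* Aut X} {D : X.Cycles} {R : ℕ → X.Cycles → Prop}

attribute [local instance] ratMod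

/-- **Positivity on `X/H` from positivity on the `X/E i`.** -/
theorem hodge_dom (hD : X.IsCyc 1 D) (hHL : HardLefschetz W X D) (hR : Between W a R)
    (hinv : InvClass W a D) {j : ℕ} (hj : 2 * j ≤ X.dim) {H : Subgroup G} {ι : Type}
    {E : ι → Subgroup G} (hdom : DominatedPrim W a D R j H E)
    (h : ∀ i, HodgeIn ops a D R (E i) j) : HodgeIn ops a D R H j := by
  intro z hz hnz hzH
  let x : VV hD hR j hj := ⟨W.cl X z, z, hz, rfl⟩
  have h1 := pos_of_dominated' (repV hD hR hinv j hj) (form hD hR j hj) (form_symm hD hR j hj)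
    (form_inv hD hHL hR hinv j hj) (NN hD hR j hj) (rep_NN hD hR hinv j hj) (form_NN hD hR j hj)
    (H := H) (E := E) ?_ ?_ (x := x) ?_ ?_
  · rwa [form_eq hD hR j hj x x hz.1 hz.1 rfl rfl] at h1
  · intro S _ _ σ hσ ho hv
    refine hdom S σ hσ ?_ hv
    obtain ⟨f, hf, s, hs⟩ := ho
    refine ⟨(VV hD hR j hj).subtype.toAddMonoidHom.comp f, fun s => (f s).2, ?_, s, ?_⟩
    · intro g t
      change (f (σ g t)).1 = gPull W a g⁻¹ (f t).1
      rw [hf, repV_coe]
      rfl
    · obtain ⟨w, hw, hwf⟩ := (f s).2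
      exact ⟨w, hw.1, hwf, not_R_of hs hw.1 hwf⟩
  · intro i y hy hyN
    obtain ⟨w, hw, hwy⟩ := y.2
    rw [form_eq hD hR j hj y y hw.1 hw.1 hwy hwy]
    refine h i w hw (not_R_of hyN hw.1 hwy) fun g hg => ?_
    apply hR.hom _ _ (isCyc_sub (ops.pull_mem _ hw.1) hw.1)
    have h2 := congrArg Subtype.val (hy g⁻¹ ((E i).inv_mem hg))
    rw [repV_coe, inv_inv] at h2
    rw [map_sub, W.cl_pull, hwy, h2, sub_self]
  · intro g hg
    refine ⟨ops.pull (a g⁻¹).hom z - z, isCyc_sub (ops.pull_mem _ hz.1) hz.1,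
      hzH g⁻¹ (H.inv_mem hg), ?_⟩
    rw [map_sub, W.cl_pull]
    rfl
  · intro hx
    exact hnz (R_of hx hz.1 rfl)

end Run7.h200.HG
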