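import Pool.Agent.Run7.h200.HTGeo

/-!
# Group actions and the conjecture of Hodge type: the main theorem
-/

set_option autoImplicit false

open CategoryTheory AlgebraicGeometry Finset

universe u v

namespace Run7.h200.HG

open Pool.Agent.H914 VarClass Obj WeilCohomology Pool.Agent.X252.GA Pool.Agent.X252.SCT
  Run7.h200.HT Run7.h200.GB Pool.Agent.X310.Mu

variable {k : Type u} [Field k] {𝒱 : VarClass k} {ops : CycleOps 𝒱}
variable {W : WeilCohomology.{u, v} ops} {X : 𝒱.Obj} {G : Type} [Group G]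
  {a : G →* Aut X} {D : X.Cycles} {R : ℕ → X.Cycles → Prop}

lemma deg_cast {i j : ℕ} {z w : X.Cycles} (h : i + j = X.dim) (hz : X.IsCyc j z)
    (hw : X.IsCyc i w) :
    ((X.V.degCycle (ops.mul z w) : ℚ) : W.K) = W.tr X (W.cl X z * W.cl X w) := by
  rw [← W.cl_mul, W.tr_cl]
  have := ops.mul_mem hz hw
  rwa [show j + i = X.dim by omega] at this

lemma numZero_iff (W : WeilCohomology.{u, v} ops) {j : ℕ} {z : X.Cycles} (hz : X.IsCyc j z) :
    NumZero ops X j z ↔
      ∀ i w, i + j = X.dim → X.IsCyc i w → W.tr X (W.cl X z * W.cl X w) = 0 := by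
  constructor
  · intro h i w hij hw
    rw [← deg_cast hij hz hw, h i w hij hw, Rat.cast_zero]
  · intro h i w hij hw
    apply Rat.cast_injective (α := W.K)
    rw [deg_cast hij hz hw, h i w hij hw, Rat.cast_zero]

theorem between_num (hD : X.IsCyc 1 D) (hHL : HardLefschetz W X D) (hinv : InvClass W a D) :
    Between W a (NumZero ops X) where
  hom j z hz h := by
    rw [numZero_iff W hz]
    intro i w _ _
    rw [h, zero_mul, map_zero]
  add j z w hz hw h h' := by
    rw [numZero_iff W hz] at h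
    rw [numZero_iff W hw] at h'
    rw [numZero_iff W (hz.add hw)]
    intro i v hij hv
    rw [map_add, add_mul, map_add, h i v hij hv, h' i v hij hv, add_zero]
  smul j r z hz h := by
    rw [numZero_iff W hz] at h
    rw [numZero_iff W (hz.smul r)]
    intro i v hij hv
    rw [cl_smul, smul_mul_assoc, map_smul, h i v hij hv, smul_zero]
  pull j g z hz h := by
    rw [numZero_iff W hz] at h
    rw [numZero_iff W (ops.pull_mem _ hz)]
    intro i w hij hw
    have h1 := h i (ops.pull (a g⁻¹).hom w) hij (ops.pull_mem _ hw)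
    rw [W.cl_pull] at h1 ⊢
    have h2 : W.map (a g).hom (W.map (a g⁻¹).hom (W.cl X w)) = W.cl X w := by
      have e : (a g).hom ≫ (a g⁻¹).hom = (a (g⁻¹ * g)).hom := by rw [map_mul]; rfl
      rw [← W.map_comp, e, inv_mul_cancel, map_one]
      exact W.map_id X _
    have h3 := hinv g
    rw [gPull] at h3
    rw [← h2, ← map_mul, tr_aut hD hHL _ h3]
    exact h1
  num j z _ h := h

theorem between_hom : Between W a (HomZero W X) where
  hom j z _ h := h
  add j z w _ _ h h' := by
    rw [HomZero] at h h' ⊢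
    rw [map_add, h, h', add_zero]
  smul j r z _ h := by
    rw [HomZero] at h ⊢
    rw [cl_smul, h, smul_zero]
  pull j g z _ h := by
    rw [HomZero] at h ⊢
    rw [W.cl_pull, h, map_zero]
  num j z hz h := by
    rw [HomZero] at h
    rw [numZero_iff W hz]
    intro i w _ _
    rw [h, zero_mul, map_zero]

lemma hodgeType_iff (a : G →* Aut X) :
    HodgeType W X D ↔ QuotientHodge ops a D (HomZero W X) ⊥ := by
  constructor
  · intro h j hj z hz hnz _
    exact h j hj z hz.1 hz.2 hnz
  · intro h j hj z hz hz' hnz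
    refine h j hj z ⟨hz, hz'⟩ hnz fun g hg => ?_
    rw [Subgroup.mem_bot] at hg
    subst hg
    rw [HomZero, map_sub, W.cl_pull, map_one, sub_eq_zero]
    exact W.map_id X _

/-- The conjecture for a larger group of automorphisms is weaker. -/
lemma hodge_up (hR : Between W a R) {H : Subgroup G} {j : ℕ}
    (h : HodgeIn ops a D R ⊥ j) : HodgeIn ops a D R H j := by
  intro z hz hnz _
  refine h z hz hnz fun g hg => ?_
  rw [Subgroup.mem_bot] at hg
  subst hg
  apply hR.hom _ _ (isCyc_sub (ops.pull_mem _ hz.1) hz.1)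
  rw [map_sub, W.cl_pull, map_one, sub_eq_zero]
  exact W.map_id X _

/-- **Group actions and the conjecture of Hodge type.** -/
theorem mainH [Finite G] (hD : X.IsCyc 1 D) (hHL : HardLefschetz W X D) (hinv : InvClass W a D)
    (hR : Between W a R) :
    (∀ j, 2 * j ≤ X.dim → ∀ (H : Subgroup G) (ι : Type) (E : ι → Subgroup G),
      DominatedPrim W a D R j H E → (∀ i, HodgeIn ops a D R (E i) j) → HodgeIn ops a D R H j) ∧
    (∀ (ι : Type) (E : ι → Subgroup G),
      (∀ j, 2 * j ≤ X.dim → DominatedPrim W a D R j ⊥ E) →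
      (QuotientHodge ops a D R ⊥ ↔ ∀ i, QuotientHodge ops a D R (E i))) ∧
    (∀ K : Subgroup G, (∀ x ∈ K, ∀ y ∈ K, x * y = y * x) →
      (QuotientHodge ops a D R ⊥ ↔
        ∀ C : Subgroup G, CyclicQuotient K C → QuotientHodge ops a D R C)) ∧
    (∀ (ι : Type) (E : ι → Subgroup G) (K : Subgroup G), Partitions K E →
      (QuotientHodge ops a D R ⊥ ↔ ∀ i, QuotientHodge ops a D R (E i))) ∧
    (∀ c : G, c * c = 1 → (QuotientHodge ops a D R ⊥ ↔
      QuotientHodge ops a D R (Subgroup.zpowers c) ∧ QuotientHodge ops a D R (comms c))) ∧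
    (∀ c : G, InSimple c → c ≠ 1 → c * c = 1 →
      (QuotientHodge ops a D R ⊥ ↔ QuotientHodge ops a D R (Subgroup.zpowers c))) ∧
    (¬ QuotientHodge ops a D R ⊥ →
      (∀ P : Subgroup G, (Nat.card P).Prime → QuotientHodge ops a D R P) →
      (∃ j, 2 * j ≤ X.dim ∧ FreePrim W a D R j) ∧ CyclicSubgroups G) := by
  have : Fintype G := Fintype.ofFinite G
  have hup : ∀ H : Subgroup G, QuotientHodge ops a D R ⊥ → QuotientHodge ops a D R H :=
    fun H h j hj => hodge_up hR (h j hj)
  have hdown : ∀ (ι : Type) (E : ι → Subgroup G),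
      (∀ j, 2 * j ≤ X.dim → DominatedPrim W a D R j ⊥ E) →
      (∀ i, QuotientHodge ops a D R (E i)) → QuotientHodge ops a D R ⊥ :=
    fun ι E hE h j hj => hodge_dom hD hHL hR hinv hj (hE j hj) fun i => h i j hj
  have hdown' : ∀ (ι : Type) (E : ι → Subgroup G), Dominated (⊥ : Subgroup G) E →
      (∀ i, QuotientHodge ops a D R (E i)) → QuotientHodge ops a D R ⊥ :=
    fun ι E hE h => hdown ι E (fun j _ S _ _ σ hσ _ hv => hE S σ hσ hv) h
  refine ⟨?_, ?_, ?_, ?_, ?_, ?_, ?_⟩
  · intro j hj H ι E hE h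
    exact hodge_dom hD hHL hR hinv hj hE h
  · intro ι E hE
    exact ⟨fun h i => hup _ h, hdown ι E hE⟩
  · intro K hK
    refine ⟨fun h C _ => hup C h, fun h => ?_⟩
    exact hdown' _ _ (dominated_abelian K hK ⊥) fun C => h C.1 C.2
  · rintro ι E K ⟨hfin, hι, hle, hpart⟩
    exact ⟨fun h j => hup _ h, hdown' _ _ (dominated_partition E K hι hle hpart ⊥)⟩
  · intro c hc
    refine ⟨fun h => ⟨hup _ h, hup _ h⟩, fun h => hdown' _ _ (dominated_two hc ⊥) ?_⟩
    intro b
    cases b
    · exact h.2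
    · exact h.1
  · rintro c ⟨S, hS1, hS, hcS⟩ hc1 hc
    exact ⟨hup _, fun h => hdown' _ _ (dominated_comms hc (comms_of_simple S hS hcS hc1) ⊥)
      fun _ => h⟩
  · intro h0 hP
    have h1 : ∃ j, 2 * j ≤ X.dim ∧ FreePrim W a D R j := by
      by_contra hcon
      push Not at hcon
      apply h0
      refine hdown {P : Subgroup G // (Nat.card P).Prime} (fun P => P.1) ?_ fun P => hP P.1 P.2
      intro j hj V _ _ ρ hρ ho hv
      obtain ⟨v, hv0, -⟩ := hv
      by_contra hno
      push Not at hno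
      apply hcon j hj
      refine ⟨V, _, _, ρ, hρ, ho, ⟨v, hv0⟩, fun g hg w hw => ?_⟩
      obtain ⟨P, hPp, hPg⟩ := Pool.Agent.X328.PB.card_zpowers_prime hg
      by_contra hw0
      obtain ⟨d, hd, hd'⟩ := hno ⟨P, hPp⟩ w hw0
      exact hd' (fixed_zpow ρ hw d (hPg hd))
    refine ⟨h1, ?_⟩
    obtain ⟨j, hj, S, _, _, σ, hσ, ho, ⟨v, hv⟩, hfree⟩ := h1
    obtain ⟨-, k2⟩ := Pool.Agent.X328.PB.structure_of_group σ hv fun P hPp => by
      have hPnt : ∃ g : G, g ∈ P ∧ g ≠ 1 := by
        by_contra hcon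
        push Not at hcon
        have h3 : P = ⊥ := by
          rw [Subgroup.eq_bot_iff_forall]
          exact hcon
        rw [h3, Subgroup.card_bot] at hPp
        exact Nat.not_prime_one hPp
      obtain ⟨g, hgP, hg1⟩ := hPnt
      exact hfree g hg1 _ (fixed_nrm σ P v hgP)
    exact k2

end Run7.h200.HG
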