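import Pool.Agent.Run7.h200.HTAlg

/-!
# Positivity of invariant forms from the positivity on fixed vectors
-/

set_option autoImplicit false

open Finset

namespace Run7.h200.HT

open Pool.Agent.X252.GA

variable {G : Type} [Group G]

/-- The action of the group on real functions on the group. -/
noncomputable def tau (G : Type) [Group G] : G →* Module.End ℚ (G → ℝ) where
  toFun g :=
    { toFun := fun u k => u (g⁻¹ * k)
      map_add' := fun _ _ => rfl
      map_smul' := fun _ _ => rfl }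
  map_one' := by
    ext u k
    change u (1⁻¹ * k) = u k
    rw [inv_one, one_mul]
  map_mul' g h := by
    ext u k
    change u ((g * h)⁻¹ * k) = u (h⁻¹ * (g⁻¹ * k))
    rw [mul_inv_rev, mul_assoc]

lemma tau_apply (g : G) (u : G → ℝ) (k : G) : tau G g u k = u (g⁻¹ * k) := rfl

variable [Fintype G]

/-- The real form with the matrix `M`. -/
noncomputable def bil (M : G → G → ℝ) : (G → ℝ) →ₗ[ℝ] (G → ℝ) →ₗ[ℝ] ℝ :=
  LinearMap.mk₂ ℝ (fun u w => ∑ k, ∑ l, u k * w l * M k l)
    (fun u u' w => by simp only [Pi.add_apply, add_mul, Finset.sum_add_distrib])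
    (fun c u w => by
      simp only [Pi.smul_apply, smul_eq_mul, Finset.mul_sum]
      exact Finset.sum_congr rfl fun k _ => Finset.sum_congr rfl fun l _ => by ring)
    (fun u w w' => by simp only [Pi.add_apply, mul_add, add_mul, Finset.sum_add_distrib])
    (fun c u w => by
      simp only [Pi.smul_apply, smul_eq_mul, Finset.mul_sum]
      exact Finset.sum_congr rfl fun k _ => Finset.sum_congr rfl fun l _ => by ring)

lemma bil_apply (M : G → G → ℝ) (u w : G → ℝ) :
    bil M u w = ∑ k, ∑ l, u k * w l * M k l := rfl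

lemma bil_symm {M : G → G → ℝ} (hM : ∀ k l, M k l = M l k) (u w : G → ℝ) :
    bil M u w = bil M w u := by
  rw [bil_apply, bil_apply, Finset.sum_comm]
  exact Finset.sum_congr rfl fun k _ => Finset.sum_congr rfl fun l _ => by rw [hM]; ring

lemma bil_tau_left {M : G → G → ℝ} (g : G) (u w : G → ℝ) :
    bil M (tau G g u) w = bil (fun k l => M (g * k) l) u w := by
  rw [bil_apply, bil_apply]
  refine Fintype.sum_equiv (Equiv.mulLeft g⁻¹) _ _ fun k => ?_
  simp only [Equiv.coe_mulLeft, mul_inv_cancel_left, tau_apply]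

lemma bil_tau_right {M : G → G → ℝ} (g : G) (u w : G → ℝ) :
    bil M u (tau G g w) = bil (fun k l => M k (g * l)) u w := by
  rw [bil_apply, bil_apply]
  refine Finset.sum_congr rfl fun k _ => ?_
  refine Fintype.sum_equiv (Equiv.mulLeft g⁻¹) _ _ fun l => ?_
  simp only [Equiv.coe_mulLeft, mul_inv_cancel_left, tau_apply]

lemma bil_tau {M : G → G → ℝ} (hM : ∀ g k l, M (g * k) (g * l) = M k l) (g : G) (u w : G → ℝ) :
    bil M (tau G g u) (tau G g w) = bil M u w := by
  rw [bil_tau_left, bil_tau_right]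
  simp only [hM]

/-- The standard form. -/
noncomputable def std (G : Type) [Group G] [Fintype G] : (G → ℝ) →ₗ[ℝ] (G → ℝ) →ₗ[ℝ] ℝ := by
  classical
  exact bil fun k l => if k = l then 1 else 0

lemma std_apply (u w : G → ℝ) : std G u w = ∑ k, u k * w k := by
  classical
  unfold std
  rw [bil_apply]
  refine Finset.sum_congr rfl fun k _ => ?_
  simp

lemma std_symm (u w : G → ℝ) : std G u w = std G w u := by
  rw [std_apply, std_apply]
  exact Finset.sum_congr rfl fun k _ => mul_comm _ _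

lemma std_tau (g : G) (u w : G → ℝ) : std G (tau G g u) (tau G g w) = std G u w := by
  classical
  unfold std
  refine bil_tau (fun g k l => ?_) g u w
  simp

lemma std_pos {u : G → ℝ} (hu : u ≠ 0) : 0 < std G u u := by
  rw [std_apply]
  obtain ⟨k, hk⟩ := Function.ne_iff.1 hu
  refine Finset.sum_pos' (fun l _ => mul_self_nonneg _) ⟨k, Finset.mem_univ _, ?_⟩
  exact mul_self_pos.2 hk

section
variable {V : Type*} [AddCommGroup V] [Module ℚ V] (ρ : G →* Module.End ℚ V)
  (q : V →ₗ[ℚ] V →ₗ[ℚ] ℚ)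

/-- The form with the matrix of the values of `q`. -/
noncomputable def qq (X Y : G → V) : (G → ℝ) →ₗ[ℝ] (G → ℝ) →ₗ[ℝ] ℝ :=
  bil fun k l => ((q (X k) (Y l) : ℚ) : ℝ)

lemma qq_apply (X Y : G → V) (u w : G → ℝ) :
    qq q X Y u w = ∑ k, ∑ l, u k * w l * ((q (X k) (Y l) : ℚ) : ℝ) := rfl

lemma qq_symm (hs : ∀ x y, q x y = q y x) (X Y : G → V) (u w : G → ℝ) :
    qq q X Y u w = qq q Y X w u := by
  rw [qq_apply, qq_apply, Finset.sum_comm]
  exact Finset.sum_congr rfl fun k _ => Finset.sum_congr rfl fun l _ => by rw [hs]; ring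

lemma qq_ring (x : V) (Y : G → V) (a : MonoidAlgebra ℚ G) (u w : G → ℝ) :
    qq q (fun k => ρ k x) Y (ring (tau G) a u) w =
      qq q (fun k => ring ρ a (ρ k x)) Y u w := by
  induction a using MonoidAlgebra.induction_linear with
  | zero =>
    rw [map_zero, map_zero, LinearMap.zero_apply, map_zero, LinearMap.zero_apply]
    simp [qq_apply]
  | add f g hf hg =>
    rw [map_add, map_add, LinearMap.add_apply, map_add, LinearMap.add_apply, hf, hg, qq_apply,
      qq_apply, qq_apply, ← Finset.sum_add_distrib]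
    refine Finset.sum_congr rfl fun k _ => ?_
    rw [← Finset.sum_add_distrib]
    refine Finset.sum_congr rfl fun l _ => ?_
    rw [LinearMap.add_apply, map_add, LinearMap.add_apply, Rat.cast_add]
    ring
  | single g r =>
    rw [ring_single, ring_single]
    have h1 : (r • tau G g) u = (r : ℝ) • tau G g u := by
      ext k
      change r • (tau G g u k) = (r : ℝ) * tau G g u k
      rw [Rat.smul_def]
    rw [h1, map_smul, LinearMap.smul_apply, qq, bil_tau_left, smul_eq_mul, bil_apply, qq_apply,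
      Finset.mul_sum]
    refine Finset.sum_congr rfl fun k _ => ?_
    rw [Finset.mul_sum]
    refine Finset.sum_congr rfl fun l _ => ?_
    rw [LinearMap.smul_apply, map_smul, LinearMap.smul_apply, smul_eq_mul, rmul, Rat.cast_mul]
    ring

end

/-- **Positivity of an invariant form on the vectors fixed by `H` follows from the positivity on
the vectors fixed by the subgroups in a dominating family.** -/
theorem nonneg_of_dominated {V : Type*} [AddCommGroup V] [Module ℚ V] (ρ : G →* Module.End ℚ V)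
    (q : V →ₗ[ℚ] V →ₗ[ℚ] ℚ) (hs : ∀ x y, q x y = q y x)
    (hinv : ∀ g x y, q (ρ g x) (ρ g y) = q x y) (N : Submodule ℚ V)
    (hN : ∀ g, ∀ u ∈ N, ρ g u ∈ N) (hqN : ∀ x ∈ N, ∀ y, q x y = 0) {H : Subgroup G} {ι : Type}
    {E : ι → Subgroup G}
    (hdom : ∀ (S : Type) [AddCommGroup S] [Module ℚ S] (σ : G →* Module.End ℚ S), Irred σ →
      Occ σ ρ N → (∃ v : S, v ≠ 0 ∧ ∀ h ∈ H, σ h v = v) →
        ∃ j, ∃ v : S, v ≠ 0 ∧ ∀ d ∈ E j, σ d v = v)
    (hpos : ∀ j x, (∀ d ∈ E j, ρ d x = x) → 0 ≤ q x x) {x : V} (hx : ∀ h ∈ H, ρ h x = x) :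
    0 ≤ q x x := by
  classical
  set Q := qq q (fun k => ρ k x) (fun k => ρ k x) with hQ
  have hQs : ∀ u w, Q u w = Q w u := fun u w => qq_symm q hs _ _ u w
  have hQt : ∀ g u w, Q (tau G g u) (tau G g w) = Q u w := by
    intro g u w
    rw [hQ]
    refine bil_tau (fun g k l => ?_) g u w
    beta_reduce
    rw [rmul, rmul, hinv]
  -- the functions fixed by `H`
  let E0 : Submodule ℝ (G → ℝ) :=
    { carrier := {u | ∀ h ∈ H, tau G h u = u}
      add_mem' := fun {a b} ha hb h hh => by rw [map_add, ha h hh, hb h hh]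
      zero_mem' := fun h _ => map_zero _
      smul_mem' := fun c u hu h hh => by
        ext k
        exact congrArg (c * ·) (congrFun (hu h hh) k) }
  have hE0 : ∀ u, u ∈ E0 ↔ ∀ h ∈ H, tau G h u = u := fun u => Iff.rfl
  let n : G → ℝ := fun k => if k ∈ H then 1 else 0
  have hn : n ∈ E0 := by
    rw [hE0]
    intro h hh
    ext k
    rw [tau_apply]
    simp only [n]
    rw [H.mul_mem_cancel_left (H.inv_mem hh)]
  have hn0 : n ≠ 0 := by
    intro h
    have := congrFun h 1
    simp [n, H.one_mem] at this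
  have : Nontrivial E0 := ⟨⟨⟨n, hn⟩, 0, fun h => hn0 (congrArg Subtype.val h)⟩⟩
  obtain ⟨l, hmin, v, hv0, hv⟩ := exists_min (E := E0) ((std G).domRestrict₁₂ E0 E0)
    (Q.domRestrict₁₂ E0 E0) (fun u w => std_symm _ _) (fun u w => hQs _ _)
    (fun u hu => std_pos fun h => hu (Subtype.ext h))
  simp only [LinearMap.domRestrict₁₂_apply] at hmin hv
  -- the value at `x`
  have hnn : Q n n = ((ord H) ^ 2 * q x x : ℚ) := by
    have h1 : ∀ k l, n k * n l * ((q (ρ k x) (ρ l x) : ℚ) : ℝ) = n k * n l * ((q x x : ℚ) : ℝ) := by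
      intro k l
      by_cases hk : k ∈ H
      · by_cases hl : l ∈ H
        · rw [hx k hk, hx l hl]
        · simp [n, hl]
      · simp [n, hk]
    rw [hQ, qq_apply]
    simp only [h1]
    have h2 : ∑ k, n k = ((ord H : ℚ) : ℝ) := by
      simp only [n]
      rw [Finset.sum_ite, Finset.sum_const_zero, add_zero, Finset.sum_const, nsmul_eq_mul, mul_one]
      unfold ord
      push_cast
      congr!
    have h3 : ∑ k, ∑ l, n k * n l * ((q x x : ℚ) : ℝ) = (∑ k, n k) * (∑ l, n l) * (q x x : ℚ) := by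
      rw [Finset.sum_mul_sum, Finset.sum_mul]
      exact Finset.sum_congr rfl fun k _ => by rw [Finset.sum_mul]
    rw [h3, h2]
    push_cast
    ring
  by_cases hl : 0 ≤ l
  · have h1 := hmin ⟨n, hn⟩
    have h2 : 0 ≤ l * std G n n := mul_nonneg hl (std_pos hn0).le
    have h3 : (0 : ℝ) ≤ ((ord H) ^ 2 * q x x : ℚ) := by
      rw [← hnn]; exact h2.trans h1
    have h4 : 0 ≤ (ord H) ^ 2 * q x x := by exact_mod_cast h3
    exact nonneg_of_mul_nonneg_right h4 (by have := ord_pos H; positivity)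
  · exfalso
    push Not at hl
    let U : Submodule ℚ (G → ℝ) :=
      { carrier := {u | ∀ w, Q u w = l * std G u w}
        add_mem' := fun {a b} ha hb w => by
          rw [map_add, map_add, LinearMap.add_apply, LinearMap.add_apply, ha w, hb w, mul_add]
        zero_mem' := fun w => by simp
        smul_mem' := fun c u hu w => by
          have h1 : c • u = (c : ℝ) • u := by
            ext k
            change c • (u k) = (c : ℝ) * u k
            rw [Rat.smul_def]
          rw [h1, map_smul, map_smul, LinearMap.smul_apply, LinearMap.smul_apply, hu w, smul_eq_mul,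
            smul_eq_mul]
          ring }
    have hUm : ∀ u, u ∈ U ↔ ∀ w, Q u w = l * std G u w := fun u => Iff.rfl
    have hUg : ∀ g, ∀ u ∈ U, tau G g u ∈ U := by
      intro g u hu
      rw [hUm] at hu ⊢
      intro w
      have h1 : w = tau G g (tau G g⁻¹ w) := by
        rw [← rmul, mul_inv_cancel, map_one]; rfl
      rw [h1, hQt, std_tau]
      exact hu _
    have hvU : v.1 ∈ U := by
      rw [hUm]
      intro w
      have hw : ring (tau G) (nA H) w ∈ E0 := fun h hh => fixed_ring_nA _ H w hh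
      have h1 := hv ⟨_, hw⟩
      have h2 : ∀ p : (G → ℝ) →ₗ[ℝ] (G → ℝ) →ₗ[ℝ] ℝ,
          (∀ g u w, p (tau G g u) (tau G g w) = p u w) →
          p v.1 (ring (tau G) (nA H) w) = ((ord H : ℚ) : ℝ) * p v.1 w := by
        intro p hp
        rw [ring_nA, map_sum, Finset.sum_congr rfl (g := fun _ => p v.1 w) (fun h hh => ?_),
          Finset.sum_const, nsmul_eq_mul]
        · unfold ord
          push_cast
          congr!
        · rw [Finset.mem_filter] at hh
          have h3 := v.2 h hh.2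
          rw [← h3, hp, h3]
      simp only at h1
      rw [h2 _ hQt, h2 _ std_tau] at h1
      have h4 : (0 : ℝ) < ((ord H : ℚ) : ℝ) := by exact_mod_cast ord_pos H
      have h5 : ((ord H : ℚ) : ℝ) * Q v.1 w = ((ord H : ℚ) : ℝ) * (l * std G v.1 w) := by
        rw [h1]; ring
      exact mul_left_cancel₀ h4.ne' h5
    obtain ⟨j, u, huU, hu, hu0⟩ := dom_principle ρ (tau G) (N := ⊥) hN hUg
      (fun g u hu => by rw [(Submodule.mem_bot ℚ).1 hu, map_zero]; exact Submodule.zero_mem _)
      (fun a ha u hu => by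
        rw [Submodule.mem_bot]
        by_contra hne
        have h1 := ring_mem (tau G) hUg a hu
        have h2 := (hUm _).1 h1 (ring (tau G) a u)
        rw [hQ, qq_ring, qq_apply] at h2
        simp only [hqN _ (ha _), Rat.cast_zero, mul_zero, Finset.sum_const_zero] at h2
        have h3 := std_pos hne
        have h4 : l * std G (ring (tau G) a u) (ring (tau G) a u) < 0 := mul_neg_of_neg_of_pos hl h3
        linarith) hdom hvU (fun h hh => v.2 h hh)
      (fun h => hv0 (Subtype.ext ((Submodule.mem_bot ℚ).1 h)))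
    have hu0' : u ≠ 0 := fun h => hu0 ((Submodule.mem_bot ℚ).2 h)
    have h1 : Q u u < 0 := by
      rw [(hUm u).1 huU u]
      exact mul_neg_of_neg_of_pos hl (std_pos hu0')
    have h2 : 0 ≤ Q (ring (tau G) (nA (E j)) u) (ring (tau G) (nA (E j)) u) := by
      rw [hQ, qq_ring, qq_symm q hs, qq_ring]
      refine psd_real _ (fun y => ?_) u
      have h3 : ∑ k, ∑ l, y k * y l *
          q (ring ρ (nA (E j)) (ρ k x)) (ring ρ (nA (E j)) (ρ l x)) =
          q (ring ρ (nA (E j)) (∑ k, y k • ρ k x)) (ring ρ (nA (E j)) (∑ k, y k • ρ k x)) := by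
        simp only [map_sum, map_smul, LinearMap.sum_apply, LinearMap.smul_apply, smul_eq_mul,
          Finset.mul_sum]
        exact Finset.sum_congr rfl fun k _ => Finset.sum_congr rfl fun l _ => by rw [hs]; ring
      rw [h3]
      exact hpos j _ fun d hd => fixed_ring_nA ρ (E j) _ hd
    rw [ring_nA_fixed (tau G) (E j) hu] at h2
    have h3 : ord (E j) • u = ((ord (E j) : ℚ) : ℝ) • u := by
      ext k
      change ord (E j) • (u k) = ((ord (E j) : ℚ) : ℝ) * u k
      rw [Rat.smul_def]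
    rw [h3, map_smul, map_smul, LinearMap.smul_apply, smul_eq_mul, smul_eq_mul] at h2
    have h4 : (0 : ℝ) < ((ord (E j) : ℚ) : ℝ) := by exact_mod_cast ord_pos (E j)
    have h5 : ((ord (E j) : ℚ) : ℝ) * (((ord (E j) : ℚ) : ℝ) * Q u u) < 0 :=
      mul_neg_of_pos_of_neg h4 (mul_neg_of_pos_of_neg h4 h1)
    linarith

/-- **Positivity modulo a subspace.** -/
theorem pos_of_dominated {V : Type*} [AddCommGroup V] [Module ℚ V] (ρ : G →* Module.End ℚ V)
    (q : V →ₗ[ℚ] V →ₗ[ℚ] ℚ) (hs : ∀ x y, q x y = q y x)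
    (hinv : ∀ g x y, q (ρ g x) (ρ g y) = q x y) (N : Submodule ℚ V)
    (hN : ∀ g, ∀ u ∈ N, ρ g u ∈ N) (hqN : ∀ x ∈ N, ∀ y, q x y = 0) {H : Subgroup G} {ι : Type}
    {E : ι → Subgroup G}
    (hdom : ∀ (S : Type) [AddCommGroup S] [Module ℚ S] (σ : G →* Module.End ℚ S), Irred σ →
      Occ σ ρ N → (∃ v : S, v ≠ 0 ∧ ∀ h ∈ H, σ h v = v) →
        ∃ j, ∃ v : S, v ≠ 0 ∧ ∀ d ∈ E j, σ d v = v)
    (hpos : ∀ j x, (∀ d ∈ E j, ρ d x = x) → 0 ≤ q x x ∧ (q x x = 0 → x ∈ N)) {x : V}
    (hx : ∀ h ∈ H, ρ h x = x) : 0 ≤ q x x ∧ (q x x = 0 → x ∈ N) := by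
  classical
  have hnn : ∀ {y : V}, (∀ h ∈ H, ρ h y = y) → 0 ≤ q y y := fun {y} hy =>
    nonneg_of_dominated ρ q hs hinv N hN hqN hdom (fun j z hz => (hpos j z hz).1) hy
  refine ⟨hnn hx, fun h0 => ?_⟩
  let R : Submodule ℚ V :=
    { carrier := {u | ∀ w, q u w = 0}
      add_mem' := fun {a b} ha hb w => by
        rw [map_add, LinearMap.add_apply, ha w, hb w, add_zero]
      zero_mem' := fun w => by simp
      smul_mem' := fun c u hu w => by
        rw [map_smul, LinearMap.smul_apply, hu w, smul_zero] }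
  have hRm : ∀ u, u ∈ R ↔ ∀ w, q u w = 0 := fun u => Iff.rfl
  have hRg : ∀ g, ∀ u ∈ R, ρ g u ∈ R := by
    intro g u hu
    rw [hRm] at hu ⊢
    intro w
    have h1 : w = ρ g (ρ g⁻¹ w) := by
      rw [← rmul, mul_inv_cancel, map_one]; rfl
    rw [h1, hinv]
    exact hu _
  have hxR : x ∈ R := by
    rw [hRm]
    intro w
    have hw : ∀ h ∈ H, ρ h (ring ρ (nA H) w) = ring ρ (nA H) w :=
      fun h hh => fixed_ring_nA _ H w hh
    have h1 : q x (ring ρ (nA H) w) = 0 := by
      refine eq_zero_of_quad (hnn hw) fun t => ?_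
      have h2 := hnn (y := x + t • ring ρ (nA H) w) (fun h hh => by
        rw [map_add, map_smul, hx h hh, hw h hh])
      simp only [map_add, map_smul, LinearMap.add_apply, LinearMap.smul_apply, smul_eq_mul] at h2
      rw [h0, hs (ring ρ (nA H) w) x] at h2
      nlinarith [h2]
    have h2 : q x (ring ρ (nA H) w) = ord H * q x w := by
      rw [ring_nA, map_sum, Finset.sum_congr rfl (g := fun _ => q x w) (fun h hh => ?_),
        Finset.sum_const, nsmul_eq_mul]
      · unfold ord
        congr!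
      · rw [Finset.mem_filter] at hh
        have h3 := hx h hh.2
        rw [← h3, hinv, h3]
    rw [h2] at h1
    rcases mul_eq_zero.1 h1 with h | h
    · exact absurd h (ord_pos H).ne'
    · exact h
  by_contra hxN
  obtain ⟨j, u, huR, hu, huN⟩ := dom_principle ρ ρ hN hRg hN
    (fun a ha u _ => ha u) hdom hxR hx hxN
  exact huN ((hpos j u hu).2 ((hRm u).1 huR u))

/-- **Positivity modulo a subspace**, for vectors which are fixed modulo the subspace. -/
theorem pos_of_dominated' {V : Type*} [AddCommGroup V] [Module ℚ V] (ρ : G →* Module.End ℚ V)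
    (q : V →ₗ[ℚ] V →ₗ[ℚ] ℚ) (hs : ∀ x y, q x y = q y x)
    (hinv : ∀ g x y, q (ρ g x) (ρ g y) = q x y) (N : Submodule ℚ V)
    (hN : ∀ g, ∀ u ∈ N, ρ g u ∈ N) (hqN : ∀ x ∈ N, ∀ y, q x y = 0) {H : Subgroup G} {ι : Type}
    {E : ι → Subgroup G}
    (hdom : ∀ (S : Type) [AddCommGroup S] [Module ℚ S] (σ : G →* Module.End ℚ S), Irred σ →
      Occ σ ρ N → (∃ v : S, v ≠ 0 ∧ ∀ h ∈ H, σ h v = v) →
        ∃ j, ∃ v : S, v ≠ 0 ∧ ∀ d ∈ E j, σ d v = v)
    (hpos : ∀ j x, (∀ d ∈ E j, ρ d x = x) → x ∉ N → 0 < q x x) {x : V}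
    (hx : ∀ h ∈ H, ρ h x - x ∈ N) (hxN : x ∉ N) : 0 < q x x := by
  classical
  have hpos' : ∀ j x, (∀ d ∈ E j, ρ d x = x) → 0 ≤ q x x ∧ (q x x = 0 → x ∈ N) := by
    intro j y hy
    by_cases h : y ∈ N
    · exact ⟨(hqN y h y).ge, fun _ => h⟩
    · exact ⟨(hpos j y hy h).le, fun h0 => absurd h0 (hpos j y hy h).ne'⟩
  set y := (ord H)⁻¹ • ring ρ (nA H) x with hy
  have hyx : y - x ∈ N := by
    have h1 : y - x = (ord H)⁻¹ • ∑ g : G with g ∈ H, (ρ g x - x) := by
      rw [Finset.sum_sub_distrib, smul_sub, hy, ring_nA, Finset.sum_const,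
        ← Nat.cast_smul_eq_nsmul ℚ, smul_smul]
      have h2 : (ord H)⁻¹ * ((Finset.univ.filter fun g : G => g ∈ H).card : ℚ) = 1 := by
        have h3 : ((Finset.univ.filter fun g : G => g ∈ H).card : ℚ) = ord H := by
          unfold ord
          congr!
        rw [h3, inv_mul_cancel₀ (ord_pos H).ne']
      rw [h2, one_smul]
    rw [h1]
    refine N.smul_mem _ (N.sum_mem fun g hg => hx g ?_)
    simpa using hg
  have hyf : ∀ h ∈ H, ρ h y = y := by
    intro h hh
    rw [hy, map_smul, fixed_ring_nA ρ H x hh]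
  have hyq : q y y = q x x := by
    have key : ∀ n ∈ N, q (x + n) (x + n) = q x x := by
      intro n hn
      have e1 : q (x + n) (x + n) = q x x + q x n + (q n x + q n n) := by
        simp only [map_add, LinearMap.add_apply]
        ring
      rw [e1, hs x n, hqN n hn, hqN n hn]
      ring
    have h1 := key _ hyx
    rwa [add_sub_cancel] at h1
  have hyN : y ∉ N := fun h => hxN (by
    have := N.sub_mem h hyx
    rwa [sub_sub_cancel] at this)
  obtain ⟨h1, h2⟩ := pos_of_dominated ρ q hs hinv N hN hqN hdom hpos' hyf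
  rw [← hyq]
  exact lt_of_le_of_ne h1 fun h => hyN (h2 h.symm)

end Run7.h200.HT
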