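import Pool.Agent.Run7.h200.VanDefs

/-!
# Invariant vectors with a property: definitions
-/

set_option autoImplicit false

open Equiv

namespace Run7.h200.Pr

open Run7.h200.Van

section rep

variable {G : Type} [Group G] {M : Type*} [AddCommGroup M] (τ : G → M → M) (P : M → Prop)

/-- The only vector with the property `P` which is invariant under `H` is zero. -/
def NoInv (H : Subgroup G) : Prop := ∀ z, P z → (∀ h ∈ H, τ h z = z) → z = 0

/-- The representation `σ` occurs in the vectors with the property `P`. -/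
def Occ {S : Type} [AddCommGroup S] [Module ℚ S] (σ : G →* Module.End ℚ S) : Prop :=
  ∃ f : S →+ M, (∀ s, P (f s)) ∧ (∀ g s, f (σ g s) = τ g (f s)) ∧ ∃ s, f s ≠ 0

/-- Every irreducible rational representation of `G` which occurs in the vectors with the property
`P` and has a nonzero vector fixed by `H` has for some `j` a nonzero vector fixed by `E j`. -/
def Dom {ι : Type} (H : Subgroup G) (E : ι → Subgroup G) : Prop :=
  ∀ (S : Type) [AddCommGroup S] [Module ℚ S] (σ : G →* Module.End ℚ S), Irr σ →
    Occ τ P σ → (∃ v : S, v ≠ 0 ∧ ∀ h ∈ H, σ h v = v) →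
      ∃ j, ∃ v : S, v ≠ 0 ∧ ∀ d ∈ E j, σ d v = v

/-- Some nonzero irreducible rational representation of `G` occurs in the vectors with the property
`P`, and the elements of `G` different from one fix only `0` in it. -/
def Fre : Prop :=
  ∃ (S : Type) (_ : AddCommGroup S) (_ : Module ℚ S) (σ : G →* Module.End ℚ S), Irr σ ∧
    Occ τ P σ ∧ (∃ v : S, v ≠ 0) ∧ ∀ g : G, g ≠ 1 → ∀ v : S, σ g v = v → v = 0

/-- Zero is the only vector with the property `P` which is alternating under `S_k`. -/
def NoAlt {n : ℕ} (e : Perm (Fin n) →* G) (k : ℕ) : Prop :=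
  ∀ z, P z → (∀ σ : Perm (Fin n), (∀ i : Fin n, k ≤ i.val → σ i = i) →
    τ (e σ) z = (Perm.sign σ : ℤ) • z) → z = 0

end rep

section grp

variable {G : Type} [Group G]

/-- Let `J H` be an assertion for every subgroup `H` of `G`. The assertion for the trivial group is
equivalent to the assertion for all `D` with `K/D` cyclic, if `K` is commutative; for the components
of a partition of a subgroup; for the group generated by an involution `c` and the group `[G, c]`;
for the group generated by an involution which is contained in a nonabelian simple subgroup; for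
`A_k` if `A_n` is mapped to `G` and `(k - 1) ^ 2 < n`; for `A_k` and the group of the even
permutations which preserve `k - 1` classes, if `A_n` is mapped to `G` and `2 ≤ k ≤ n`. -/
def Criteria (J : Subgroup G → Prop) : Prop :=
  (∀ K : Subgroup G, (∀ x ∈ K, ∀ y ∈ K, x * y = y * x) →
    (J ⊥ ↔ ∀ D : Subgroup G, CyclicQuotient K D → J D)) ∧
  (∀ (ι : Type) (E : ι → Subgroup G) (K : Subgroup G), Partitions K E → (J ⊥ ↔ ∀ j, J (E j))) ∧
  (∀ c : G, c * c = 1 → (J ⊥ ↔ J (Subgroup.zpowers c) ∧ J (commSub c))) ∧
  (∀ c : G, InSimple c → c ≠ 1 → c * c = 1 → (J ⊥ ↔ J (Subgroup.zpowers c))) ∧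
  (∀ (n k : ℕ) (e : alternatingGroup (Fin n) →* G), 2 ≤ k → (k - 1) ^ 2 < n →
    (J ⊥ ↔ J ((altSub n k).map e))) ∧
  (∀ (n k : ℕ) (e : alternatingGroup (Fin n) →* G), 2 ≤ k → k ≤ n →
    (J ⊥ ↔ J ((altSub n k).map e) ∧ J ((classSub n (k - 1)).map e)))

/-- If `K` is commutative and `J` is true for the `R j`, then the assertion for the trivial group is
equivalent to the assertion for the `D` with `K/D` cyclic which contain no `R j`. -/
def Sieve (J : Subgroup G → Prop) : Prop :=
  ∀ (K : Subgroup G) (ι : Type) (R : ι → Subgroup G), (∀ x ∈ K, ∀ y ∈ K, x * y = y * x) →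
    (∀ j, J (R j)) → (J ⊥ ↔ ∀ D : Subgroup G, CyclicQuotient K D → (∀ j, ¬ R j ≤ D) → J D)

/-- `J` is inherited by bigger groups. -/
def Mono (J : Subgroup G → Prop) : Prop := ∀ H K : Subgroup G, H ≤ K → J H → J K

end grp

end Run7.h200.Pr
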