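import Pool.Agent.Run7.h200.VanDefs

/-!
# Group actions on objects of linear categories: definitions
-/

set_option autoImplicit false

open CategoryTheory CategoryTheory.Limits

universe v u

namespace Run7.h200.Mot

open Run7.h200.Van

variable {C : Type u} [Category.{v} C] [Preadditive C]

/-- The class `K` of objects is not empty and closed under direct sums and direct summands. -/
structure Closed [HasBinaryBiproducts C] (K : C → Prop) : Prop where
  nonempty : ∃ Z, K Z
  retract : ∀ {P M : C} (i : P ⟶ M) (r : M ⟶ P), i ≫ r = 𝟙 P → K M → K P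
  sum : ∀ {M N : C}, K M → K N → K (M ⊞ N)

variable [Linear ℚ C] {G : Type} [Group G] {M : C}

/-- The action of the element `∑ x_g g` of the rational group ring on the object `M`. -/
noncomputable def elt (a : G →* End M) (x : MonoidAlgebra ℚ G) : M ⟶ M :=
  MonoidAlgebra.lift ℚ (End M) G a x

/-- The direct summand `M^H` of the invariants of `H` is in the class `K`: some object `P` of `K` is
the direct summand of `M` given by the idempotent `(1 / |H|) ∑ h`. -/
def InvariantsIn (K : C → Prop) (a : G →* End M) (H : Subgroup G) : Prop :=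
  ∃ (P : C) (i : P ⟶ M) (r : M ⟶ P), i ≫ r = 𝟙 P ∧
    (Nat.card H : ℚ) • (r ≫ i) = ∑ᶠ h : H, (a h.1 : M ⟶ M) ∧ K P

/-- The endomorphism `f` factors through an object of the class `K`. -/
def Factors (K : C → Prop) (f : M ⟶ M) : Prop :=
  ∃ (P : C) (i : M ⟶ P) (r : P ⟶ M), K P ∧ f = i ≫ r

/-- The representation `σ` occurs in `M` outside of `K`: the elements of the group ring whose action
on `M` factors through an object of `K` act as zero on `σ`. -/
def OccursOutside (K : C → Prop) (a : G →* End M) {S : Type} [AddCommGroup S] [Module ℚ S]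
    (σ : G →* Module.End ℚ S) : Prop :=
  ∀ x : MonoidAlgebra ℚ G, Factors K (elt a x) →
    MonoidAlgebra.lift ℚ (Module.End ℚ S) G σ x = 0

/-- Every irreducible rational representation of `G` which occurs in `M` outside of `K` and has a
nonzero vector fixed by `H` has for some `i` a nonzero vector fixed by `E i`. -/
def DominatedOutside (K : C → Prop) (a : G →* End M) {ι : Type} (H : Subgroup G)
    (E : ι → Subgroup G) : Prop :=
  ∀ (S : Type) [AddCommGroup S] [Module ℚ S] (σ : G →* Module.End ℚ S), Irr σ →
    OccursOutside K a σ → (∃ v : S, v ≠ 0 ∧ ∀ h ∈ H, σ h v = v) →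
      ∃ i, ∃ v : S, v ≠ 0 ∧ ∀ d ∈ E i, σ d v = v

/-- Some nonzero irreducible rational representation of `G` occurs in `M` outside of `K`, and the
elements of `G` different from one fix only `0` in it. -/
def FreeOutside (K : C → Prop) (a : G →* End M) : Prop :=
  ∃ (S : Type) (_ : AddCommGroup S) (_ : Module ℚ S) (σ : G →* Module.End ℚ S), Irr σ ∧
    OccursOutside K a σ ∧ (∃ v : S, v ≠ 0) ∧ ∀ g : G, g ≠ 1 → ∀ v : S, σ g v = v → v = 0

end Run7.h200.Mot
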