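import Pool.Agent.Run7.h200.Idl
import Pool.Agent.Run7.h200.MotDefs

/-!
# Group actions on objects of linear categories
-/

set_option autoImplicit false

open CategoryTheory CategoryTheory.Limits

universe v u

namespace Run7.h200.Mot

open Run7.h200.Van Run7.h200.HT Pool.Agent.X252.GA

variable {C : Type u} [Category.{v} C] [Preadditive C] [Linear ℚ C] {G : Type} [Group G] {M : C}

lemma elt_add (a : G →* End M) (x y : MonoidAlgebra ℚ G) : elt a (x + y) = elt a x + elt a y :=
  map_add _ x y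

lemma elt_zero (a : G →* End M) : elt a 0 = 0 := map_zero _

lemma elt_mul (a : G →* End M) (x y : MonoidAlgebra ℚ G) : elt a (x * y) = elt a y ≫ elt a x :=
  map_mul (MonoidAlgebra.lift ℚ (End M) G a) x y

lemma elt_one (a : G →* End M) : elt a 1 = 𝟙 M := map_one (MonoidAlgebra.lift ℚ (End M) G a)

lemma elt_single (a : G →* End M) (g : G) : elt a (MonoidAlgebra.single g 1) = (a g : M ⟶ M) := by
  unfold elt
  rw [MonoidAlgebra.lift_single, one_smul]

variable [HasBinaryBiproducts C] {K : C → Prop}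

/-- The elements of the group ring whose action factors through an object of `K`. -/
def idl (hK : Closed K) (a : G →* End M) : Ideal (MonoidAlgebra ℚ G) where
  carrier := {x | Factors K (elt a x)}
  add_mem' := by
    rintro x y ⟨P, i, r, hP, h⟩ ⟨P', i', r', hP', h'⟩
    refine ⟨P ⊞ P', biprod.lift i i', biprod.desc r r', hK.sum hP hP', ?_⟩
    rw [elt_add, h, h', biprod.lift_desc]
  zero_mem' := by
    obtain ⟨Z, hZ⟩ := hK.nonempty
    exact ⟨Z, 0, 0, hZ, by rw [elt_zero, comp_zero]⟩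
  smul_mem' := by
    rintro c x ⟨P, i, r, hP, h⟩
    exact ⟨P, i, r ≫ elt a c, hP, by rw [smul_eq_mul, elt_mul, h, Category.assoc]⟩

lemma idl_right (hK : Closed K) (a : G →* End M) :
    ∀ x ∈ idl hK a, ∀ y, x * y ∈ idl hK a := by
  rintro x ⟨P, i, r, hP, h⟩ y
  exact ⟨P, elt a y ≫ i, r, hP, by rw [elt_mul, h, Category.assoc]⟩

variable [Fintype G]

lemma elt_nA (a : G →* End M) (H : Subgroup G) : elt a (nA H) = ∑ᶠ h : H, (a h.1 : M ⟶ M) := by
  classical
  have : Fintype H := Fintype.ofFinite H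
  rw [finsum_eq_sum_of_fintype]
  unfold nA
  have h1 : elt a (∑ g : G with g ∈ H, MonoidAlgebra.single g (1 : ℚ)) =
      ∑ g : G with g ∈ H, elt a (MonoidAlgebra.single g (1 : ℚ)) :=
    map_sum (MonoidAlgebra.lift ℚ (End M) G a) _ _
  rw [h1]
  rw [Finset.sum_congr rfl fun g _ => elt_single a g]
  exact (Finset.sum_subtype (Finset.univ.filter fun g : G => g ∈ H) (by simp)
    (fun g => (a g : M ⟶ M)))

lemma ord_eq (H : Subgroup G) : ord H = (Nat.card H : ℚ) := by
  classical
  unfold ord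
  have : Fintype H := Fintype.ofFinite H
  rw [Nat.card_eq_fintype_card, Fintype.card_subtype]

lemma nA_sq (H : Subgroup G) : nA H * nA H = ord H • nA H := by
  classical
  have h1 : nA H * nA H = ∑ g : G with g ∈ H, MonoidAlgebra.single g (1 : ℚ) * nA H := by
    conv_lhs => unfold nA
    rw [← Finset.sum_mul]
    rfl
  rw [h1, Finset.sum_congr rfl fun g hg => single_mul_nA (by simpa using hg), Finset.sum_const,
    ← Nat.cast_smul_eq_nsmul ℚ]
  unfold ord
  congr!

lemma inv_iff (hK : Closed K) [IsIdempotentComplete C] (a : G →* End M) (H : Subgroup G) :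
    InvariantsIn K a H ↔ nA H ∈ idl hK a := by
  have hpos := ord_pos H
  constructor
  · rintro ⟨P, i, r, hir, hs, hP⟩
    refine ⟨P, (Nat.card H : ℚ) • r, i, hP, ?_⟩
    rw [elt_nA, ← hs, Linear.smul_comp]
  · rintro ⟨Q, f, g, hQ, h⟩
    have hid : elt a ((ord H)⁻¹ • nA H) ≫ elt a ((ord H)⁻¹ • nA H) =
        elt a ((ord H)⁻¹ • nA H) := by
      rw [← elt_mul, smul_mul_smul_comm, nA_sq, smul_smul, mul_assoc, inv_mul_cancel₀ hpos.ne',
        mul_one]
    have hsm : elt a ((ord H)⁻¹ • nA H) = (ord H)⁻¹ • elt a (nA H) :=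
      map_smul (MonoidAlgebra.lift ℚ (End M) G a) _ _
    obtain ⟨P, i, r, hir, hri⟩ := IsIdempotentComplete.idempotents_split M _ hid
    refine ⟨P, i, r, hir, ?_, ?_⟩
    · rw [hri, hsm, ← ord_eq, smul_smul, mul_inv_cancel₀ hpos.ne', one_smul, elt_nA]
    · refine hK.retract (i ≫ f) ((ord H)⁻¹ • (g ≫ r)) ?_ hQ
      have h2 : (ord H)⁻¹ • (f ≫ g) = r ≫ i := by rw [hri, hsm, h]
      calc (i ≫ f) ≫ ((ord H)⁻¹ • (g ≫ r)) = i ≫ ((ord H)⁻¹ • (f ≫ g)) ≫ r := by
            simp only [Category.assoc, Linear.comp_smul, Linear.smul_comp]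
        _ = 𝟙 P := by rw [h2, Category.assoc, hir, Category.comp_id, hir]

lemma mem_bot_iff (hK : Closed K) (a : G →* End M) :
    nA (⊥ : Subgroup G) ∈ idl hK a ↔ K M := by
  rw [Idl.nA_bot]
  constructor
  · rintro ⟨P, i, r, hP, h⟩
    rw [elt_one] at h
    exact hK.retract i r h.symm hP
  · intro h
    exact ⟨M, 𝟙 M, 𝟙 M, h, by rw [elt_one, Category.comp_id]⟩

omit [Fintype G] in
/-- **Group actions on objects of linear categories.** -/
theorem main [Finite G] (hK : Closed K) [IsIdempotentComplete C] (a : G →* End M) :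
    (∀ (H : Subgroup G) (ι : Type) (E : ι → Subgroup G), DominatedOutside K a H E →
      (∀ i, InvariantsIn K a (E i)) → InvariantsIn K a H) ∧
    (∀ N : Subgroup G, (∀ x ∈ N, ∀ y ∈ N, x * y = y * x) →
      (K M ↔ ∀ H : Subgroup G, CyclicQuotient N H → InvariantsIn K a H)) ∧
    (∀ (ι : Type) (E : ι → Subgroup G) (N : Subgroup G), Partitions N E →
      (K M ↔ ∀ i, InvariantsIn K a (E i))) ∧
    (∀ c : G, c * c = 1 → (K M ↔
      InvariantsIn K a (Subgroup.zpowers c) ∧ InvariantsIn K a (commSub c))) ∧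
    (∀ c : G, InSimple c → c ≠ 1 → c * c = 1 →
      (K M ↔ InvariantsIn K a (Subgroup.zpowers c))) ∧
    (∀ (n k : ℕ) (e : alternatingGroup (Fin n) →* G), 2 ≤ k → (k - 1) ^ 2 < n →
      (K M ↔ InvariantsIn K a ((altSub n k).map e))) ∧
    (∀ (n k : ℕ) (e : alternatingGroup (Fin n) →* G), 2 ≤ k → k ≤ n →
      (K M ↔ InvariantsIn K a ((altSub n k).map e) ∧
        InvariantsIn K a ((classSub n (k - 1)).map e))) ∧
    (¬ K M → (∀ P : Subgroup G, (Nat.card P).Prime → InvariantsIn K a P) →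
      FreeOutside K a ∧ CyclicSubgroups G) := by
  have : Fintype G := Fintype.ofFinite G
  have h := Idl.main (idl hK a) (idl_right hK a)
  simp only [← inv_iff hK a] at h
  have hb : InvariantsIn K a ⊥ ↔ K M := by rw [inv_iff hK a, mem_bot_iff hK a]
  simp only [hb] at h
  exact h

end Run7.h200.Mot
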