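import Pool.Agent.Run7.h200.AbDom
import Pool.Agent.Run7.h200.AltMain

/-!
# Group actions and vanishing conjectures: the abstract theorem
-/

set_option autoImplicit false

open Finset

namespace Run7.h200.Van

open Pool.Agent.X252.GA Pool.Agent.X310.Mu Run7.h200.HT Run7.h200.Col

variable {G : Type} [Group G] {M : Type*} [AddCommGroup M] [Module ℚ M]
  {τ : G →* Module.End ℚ M} {U N : Submodule ℚ M}

/-- The restriction of a representation to a stable subspace. -/
def restr (τ : G →* Module.End ℚ M) (U : Submodule ℚ M) (hU : ∀ g, ∀ u ∈ U, τ g u ∈ U) :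
    G →* Module.End ℚ U where
  toFun g := (τ g).restrict (hU g)
  map_one' := by
    ext u
    change τ 1 u.1 = u.1
    rw [map_one]; rfl
  map_mul' g h := by
    ext u
    change τ (g * h) u.1 = τ g (τ h u.1)
    rw [map_mul]; rfl

lemma ring_restr (hU : ∀ g, ∀ u ∈ U, τ g u ∈ U) (a : MonoidAlgebra ℚ G) (u : U) :
    (ring (restr τ U hU) a u).1 = ring τ a u.1 := by
  induction a using MonoidAlgebra.induction_linear with
  | zero => rw [map_zero, map_zero]; rfl
  | add f g hf hg =>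
    rw [map_add, map_add]
    change (ring (restr τ U hU) f u).1 + (ring (restr τ U hU) g u).1 = _
    rw [hf, hg]
    rfl
  | single g r =>
    rw [ring_single, ring_single]
    rfl

/-- **Domination.** -/
theorem vanish_dom [Finite G] (hU : ∀ g, ∀ u ∈ U, τ g u ∈ U) (hN : ∀ g, ∀ u ∈ N, τ g u ∈ N)
    {ι : Type} {H : Subgroup G} {E : ι → Subgroup G} (hdom : DomIn τ U N H E)
    (h : ∀ i, Vanish τ U N (E i)) : Vanish τ U N H := by
  classical
  have : Fintype G := Fintype.ofFinite G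
  intro z hz hzH
  by_contra hzN
  set x : M := (ord H)⁻¹ • ring τ (nA H) z with hx
  have hxU : x ∈ U := U.smul_mem _ (ring_mem τ hU _ hz)
  have hxf : ∀ g ∈ H, τ g x = x := by
    intro g hg
    rw [hx, map_smul, fixed_ring_nA τ H z hg]
  have hxz : x - z ∈ N := by
    have h1 : ring τ (nA H) z - ord H • z ∈ N := by
      rw [ring_nA]
      have h2 : ord H • z = ∑ g : G with g ∈ H, z := by
        rw [Finset.sum_const, ← Nat.cast_smul_eq_nsmul ℚ]
        unfold ord
        congr!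
      rw [h2, ← Finset.sum_sub_distrib]
      exact N.sum_mem fun g hg => hzH g (by simpa using hg)
    have h3 := N.smul_mem (ord H)⁻¹ h1
    rwa [smul_sub, smul_smul, inv_mul_cancel₀ (ord_pos H).ne', one_smul] at h3
  have hxN : x ∉ N := fun h4 => hzN (by
    have h5 := N.sub_mem h4 hxz
    rwa [sub_sub_cancel] at h5)
  obtain ⟨j, u, huU, huf, huN⟩ := dom_principle (restr τ U hU) τ
    (P := N.comap U.subtype) (U := U) (N := N)
    (fun g u hu => hN g _ hu) hU hN
    (fun a ha u hu => by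
      have h1 := ha ⟨u, hu⟩
      rw [Submodule.mem_comap] at h1
      change (ring (restr τ U hU) a ⟨u, hu⟩).1 ∈ N at h1
      rwa [ring_restr] at h1)
    (H := H) (E := E)
    (fun S _ _ σ hσ ho hv => by
      obtain ⟨f, hf, s, hs⟩ := ho
      refine hdom S σ hσ ⟨U.subtype.toAddMonoidHom.comp f, fun s => (f s).2, ?_, s, hs⟩ hv
      intro g s
      have h1 := hf g s
      exact congrArg Subtype.val h1)
    hxU hxf hxN
  exact huN (h j u huU fun d hd => by rw [huf d hd, sub_self]; exact N.zero_mem)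

lemma vanish_up (H : Subgroup G) (h : Vanish τ U N ⊥) : Vanish τ U N H := by
  intro z hz _
  refine h z hz fun g hg => ?_
  rw [Subgroup.mem_bot] at hg
  subst hg
  rw [map_one, Module.End.one_apply, sub_self]
  exact N.zero_mem

/-- **The abstract theorem.** -/
theorem main [Finite G] (hU : ∀ g, ∀ u ∈ U, τ g u ∈ U) (hN : ∀ g, ∀ u ∈ N, τ g u ∈ N) :
    (∀ (H : Subgroup G) (ι : Type) (E : ι → Subgroup G), DomIn τ U N H E →
      (∀ i, Vanish τ U N (E i)) → Vanish τ U N H) ∧
    (∀ K : Subgroup G, (∀ x ∈ K, ∀ y ∈ K, x * y = y * x) →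
      (Vanish τ U N ⊥ ↔ ∀ C : Subgroup G, CyclicQuotient K C → Vanish τ U N C)) ∧
    (∀ (ι : Type) (E : ι → Subgroup G) (K : Subgroup G), Partitions K E →
      (Vanish τ U N ⊥ ↔ ∀ i, Vanish τ U N (E i))) ∧
    (∀ c : G, c * c = 1 → (Vanish τ U N ⊥ ↔
      Vanish τ U N (Subgroup.zpowers c) ∧ Vanish τ U N (commSub c))) ∧
    (∀ c : G, InSimple c → c ≠ 1 → c * c = 1 →
      (Vanish τ U N ⊥ ↔ Vanish τ U N (Subgroup.zpowers c))) ∧
    (∀ (n k : ℕ) (e : alternatingGroup (Fin n) →* G), 2 ≤ k → (k - 1) ^ 2 < n →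
      (Vanish τ U N ⊥ ↔ Vanish τ U N ((altSub n k).map e))) ∧
    (∀ (n k : ℕ) (e : alternatingGroup (Fin n) →* G), 2 ≤ k → k ≤ n →
      (Vanish τ U N ⊥ ↔ Vanish τ U N ((altSub n k).map e) ∧
        Vanish τ U N ((classSub n (k - 1)).map e))) ∧
    (¬ Vanish τ U N ⊥ → (∀ P : Subgroup G, (Nat.card P).Prime → Vanish τ U N P) →
      FreeIn τ U N ∧ CyclicSubgroups G) := by
  have : Fintype G := Fintype.ofFinite G
  have hdown' : ∀ (ι : Type) (E : ι → Subgroup G), Dominated (⊥ : Subgroup G) E →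
      (∀ i, Vanish τ U N (E i)) → Vanish τ U N ⊥ :=
    fun ι E hE h => vanish_dom hU hN (fun S _ _ σ hσ _ hv => hE S σ hσ hv) h
  refine ⟨?_, ?_, ?_, ?_, ?_, ?_, ?_, ?_⟩
  · intro H ι E hE h
    exact vanish_dom hU hN hE h
  · intro K hK
    refine ⟨fun h C _ => vanish_up C h, fun h => ?_⟩
    exact hdown' _ _ (GB.dominated_abelian K hK ⊥) fun C => h C.1 C.2
  · rintro ι E K ⟨hfin, hι, hle, hpart⟩
    exact ⟨fun h j => vanish_up _ h, hdown' _ _ (dominated_partition E K hι hle hpart ⊥)⟩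
  · intro c hc
    refine ⟨fun h => ⟨vanish_up _ h, vanish_up _ h⟩, fun h => hdown' _ _ (dominated_two hc ⊥) ?_⟩
    intro b
    cases b
    · exact h.2
    · exact h.1
  · rintro c ⟨S, hS1, hS, hcS⟩ hc1 hc
    exact ⟨vanish_up _, fun h => hdown' _ _ (dominated_comms hc (comms_of_simple S hS hcS hc1) ⊥)
      fun _ => h⟩
  · intro n k e hk hn
    exact ⟨vanish_up _, fun h => hdown' _ _ (dominated_alt hk hn e ⊥) fun _ => h⟩
  · intro n k e hk hkn
    refine ⟨fun h => ⟨vanish_up _ h, vanish_up _ h⟩,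
      fun h => hdown' _ _ (dominated_pair hk hkn e ⊥) ?_⟩
    intro b
    cases b
    · exact h.2
    · exact h.1
  · intro h0 hP
    have h1 : FreeIn τ U N := by
      by_contra hcon
      apply h0
      refine vanish_dom hU hN (E := fun P : {P : Subgroup G // (Nat.card P).Prime} => P.1) ?_
        fun P => hP P.1 P.2
      intro V _ _ ρ hρ ho hv
      obtain ⟨v, hv0, -⟩ := hv
      by_contra hno
      push Not at hno
      apply hcon
      refine ⟨V, _, _, ρ, hρ, ho, ⟨v, hv0⟩, fun g hg w hw => ?_⟩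
      obtain ⟨P, hPp, hPg⟩ := Pool.Agent.X328.PB.card_zpowers_prime hg
      by_contra hw0
      obtain ⟨d, hd, hd'⟩ := hno ⟨P, hPp⟩ w hw0
      exact hd' (fixed_zpow ρ hw d (hPg hd))
    refine ⟨h1, ?_⟩
    obtain ⟨S, _, _, σ, hσ, ho, ⟨v, hv⟩, hfree⟩ := h1
    obtain ⟨-, k2⟩ := Pool.Agent.X328.PB.structure_of_group σ hv fun P hPp => by
      have hPnt : ∃ g : G, g ∈ P ∧ g ≠ 1 := by
        by_contra hcon
        push Not at hcon
        have h3 : P = ⊥ := by
          rw [Subgroup.eq_bot_iff_forall]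
          exact hcon
        rw [h3, Subgroup.card_bot] at hPp
        exact Nat.not_prime_one hPp
      obtain ⟨g, hgP, hg1⟩ := hPnt
      exact hfree g hg1 _ (fixed_nrm σ P v hgP)
    exact k2

end Run7.h200.Van
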